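import Mathlib

/-!
# Definitions for the filling volume of the circle

They split the (long) expression of the frozen statement S14113 into named pieces.
-/

set_option autoImplicit false

namespace Pool.Agent.FillVol

/-- The circle of length `2π`. -/
abbrev Circ : Type := AddCircle (2 * Real.pi)

/-- `L^∞(S¹)`: bounded real functions on the circle with the sup norm. -/
abbrev LInf : Type := lp (fun _ : Circ => ℝ) (⊤ : ENNReal)

/-- Integral 2-chains: finitely supported integer functions on maps `(Fin 3 → ℝ) → L^∞(S¹)`
(the restriction of the map to the standard simplex is the singular simplex). -/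
abbrev Chain2 : Type := ((Fin 3 → ℝ) → LInf) →₀ ℤ

/-- Every simplex of the chain is Lipschitz on the standard 2-simplex. -/
def IsLipschitzChain (c : Chain2) : Prop :=
  ∀ σ ∈ c.support, ∃ K, LipschitzOnWith K σ (stdSimplex ℝ (Fin 3))

/-- The boundary: alternating sum of the faces. -/
noncomputable def boundary (c : Chain2) : (stdSimplex ℝ (Fin 2) → LInf) →₀ ℤ :=
  c.sum (fun σ n => ∑ i : Fin 3,
    Finsupp.single
      ((stdSimplex ℝ (Fin 2)).restrict
        (fun x : Fin 2 → ℝ => σ (fun k : Fin 3 =>
          ∑ j : Fin 2, if i.succAbove j = k then x j else (0 : ℝ))))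
      ((-1 : ℤ) ^ (i : ℕ) * n))

/-- The fundamental cycle of the circle (three arcs of length `2π/3`) pushed forward by `f`. -/
noncomputable def fundCycle (f : Circ → LInf) : (stdSimplex ℝ (Fin 2) → LInf) →₀ ℤ :=
  ∑ j : Fin 3,
    Finsupp.single
      ((stdSimplex ℝ (Fin 2)).restrict
        (fun t : Fin 2 → ℝ =>
          f (((2 * Real.pi / 3 * (((j : ℕ) : ℝ) + t 1) : ℝ) : AddCircle (2 * Real.pi)))))
      (1 : ℤ)

/-- The area with multiplicity `∫ #σ⁻¹(y) dℋ²(y)` of a singular simplex, for the 2-dimensional
Hausdorff measure normalised to be the area on Euclidean planes (`π/4` times the measure with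
gauge `diam²`). -/
noncomputable def areaMult (σ : (Fin 3 → ℝ) → LInf) : ENNReal :=
  ENNReal.ofReal (Real.pi / 4) *
    ∑' k : ℕ,
      (MeasureTheory.OuterMeasure.mkMetric (fun r : ENNReal => r ^ (2 : ℝ)) :
          MeasureTheory.OuterMeasure LInf)
        {y : LInf | (((k + 1 : ℕ) : ℕ∞)) ≤
            Set.encard {z | z ∈ stdSimplex ℝ (Fin 3) ∧ σ z = y}}

/-- The volume `∑ |n_σ| · areaMult σ` of a chain. -/
noncomputable def chainVol (c : Chain2) : ENNReal :=
  c.sum (fun σ n => (n.natAbs : ENNReal) * areaMult σ)

end Pool.Agent.FillVol
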