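import Pool.Agent.Work.MP_e09eef_gt.Final

/-!
# Comparison of the triangle chart and the square chart
-/

set_option autoImplicit false

open MeasureTheory Set Filter Topology
open scoped ENNReal NNReal

namespace Pool.Agent.FillVol

/-- Jacobian determinant of a plane map -/
noncomputable def jac (g : ℝ × ℝ → ℝ × ℝ) (x : ℝ × ℝ) : ℝ :=
  cr (fderiv ℝ g x (1, 0)) (fderiv ℝ g x (0, 1))

/-- the open triangle -/
def Tri : Set (ℝ × ℝ) := {y | 0 < y.1 ∧ 0 < y.2 ∧ y.1 + y.2 < 1}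

/-- the open square -/
abbrev SqI : Set (ℝ × ℝ) := Ioo (0 : ℝ) 1 ×ˢ Ioo (0 : ℝ) 1

/-- the triangle chart of the simplex -/
def tri (y : ℝ × ℝ) : Fin 3 → ℝ := ![1 - y.1 - y.2, y.1, y.2]

/-- square to triangle -/
def sqt (x : ℝ × ℝ) : ℝ × ℝ := (x.1 * (1 - x.2), x.1 * x.2)

/-- triangle to square -/
noncomputable def tsq (y : ℝ × ℝ) : ℝ × ℝ := (y.1 + y.2, y.2 * (y.1 + y.2)⁻¹)

theorem tri_isOpen : IsOpen Tri := by
  unfold Tri
  exact (isOpen_lt continuous_const continuous_fst).inter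
    ((isOpen_lt continuous_const continuous_snd).inter
      (isOpen_lt (continuous_fst.add continuous_snd) continuous_const))

theorem sqt_mem {x : ℝ × ℝ} (hx : x ∈ SqI) : sqt x ∈ Tri := by
  obtain ⟨⟨h1, h2⟩, ⟨h3, h4⟩⟩ := hx
  refine ⟨mul_pos h1 (by linarith), mul_pos h1 h3, ?_⟩
  show x.1 * (1 - x.2) + x.1 * x.2 < 1
  linarith

theorem tsq_sqt {x : ℝ × ℝ} (hx : x ∈ SqI) : tsq (sqt x) = x := by
  obtain ⟨⟨h1, h2⟩, ⟨h3, h4⟩⟩ := hx
  have e : x.1 * (1 - x.2) + x.1 * x.2 = x.1 := by ring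
  ext
  · exact e
  · show x.1 * x.2 * (x.1 * (1 - x.2) + x.1 * x.2)⁻¹ = x.2
    rw [e]
    field_simp

theorem chi_tsq {y : ℝ × ℝ} (hy : y.1 + y.2 ≠ 0) : chi (tsq y) = tri y := by
  ext k
  fin_cases k
  · show 1 - (y.1 + y.2) = 1 - y.1 - y.2
    ring
  · show (y.1 + y.2) * (1 - y.2 * (y.1 + y.2)⁻¹) = y.1
    field_simp
    ring
  · show (y.1 + y.2) * (y.2 * (y.1 + y.2)⁻¹) = y.2
    field_simp

theorem tsq_deriv {y : ℝ × ℝ} (hy : y.1 + y.2 ≠ 0) :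
    ∃ L : (ℝ × ℝ) →L[ℝ] (ℝ × ℝ), HasFDerivAt tsq L y ∧
      L (1, 0) = (1, -y.2 * ((y.1 + y.2) ^ 2)⁻¹) ∧
      L (0, 1) = (1, (y.1 + y.2)⁻¹ - y.2 * ((y.1 + y.2) ^ 2)⁻¹) := by
  have h1 : HasFDerivAt (fun y : ℝ × ℝ => y.1 + y.2)
      (ContinuousLinearMap.fst ℝ ℝ ℝ + ContinuousLinearMap.snd ℝ ℝ ℝ) y :=
    hasFDerivAt_fst.add hasFDerivAt_snd
  have h2 := (hasDerivAt_inv hy).comp_hasFDerivAt y h1
  have h3 := (hasFDerivAt_snd (𝕜 := ℝ) (E := ℝ) (F := ℝ) (p := y)).mul h2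
  refine ⟨_, h1.prodMk h3, ?_, ?_⟩
  · ext
    · simp
    · simp
  · ext
    · simp
    · simp
      ring

theorem cr_linear (L : (ℝ × ℝ) →L[ℝ] (ℝ × ℝ)) (u v : ℝ × ℝ) :
    cr (L u) (L v) = cr u v * cr (L (1, 0)) (L (0, 1)) := by
  have e : ∀ w : ℝ × ℝ, L w = w.1 • L (1, 0) + w.2 • L (0, 1) := by
    intro w
    rw [← map_smul, ← map_smul, ← map_add]
    congr 1
    ext <;> simp
  rw [e u, e v]
  simp only [cr, Prod.fst_add, Prod.snd_add, Prod.smul_fst, Prod.smul_snd, smul_eq_mul]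
  ring

theorem jac_transfer {H : (Fin 3 → ℝ) → ℝ × ℝ} {P : ℝ × ℝ → ℝ × ℝ}
    (hP : ∀ x ∈ SqC, P x = H (chi x)) {x : ℝ × ℝ} (hx : x ∈ SqI)
    (hd : DifferentiableAt ℝ P x) :
    jac (fun y => H (tri y)) (sqt x) = (x.1)⁻¹ * jac P x := by
  have hT := sqt_mem hx
  have hs : (sqt x).1 + (sqt x).2 = x.1 := by
    show x.1 * (1 - x.2) + x.1 * x.2 = x.1
    ring
  have hx1 : x.1 ≠ 0 := hx.1.1.ne'
  have hs0 : (sqt x).1 + (sqt x).2 ≠ 0 := by rw [hs]; exact hx1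
  obtain ⟨L, hL, hL1, hL2⟩ := tsq_deriv hs0
  have hev : (fun y => H (tri y)) =ᶠ[𝓝 (sqt x)] P ∘ tsq := by
    have h1 : ∀ᶠ y in 𝓝 (sqt x), tsq y ∈ SqI := by
      refine hL.continuousAt.eventually_mem ?_
      rw [tsq_sqt hx]
      exact (isOpen_Ioo.prod isOpen_Ioo).mem_nhds hx
    filter_upwards [h1, tri_isOpen.mem_nhds hT] with y hy hy'
    have h2 : y.1 + y.2 ≠ 0 := (add_pos hy'.1 hy'.2.1).ne'
    rw [Function.comp_apply, hP _ ⟨Ioo_subset_Icc_self hy.1, Ioo_subset_Icc_self hy.2⟩,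
      chi_tsq h2]
  have hd' : HasFDerivAt P (fderiv ℝ P x) (tsq (sqt x)) := by
    rw [tsq_sqt hx]
    exact hd.hasFDerivAt
  have hcomp := (hd'.comp (sqt x) hL).congr_of_eventuallyEq hev
  rw [jac, hcomp.fderiv, ContinuousLinearMap.comp_apply, ContinuousLinearMap.comp_apply,
    cr_linear, hL1, hL2, jac, hs]
  congr 1
  simp only [cr]
  field_simp
  ring

theorem ae_transfer {p : ℝ × ℝ → Prop} (h : ∀ᵐ y ∂(volume.restrict Tri), p y) :
    ∀ᵐ x ∂(volume.restrict SqI), p (sqt x) := by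
  rw [ae_restrict_iff' tri_isOpen.measurableSet] at h
  rw [ae_restrict_iff' (measurableSet_Ioo.prod measurableSet_Ioo)]
  have hB : volume {y : ℝ × ℝ | ¬(y ∈ Tri → p y)} = 0 := h
  have hdiff : DifferentiableOn ℝ tsq {y : ℝ × ℝ | ¬(y ∈ Tri → p y)} := by
    intro y hy
    have hyT : y ∈ Tri := by
      by_contra hcon
      exact hy fun h' => absurd h' hcon
    have h2 : y.1 + y.2 ≠ 0 := (add_pos hyT.1 hyT.2.1).ne'
    obtain ⟨L, hL, -⟩ := tsq_deriv h2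
    exact hL.differentiableAt.differentiableWithinAt
  have hI := addHaar_image_eq_zero_of_differentiableOn_of_addHaar_eq_zero volume hdiff hB
  refine measure_mono_null ?_ hI
  intro x hx
  have hx' : ¬(x ∈ SqI → p (sqt x)) := hx
  rw [Classical.not_imp] at hx'
  refine ⟨sqt x, ?_, tsq_sqt hx'.1⟩
  intro h'
  exact hx'.2 (h' (sqt_mem hx'.1))

theorem SqO_restrict : (volume : Measure (ℝ × ℝ)).restrict SqO = volume.restrict SqI := by
  rw [Measure.volume_eq_prod, ← Measure.prod_restrict, ← Measure.prod_restrict,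
    Measure.restrict_congr_set Ioo_ae_eq_Ioc]

/-- transfer of the sign condition -/
theorem sign_transfer {H : (Fin 3 → ℝ) → ℝ × ℝ} {P : ℝ × ℝ → ℝ × ℝ} {K : ℝ≥0}
    (hL : LipschitzWith K P) (hP : ∀ x ∈ SqC, P x = H (chi x)) {m : ℝ}
    (h : ∀ᵐ y ∂(volume.restrict Tri), 0 ≤ m * jac (fun y => H (tri y)) y) :
    ∀ᵐ x ∂(volume.restrict SqO), 0 ≤ m * jac P x := by
  rw [SqO_restrict]
  have h1 := ae_transfer h
  have h2 : ∀ᵐ x ∂(volume.restrict SqI), DifferentiableAt ℝ P x :=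
    ae_restrict_of_ae hL.ae_differentiableAt
  have h3 : ∀ᵐ x ∂(volume.restrict SqI), x ∈ SqI :=
    ae_restrict_mem (measurableSet_Ioo.prod measurableSet_Ioo)
  filter_upwards [h1, h2, h3] with x hx1 hx2 hx3
  rw [jac_transfer hP hx3 hx2] at hx1
  have hpos : 0 < (x.1)⁻¹ := inv_pos.2 hx3.1.1
  have e : m * ((x.1)⁻¹ * jac P x) = (x.1)⁻¹ * (m * jac P x) := by ring
  rw [e] at hx1
  exact nonneg_of_mul_nonneg_right hx1 hpos

end Pool.Agent.FillVol
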