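import Pool.Agent.Work.MP_e09eef_gt.Arc1

/-!
# Pushing a filling by a self-map of `L^∞(S¹)` which fixes the circle
-/

set_option autoImplicit false

open MeasureTheory Set Filter Topology
open scoped ENNReal NNReal

namespace Pool.Agent.FillVol

theorem bd_push (Θ : EE → EE) (c : ((Fin 3 → ℝ) → EE) →₀ ℤ) :
    bd (Finsupp.mapDomain (fun σ => Θ ∘ σ) c) = Finsupp.mapDomain (fun γ => Θ ∘ γ) (bd c) := by
  rw [bd, bd, Finsupp.sum_mapDomain_index]
  · rw [Finsupp.sum, Finsupp.sum, Finsupp.mapDomain_finsetSum]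
    refine Finset.sum_congr rfl fun σ _ => ?_
    rw [Finsupp.mapDomain_finsetSum]
    refine Finset.sum_congr rfl fun i _ => ?_
    rw [Finsupp.mapDomain_single]
    rfl
  · intro σ
    simp
  · intro σ m n
    rw [← Finset.sum_add_distrib]
    refine Finset.sum_congr rfl fun i _ => ?_
    rw [← Finsupp.single_add, mul_add]

theorem fc_push {Θ : EE → EE} {f : AddCircle (2 * Real.pi) → EE} (hΘ : ∀ m, Θ (f m) = f m) :
    Finsupp.mapDomain (fun γ => Θ ∘ γ) (fc f) = fc f := by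
  rw [fc, Finsupp.mapDomain_finsetSum]
  refine Finset.sum_congr rfl fun j _ => ?_
  rw [Finsupp.mapDomain_single]
  congr 1
  funext t
  exact hΘ _

/-- the pair identity for a pushed filling -/
theorem pair_push {f : AddCircle (2 * Real.pi) → EE}
    (hf : ∀ (m x : AddCircle (2 * Real.pi)), (f m) x = dist m x) {N' : ℕ} (hN : 0 < N')
    (c : ((Fin 3 → ℝ) → EE) →₀ ℤ) (hc : bd c = fc f) {Θ : EE → EE}
    (hΘ : ∀ m, Θ (f m) = f m)
    (G : ((Fin 3 → ℝ) → EE) → ℝ × ℝ → Fin (3 * N') → ℝ) (K : ((Fin 3 → ℝ) → EE) → ℝ≥0)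
    (hK : ∀ σ ∈ c.support, LipschitzWith (K (Θ ∘ σ)) (G (Θ ∘ σ)))
    (hG : ∀ σ ∈ c.support, ∀ x ∈ SqC, ∀ i : Fin (3 * N'),
      G (Θ ∘ σ) x i = (Θ ∘ σ) (chi x) (pp (3 * N') i))
    {i j : Fin (3 * N')} (hij : i < j) :
    ∑ σ ∈ c.support, (c σ : ℝ) * ∫ x in SqO, JJ (G (Θ ∘ σ)) i j x =
      2 * ((j : ℝ) - i) * ((3 * N' : ℕ) - ((j : ℝ) - i)) * (Real.pi / (3 * N' : ℕ)) ^ 2 := by
  classical
  set c' : ((Fin 3 → ℝ) → EE) →₀ ℤ := Finsupp.mapDomain (fun σ => Θ ∘ σ) c with hc'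
  have hbd : bd c' = fc f := by rw [hc', bd_push, hc, fc_push hΘ]
  have hsupp : ∀ τ ∈ c'.support, ∃ σ ∈ c.support, Θ ∘ σ = τ := by
    intro τ hτ
    have := Finsupp.mapDomain_support hτ
    simpa using this
  have hmain := pair_identity hf hN c' hbd G K
    (by
      intro τ hτ
      obtain ⟨σ, hσ, rfl⟩ := hsupp τ hτ
      exact hK σ hσ)
    (by
      intro τ hτ
      obtain ⟨σ, hσ, rfl⟩ := hsupp τ hτ
      exact hG σ hσ) hij
  rw [← hmain]
  have h1 : c'.sum (fun τ n => (n : ℝ) * ∫ x in SqO, JJ (G τ) i j x) =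
      c.sum (fun σ n => (n : ℝ) * ∫ x in SqO, JJ (G (Θ ∘ σ)) i j x) := by
    rw [hc', Finsupp.sum_mapDomain_index]
    · intro τ
      simp
    · intro τ m n
      push_cast
      ring
  exact h1.symm

end Pool.Agent.FillVol
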