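import Pool.Agent.Work.MP_e09eef_gt.Sant3

/-!
# The Santaló inequality for weakly ordered vectors
-/

set_option autoImplicit false

open Set Filter Topology

namespace Pool.Agent.FillVol

/-- exponent of the Gaussian smoothing -/
def ex {N : ℕ} (a j : Fin N) : ℕ := ((a : ℤ) - (j : ℤ)).natAbs ^ 2

/-- the smoothed family -/
noncomputable def bt {N : ℕ} (b : Fin N → ℝ × ℝ) (t : ℝ) (j : Fin N) : ℝ × ℝ :=
  ∑ a, (t ^ ex a j) • b a

theorem cr_sum {N : ℕ} (b : Fin N → ℝ × ℝ) (u v : Fin N → ℝ) :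
    cr (∑ a, u a • b a) (∑ a, v a • b a) = ∑ a, ∑ a', u a * v a' * cr (b a) (b a') := by
  simp only [cr, Prod.fst_sum, Prod.snd_sum, Prod.smul_fst, Prod.smul_snd, smul_eq_mul]
  rw [Finset.sum_mul_sum, Finset.sum_mul_sum, ← Finset.sum_sub_distrib]
  refine Finset.sum_congr rfl fun a _ => ?_
  rw [← Finset.sum_sub_distrib]
  refine Finset.sum_congr rfl fun a' _ => ?_
  ring

theorem ex_lt {N : ℕ} {a a' i j : Fin N} (ha : a < a') (hi : i < j) :
    ex a i + ex a' j < ex a' i + ex a j := by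
  have ha' : (a : ℤ) < a' := by exact_mod_cast ha
  have hi' : (i : ℤ) < j := by exact_mod_cast hi
  zify [ex]
  simp only [sq_abs]
  nlinarith [mul_pos (sub_pos.2 ha') (sub_pos.2 hi')]

theorem bt_pos {N : ℕ} {b : Fin N → ℝ × ℝ} (hb : ∀ i j : Fin N, i < j → 0 ≤ cr (b i) (b j))
    {p q : Fin N} (hpq : p < q) (hs : 0 < cr (b p) (b q)) {t : ℝ} (h0 : 0 < t) (h1 : t < 1)
    {i j : Fin N} (hij : i < j) : 0 < cr (bt b t i) (bt b t j) := by
  have h2 : 2 * cr (bt b t i) (bt b t j) =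
      ∑ a, ∑ a', (t ^ (ex a i + ex a' j) - t ^ (ex a' i + ex a j)) * cr (b a) (b a') := by
    rw [bt, bt, cr_sum]
    have e1 : ∑ a, ∑ a', t ^ ex a i * t ^ ex a' j * cr (b a) (b a') =
        ∑ a, ∑ a', t ^ ex a' i * t ^ ex a j * cr (b a') (b a) := by
      rw [Finset.sum_comm]
    have e2 : ∑ a, ∑ a', (t ^ (ex a i + ex a' j) - t ^ (ex a' i + ex a j)) * cr (b a) (b a') =
        ∑ a, ∑ a', t ^ ex a i * t ^ ex a' j * cr (b a) (b a') +
          ∑ a, ∑ a', t ^ ex a' i * t ^ ex a j * cr (b a') (b a) := by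
      rw [← Finset.sum_add_distrib]
      refine Finset.sum_congr rfl fun a _ => ?_
      rw [← Finset.sum_add_distrib]
      refine Finset.sum_congr rfl fun a' _ => ?_
      rw [pow_add, pow_add, cr_comm (b a') (b a)]
      ring
    rw [e2, ← e1]
    ring
  have hterm : ∀ a a' : Fin N,
      0 ≤ (t ^ (ex a i + ex a' j) - t ^ (ex a' i + ex a j)) * cr (b a) (b a') := by
    intro a a'
    rcases lt_trichotomy a a' with h | h | h
    · refine mul_nonneg ?_ (hb a a' h)
      rw [sub_nonneg]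
      exact (pow_lt_pow_right_of_lt_one₀ h0 h1 (ex_lt h hij)).le
    · rw [h, cr_self, mul_zero]
    · rw [cr_comm]
      refine mul_nonneg_of_nonpos_of_nonpos ?_ (neg_nonpos.2 (hb a' a h))
      rw [sub_nonpos]
      exact (pow_lt_pow_right_of_lt_one₀ h0 h1 (ex_lt h hij)).le
  have hpq' : 0 < (t ^ (ex p i + ex q j) - t ^ (ex q i + ex p j)) * cr (b p) (b q) := by
    refine mul_pos ?_ hs
    rw [sub_pos]
    exact pow_lt_pow_right_of_lt_one₀ h0 h1 (ex_lt hpq hij)
  have h3 : 0 < ∑ a, ∑ a', (t ^ (ex a i + ex a' j) - t ^ (ex a' i + ex a j)) * cr (b a) (b a') :=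
    Finset.sum_pos' (fun a _ => Finset.sum_nonneg fun a' _ => hterm a a')
      ⟨p, Finset.mem_univ _, Finset.sum_pos' (fun a' _ => hterm p a') ⟨q, Finset.mem_univ _, hpq'⟩⟩
  linarith

theorem bt_zero {N : ℕ} (b : Fin N → ℝ × ℝ) : bt b 0 = b := by
  funext j
  rw [bt, Finset.sum_eq_single j]
  · simp [ex]
  · intro a _ ha
    have : ex a j ≠ 0 := by
      rw [ex]
      have h1 : (a : ℤ) - j ≠ 0 := by
        intro h
        apply ha
        ext
        omega
      positivity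
    rw [zero_pow this, zero_smul]
  · intro h
    exact absurd (Finset.mem_univ _) h

theorem bt_cont {N : ℕ} (b : Fin N → ℝ × ℝ) : Continuous (bt b) := by
  unfold bt
  fun_prop

theorem SS_cont {N : ℕ} (hN : 0 < N) : Continuous (SS hN) := by
  unfold SS XX cr
  fun_prop

/-- **Santaló inequality** for a weakly ordered family: `S(b) ≤ π² M(b)`. -/
theorem santalo_weak {N : ℕ} (hN : 2 ≤ N) {b : Fin N → ℝ × ℝ}
    (hb : ∀ i j : Fin N, i < j → 0 ≤ cr (b i) (b j)) :
    SS (by omega : 0 < N) b ≤ Real.pi ^ 2 * MM b := by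
  have hN0 : 0 < N := by omega
  by_cases hall : ∀ p q : Fin N, p < q → cr (b p) (b q) = 0
  · have hz : ∀ p q : Fin N, cr (b p) (b q) = 0 := by
      intro p q
      rcases lt_trichotomy p q with h | h | h
      · exact hall p q h
      · rw [h, cr_self]
      · rw [cr_comm, hall q p h, neg_zero]
    have h0 : SS hN0 b = 0 := by
      rw [SS]
      refine Finset.sum_eq_zero fun i _ => ?_
      rw [XX, XX, cr_smul_left, cr_smul, hz, mul_zero, mul_zero]
    rw [h0]
    have := MM_nonneg b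
    positivity
  push Not at hall
  obtain ⟨p, q, hpq, hne⟩ := hall
  have hs : 0 < cr (b p) (b q) := lt_of_le_of_ne (hb p q hpq) hne.symm
  have h1 : Tendsto (fun t => SS hN0 (bt b t)) (𝓝[>] (0 : ℝ)) (𝓝 (SS hN0 (bt b 0))) :=
    (((SS_cont hN0).comp (bt_cont b)).tendsto 0).mono_left nhdsWithin_le_nhds
  have h2 : Tendsto (fun t => Real.pi ^ 2 * MM (bt b t)) (𝓝[>] (0 : ℝ))
      (𝓝 (Real.pi ^ 2 * MM (bt b 0))) :=
    ((continuous_const.mul (MM_cont.comp (bt_cont b))).tendsto 0).mono_left nhdsWithin_le_nhds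
  rw [bt_zero] at h1 h2
  refine le_of_tendsto_of_tendsto h1 h2 ?_
  have hmem : Ioo (0 : ℝ) 1 ∈ 𝓝[>] (0 : ℝ) := Ioo_mem_nhdsGT one_pos
  filter_upwards [hmem] with t ht
  exact santalo_strict hN fun i j hij => bt_pos hb hpq hs ht.1 ht.2 hij

/-- the polygon area as a sum over the family -/
theorem SS_eq {N : ℕ} (hN : 0 < N + 1) (b : Fin (N + 1) → ℝ × ℝ) :
    SS hN b = ∑ i : Fin N, cr (b i.castSucc) (b i.succ) + cr (b 0) (b (Fin.last N)) := by
  rw [SS, Finset.sum_range_succ, Finset.sum_range]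
  congr 1
  · refine Finset.sum_congr rfl fun i _ => ?_
    have h1 := XX_lt hN b i.castSucc
    have h2 := XX_lt hN b i.succ
    rw [Fin.val_castSucc] at h1
    rw [Fin.val_succ] at h2
    rw [h1, h2]
  · have h1 := XX_lt hN b (Fin.last N)
    have h2 := XX_add hN b 0
    have h3 := XX_lt hN b 0
    rw [Fin.val_last] at h1
    rw [zero_add] at h2
    rw [Fin.val_zero] at h3
    rw [h1, h2, h3, cr_neg_right, ← cr_comm]

end Pool.Agent.FillVol
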