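import Pool.Agent.Work.MP_e09eef_gt.Arc2
import Pool.Agent.Work.MP_e09eef_gt.Sant4

/-!
# The pointwise inequality and the summation over the consecutive pairs
-/

set_option autoImplicit false

open MeasureTheory Set Filter Topology
open scoped ENNReal NNReal

namespace Pool.Agent.FillVol

theorem cr_bvec_JJ {N : ℕ} {G : ℝ × ℝ → Fin N → ℝ} (i j : Fin N) {x : ℝ × ℝ}
    (hx : DifferentiableAt ℝ G x) :
    cr (bvec (fderiv ℝ G x) i) (bvec (fderiv ℝ G x) j) = JJ G i j x := by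
  rw [JJ_eq i j hx]
  simp only [cr, bvec]
  ring

/-- reflection of a family -/
def refl2 {N : ℕ} (b : Fin N → ℝ × ℝ) (i : Fin N) : ℝ × ℝ := ((b i).1, -(b i).2)

theorem cr_refl2 {N : ℕ} (b : Fin N → ℝ × ℝ) (i j : Fin N) :
    cr (refl2 b i) (refl2 b j) = -cr (b i) (b j) := by
  simp only [cr, refl2]
  ring

theorem MM_refl2 {N : ℕ} (b : Fin N → ℝ × ℝ) : MM (refl2 b) = MM b := by
  have : FF (refl2 b) = FF b := by
    funext c
    simp only [FF, cr_refl2, abs_neg]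
  rw [MM, MM, this]

/-- the pointwise inequality -/
theorem pointwise {n : ℕ} (hn : 1 ≤ n) (b : Fin (n + 1) → ℝ × ℝ) (m : ℤ)
    (h : ∀ i j : Fin (n + 1), i < j → 0 ≤ (m : ℝ) * cr (b i) (b j)) :
    (m : ℝ) * (∑ i : Fin n, cr (b i.castSucc) (b i.succ) + cr (b 0) (b (Fin.last n))) ≤
      (m.natAbs : ℝ) * (Real.pi ^ 2 * MM b) := by
  have hN : 2 ≤ n + 1 := by omega
  have habs : (m.natAbs : ℝ) = |(m : ℝ)| := by
    rw [← Int.cast_abs, Int.abs_eq_natAbs, Int.cast_natCast]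
  rw [habs]
  rcases lt_trichotomy m 0 with hm | hm | hm
  · have hm' : (m : ℝ) < 0 := by exact_mod_cast hm
    have h1 := santalo_weak hN (b := refl2 b) (by
      intro i j hij
      rw [cr_refl2]
      have := h i j hij
      by_contra hcon
      push Not at hcon
      have h2 : 0 < cr (b i) (b j) := by linarith
      nlinarith)
    rw [MM_refl2, SS_eq] at h1
    simp only [cr_refl2] at h1
    rw [Finset.sum_neg_distrib] at h1
    rw [abs_of_neg hm']
    nlinarith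
  · rw [hm]
    simp
  · have hm' : (0 : ℝ) < m := by exact_mod_cast hm
    have h1 := santalo_weak hN (b := b) (by
      intro i j hij
      exact nonneg_of_mul_nonneg_right (h i j hij) hm')
    rw [SS_eq] at h1
    rw [abs_of_pos hm']
    exact mul_le_mul_of_nonneg_left h1 hm'.le

theorem MM_bvec_cont {N : ℕ} :
    Continuous fun A : (ℝ × ℝ) →L[ℝ] (Fin N → ℝ) => MM (bvec A) := by
  refine MM_cont.comp ?_
  have h : ∀ (v : ℝ × ℝ) (i : Fin N),
      Continuous fun A : (ℝ × ℝ) →L[ℝ] (Fin N → ℝ) => A v i := by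
    intro v i
    exact (continuous_apply i).comp (ContinuousLinearMap.apply ℝ (Fin N → ℝ) v).continuous
  exact continuous_pi fun i => (h _ i).prodMk (h _ i).neg

/-- summation over the consecutive pairs -/
theorem key_bound {N : ℕ} (hN : 2 ≤ N) {ι : Type*} (s : Finset ι) (m : ι → ℤ)
    (G : ι → ℝ × ℝ → Fin N → ℝ) (K : ι → ℝ≥0) (hK : ∀ σ ∈ s, LipschitzWith (K σ) (G σ))
    (hflux : ∀ i j : Fin N, i < j → ∑ σ ∈ s, (m σ : ℝ) * ∫ x in SqO, JJ (G σ) i j x =
      2 * ((j : ℝ) - i) * ((N : ℝ) - ((j : ℝ) - i)) * (Real.pi / N) ^ 2)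
    (hsgn : ∀ σ ∈ s, ∀ i j : Fin N, i < j →
      ∀ᵐ x ∂(volume.restrict SqO), 0 ≤ (m σ : ℝ) * JJ (G σ) i j x) :
    ENNReal.ofReal (2 * Real.pi ^ 2 * (1 - 1 / N)) ≤
      ∑ σ ∈ s, ((m σ).natAbs : ℝ≥0∞) * (ENNReal.ofReal (Real.pi ^ 2) *
        ∫⁻ x in SqO, ENNReal.ofReal (MM (bvec (fderiv ℝ (G σ) x)))) := by
  obtain ⟨n, rfl⟩ : ∃ n, N = n + 1 := ⟨N - 1, by omega⟩
  have hn : 1 ≤ n := by omega
  set fl : Fin (n + 1) → Fin (n + 1) → ℝ := fun i j =>
    2 * ((j : ℝ) - i) * (((n + 1 : ℕ) : ℝ) - ((j : ℝ) - i)) * (Real.pi / ((n + 1 : ℕ) : ℝ)) ^ 2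
    with hfl
  set E : Fin (n + 1) → Fin (n + 1) → ℝ≥0∞ := fun i j =>
    ∑ σ ∈ s, ∫⁻ x in SqO, ENNReal.ofReal ((m σ : ℝ) * JJ (G σ) i j x) with hE
  have hmeas : ∀ (σ : ι) (i j : Fin (n + 1)), Measurable fun x => (m σ : ℝ) * JJ (G σ) i j x :=
    fun σ i j => (JJ_meas (G σ) i j).const_mul _
  have hone : ∀ i j : Fin (n + 1), i < j → ENNReal.ofReal (fl i j) ≤ E i j := by
    intro i j hij
    have h1 := hflux i j hij
    have h2 : fl i j = ∑ σ ∈ s, ∫ x in SqO, (m σ : ℝ) * JJ (G σ) i j x := by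
      rw [hfl]
      simp only
      rw [← h1]
      exact Finset.sum_congr rfl fun σ _ => (integral_const_mul _ _).symm
    rw [h2, ENNReal.ofReal_sum_of_nonneg fun σ hσ => integral_nonneg_of_ae (hsgn σ hσ i j hij)]
    refine Finset.sum_le_sum fun σ hσ => ?_
    rw [integral_eq_lintegral_of_nonneg_ae (hsgn σ hσ i j hij)
      (hmeas σ i j).aestronglyMeasurable]
    exact ENNReal.ofReal_toReal_le
  have hfl0 : ∀ i j : Fin (n + 1), i < j → 0 ≤ fl i j := by
    intro i j hij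
    have h1 : (i : ℝ) < j := by exact_mod_cast hij
    have h2 : (j : ℝ) < ((n + 1 : ℕ) : ℝ) := by exact_mod_cast j.2
    have h3 : (0 : ℝ) ≤ i := Nat.cast_nonneg _
    have h4 : 0 ≤ ((n + 1 : ℕ) : ℝ) - ((j : ℝ) - i) := by linarith
    have h5 : 0 ≤ (j : ℝ) - i := by linarith
    rw [hfl]
    simp only
    positivity
  have hlt : ∀ i : Fin n, i.castSucc < i.succ := fun i => Fin.castSucc_lt_succ
  have h0l : (0 : Fin (n + 1)) < Fin.last n := by
    rw [Fin.lt_def]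
    simp
    omega
  have hsum : 2 * Real.pi ^ 2 * (1 - 1 / ((n + 1 : ℕ) : ℝ)) =
      ∑ i : Fin n, fl i.castSucc i.succ + fl 0 (Fin.last n) := by
    have h1 : ∀ i : Fin n, fl i.castSucc i.succ =
        2 * (n : ℝ) * (Real.pi / ((n + 1 : ℕ) : ℝ)) ^ 2 := by
      intro i
      rw [hfl]
      simp only [Fin.val_castSucc, Fin.val_succ]
      push_cast
      ring
    rw [Finset.sum_congr rfl fun i _ => h1 i, Finset.sum_const, Finset.card_univ,
      Fintype.card_fin, nsmul_eq_mul, hfl]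
    simp only [Fin.val_last, Fin.val_zero]
    have hn1 : ((n + 1 : ℕ) : ℝ) ≠ 0 := by positivity
    push_cast at hn1 ⊢
    field_simp
    ring
  rw [hsum, ENNReal.ofReal_add (Finset.sum_nonneg fun i _ => hfl0 _ _ (hlt i)) (hfl0 _ _ h0l),
    ENNReal.ofReal_sum_of_nonneg fun i _ => hfl0 _ _ (hlt i)]
  refine (add_le_add (Finset.sum_le_sum fun i _ => hone _ _ (hlt i)) (hone _ _ h0l)).trans ?_
  have hE1 : ∑ i : Fin n, E i.castSucc i.succ + E 0 (Fin.last n) =
      ∑ σ ∈ s, ∫⁻ x in SqO, (∑ i : Fin n,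
        ENNReal.ofReal ((m σ : ℝ) * JJ (G σ) i.castSucc i.succ x) +
        ENNReal.ofReal ((m σ : ℝ) * JJ (G σ) 0 (Fin.last n) x)) := by
    rw [hE]
    simp only
    rw [Finset.sum_comm, ← Finset.sum_add_distrib]
    refine Finset.sum_congr rfl fun σ _ => ?_
    rw [lintegral_add_left (Finset.measurable_sum _ fun i _ =>
      (hmeas σ i.castSucc i.succ).ennreal_ofReal),
      lintegral_finsetSum _ fun i _ => (hmeas σ i.castSucc i.succ).ennreal_ofReal]
  rw [hE1]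
  refine Finset.sum_le_sum fun σ hσ => ?_
  have hae : ∀ᵐ x ∂(volume.restrict SqO), ∀ i j : Fin (n + 1), i < j →
      0 ≤ (m σ : ℝ) * JJ (G σ) i j x := by
    rw [ae_all_iff]
    intro i
    rw [ae_all_iff]
    intro j
    by_cases hij : i < j
    · filter_upwards [hsgn σ hσ i j hij] with x hx _
      exact hx
    · exact Filter.Eventually.of_forall fun x h => absurd h hij
  have hconst : ((m σ).natAbs : ℝ≥0∞) * (ENNReal.ofReal (Real.pi ^ 2) *
        ∫⁻ x in SqO, ENNReal.ofReal (MM (bvec (fderiv ℝ (G σ) x)))) =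
      ∫⁻ x in SqO, ENNReal.ofReal (((m σ).natAbs : ℝ) *
        (Real.pi ^ 2 * MM (bvec (fderiv ℝ (G σ) x)))) := by
    have hM : Measurable fun x => ENNReal.ofReal (MM (bvec (fderiv ℝ (G σ) x))) :=
      (MM_bvec_cont.measurable.comp (measurable_fderiv ℝ (G σ))).ennreal_ofReal
    rw [← lintegral_const_mul _ hM, ← lintegral_const_mul _ (hM.const_mul _)]
    refine lintegral_congr fun x => ?_
    rw [ENNReal.ofReal_mul (Nat.cast_nonneg _), ENNReal.ofReal_mul (by positivity),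
      ENNReal.ofReal_natCast]
  rw [hconst]
  refine lintegral_mono_ae ?_
  filter_upwards [hae, ae_restrict_of_ae (hK σ hσ).ae_differentiableAt] with x hx hxd
  rw [← ENNReal.ofReal_sum_of_nonneg fun i _ => hx _ _ (hlt i),
    ← ENNReal.ofReal_add (Finset.sum_nonneg fun i _ => hx _ _ (hlt i)) (hx _ _ h0l)]
  refine ENNReal.ofReal_le_ofReal ?_
  have hp := pointwise hn (bvec (fderiv ℝ (G σ) x)) (m σ) (by
    intro i j hij
    rw [cr_bvec_JJ i j hxd]
    exact hx i j hij)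
  rw [mul_add, Finset.mul_sum] at hp
  simp only [cr_bvec_JJ _ _ hxd] at hp
  exact hp

end Pool.Agent.FillVol
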