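import Pool.Agent.Work.MP_e09eef_gt.Sant1

/-!
# The planar Santaló inequality for an ordered family of vectors
-/

set_option autoImplicit false

open Set Filter Topology

namespace Pool.Agent.FillVol

/-- half of the mean of the absolute determinants, weighted by `c` -/
noncomputable def FF {N : ℕ} (b : Fin N → ℝ × ℝ) (c : Fin N → ℝ) : ℝ :=
  (1 / 2) * ∑ i, ∑ j, c i * c j * |cr (b i) (b j)|

/-- the maximum of `FF b` over the probability weights -/
noncomputable def MM {N : ℕ} (b : Fin N → ℝ × ℝ) : ℝ :=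
  sSup (FF b '' stdSimplex ℝ (Fin N))

theorem cr_cont : Continuous fun p : (ℝ × ℝ) × (ℝ × ℝ) => cr p.1 p.2 := by
  unfold cr; fun_prop

theorem FF_cont {N : ℕ} :
    Continuous (Function.uncurry (FF : (Fin N → ℝ × ℝ) → (Fin N → ℝ) → ℝ)) := by
  unfold FF Function.uncurry
  refine continuous_const.mul (continuous_finsetSum _ fun i _ => continuous_finsetSum _ fun j _ => ?_)
  refine Continuous.mul (by fun_prop) ?_
  refine Continuous.abs ?_
  unfold cr
  fun_prop

theorem MM_cont {N : ℕ} : Continuous (MM : (Fin N → ℝ × ℝ) → ℝ) :=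
  (isCompact_stdSimplex ℝ (Fin N)).continuous_sSup FF_cont

theorem MM_exists {N : ℕ} (hN : 0 < N) (b : Fin N → ℝ × ℝ) :
    ∃ c ∈ stdSimplex ℝ (Fin N), FF b c = MM b ∧ ∀ c' ∈ stdSimplex ℝ (Fin N), FF b c' ≤ MM b := by
  haveI : Nonempty (Fin N) := ⟨⟨0, hN⟩⟩
  have hne : (stdSimplex ℝ (Fin N)).Nonempty := by
    exact ⟨_, single_mem_stdSimplex ℝ ⟨0, hN⟩⟩
  have hc : Continuous (FF b) := FF_cont.comp (continuous_const.prodMk continuous_id)
  have hg := ((isCompact_stdSimplex ℝ (Fin N)).image hc).isGreatest_sSup (hne.image _)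
  obtain ⟨c, hc1, hc2⟩ := hg.1
  exact ⟨c, hc1, hc2, fun c' hc' => hg.2 ⟨c', hc', rfl⟩⟩

theorem FF_nonneg {N : ℕ} (b : Fin N → ℝ × ℝ) {c : Fin N → ℝ} (hc : c ∈ stdSimplex ℝ (Fin N)) :
    0 ≤ FF b c := by
  rw [FF]
  refine mul_nonneg (by norm_num) (Finset.sum_nonneg fun i _ => Finset.sum_nonneg fun j _ => ?_)
  exact mul_nonneg (mul_nonneg (hc.1 i) (hc.1 j)) (abs_nonneg _)

theorem MM_nonneg {N : ℕ} (b : Fin N → ℝ × ℝ) : 0 ≤ MM b := by
  rcases Nat.eq_zero_or_pos N with rfl | hN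
  · rw [MM]
    refine Real.sSup_nonneg ?_
    rintro _ ⟨c, hc, rfl⟩
    exact FF_nonneg b hc
  · obtain ⟨c, hc, hc', -⟩ := MM_exists hN b
    rw [← hc']
    exact FF_nonneg b hc

/-- the potential of the weights `c` -/
noncomputable def GG {N : ℕ} (b : Fin N → ℝ × ℝ) (c : Fin N → ℝ) (v : ℝ × ℝ) : ℝ :=
  ∑ j, c j * |cr v (b j)|

theorem FF_GG {N : ℕ} (b : Fin N → ℝ × ℝ) (c : Fin N → ℝ) :
    2 * FF b c = ∑ i, c i * GG b c (b i) := by
  rw [FF]
  simp only [GG, Finset.mul_sum]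
  refine Finset.sum_congr rfl fun i _ => Finset.sum_congr rfl fun j _ => ?_
  ring

theorem cr_abs_comm (a b : ℝ × ℝ) : |cr a b| = |cr b a| := by
  rw [cr_comm, abs_neg]

/-- comparison with a vertex -/
theorem FF_vertex {N : ℕ} (b : Fin N → ℝ × ℝ) (c : Fin N → ℝ) (i : Fin N) (t : ℝ) :
    FF b (fun j => (1 - t) * c j + t * (if j = i then 1 else 0)) =
      (1 - t) ^ 2 * FF b c + t * (1 - t) * GG b c (b i) := by
  have h1 : ∀ k j : Fin N, ((1 - t) * c k + t * (if k = i then 1 else 0)) *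
      ((1 - t) * c j + t * (if j = i then 1 else 0)) * |cr (b k) (b j)| =
      (1 - t) ^ 2 * (c k * c j * |cr (b k) (b j)|) +
      t * (1 - t) * (if k = i then c j * |cr (b k) (b j)| else 0) +
      t * (1 - t) * (if j = i then c k * |cr (b k) (b j)| else 0) +
      t ^ 2 * (if k = i then (if j = i then |cr (b k) (b j)| else 0) else 0) := by
    intro k j
    split_ifs <;> ring
  rw [FF]
  simp_rw [h1, Finset.sum_add_distrib, ← Finset.mul_sum]
  have e1 : ∑ k, ∑ j, (if k = i then c j * |cr (b k) (b j)| else 0) = GG b c (b i) := by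
    rw [Finset.sum_eq_single i]
    · simp [GG]
    · intro k _ hk; simp [hk]
    · intro h; exact absurd (Finset.mem_univ _) h
  have e2 : ∑ k, ∑ j, (if j = i then c k * |cr (b k) (b j)| else 0) = GG b c (b i) := by
    rw [GG]
    refine Finset.sum_congr rfl fun k _ => ?_
    rw [Finset.sum_ite_eq' Finset.univ i, if_pos (Finset.mem_univ _), cr_abs_comm]
  have e3 : ∑ k, ∑ j, (if k = i then (if j = i then |cr (b k) (b j)| else 0) else 0) = (0 : ℝ) := by
    refine Finset.sum_eq_zero fun k _ => Finset.sum_eq_zero fun j _ => ?_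
    split_ifs with hk hj
    · rw [hk, hj, cr_self, abs_zero]
    · rfl
    · rfl
  rw [e1, e2, e3, FF]
  ring

theorem vertex_mem {N : ℕ} {c : Fin N → ℝ} (hc : c ∈ stdSimplex ℝ (Fin N)) (i : Fin N) {t : ℝ}
    (h0 : 0 ≤ t) (h1 : t ≤ 1) :
    (fun j => (1 - t) * c j + t * (if j = i then 1 else 0)) ∈ stdSimplex ℝ (Fin N) := by
  refine ⟨fun j => ?_, ?_⟩
  · have := hc.1 j
    have h2 : 0 ≤ 1 - t := by linarith
    simp only
    split_ifs <;> positivity
  · rw [Finset.sum_add_distrib, ← Finset.mul_sum, ← Finset.mul_sum, hc.2]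
    simp

/-- the potential of a maximiser is at most `2 M` -/
theorem GG_le {N : ℕ} (b : Fin N → ℝ × ℝ) {c : Fin N → ℝ} (hc : c ∈ stdSimplex ℝ (Fin N))
    (hmax : ∀ c' ∈ stdSimplex ℝ (Fin N), FF b c' ≤ FF b c) (i : Fin N) :
    GG b c (b i) ≤ 2 * FF b c := by
  by_contra hlt
  push Not at hlt
  set M := FF b c with hM
  set G := GG b c (b i) with hG
  have hM0 : 0 ≤ M := FF_nonneg b hc
  have key : ∀ t : ℝ, 0 < t → t ≤ 1 → (1 - t) * G ≤ (2 - t) * M := by
    intro t h0 h1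
    have := hmax _ (vertex_mem hc i h0.le h1)
    rw [FF_vertex] at this
    have h2 : t * ((1 - t) * G) ≤ t * ((2 - t) * M) := by nlinarith
    exact le_of_mul_le_mul_left h2 h0
  have hG0 : 0 < G := by linarith
  have h3 := key (min 1 ((G - 2 * M) / (2 * G))) (lt_min one_pos (div_pos (by linarith) (by linarith)))
    (min_le_left _ _)
  set t := min 1 ((G - 2 * M) / (2 * G)) with ht
  have ht0 : 0 < t := lt_min one_pos (div_pos (by linarith) (by linarith))
  have ht1 : t * (2 * G) ≤ G - 2 * M := by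
    have := min_le_right (1 : ℝ) ((G - 2 * M) / (2 * G))
    rw [← ht, le_div_iff₀ (by linarith)] at this
    exact this
  nlinarith

/-- complementary slackness -/
theorem GG_eq {N : ℕ} (b : Fin N → ℝ × ℝ) {c : Fin N → ℝ} (hc : c ∈ stdSimplex ℝ (Fin N))
    (hmax : ∀ c' ∈ stdSimplex ℝ (Fin N), FF b c' ≤ FF b c) (i : Fin N) :
    c i * GG b c (b i) = c i * (2 * FF b c) := by
  have h1 : ∑ i, c i * (2 * FF b c - GG b c (b i)) = 0 := by
    simp_rw [mul_sub, Finset.sum_sub_distrib, ← Finset.sum_mul]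
    rw [hc.2, one_mul, FF_GG, sub_self]
  have h2 := (Finset.sum_eq_zero_iff_of_nonneg (fun i _ =>
    mul_nonneg (hc.1 i) (sub_nonneg.2 (GG_le b hc hmax i)))).1 h1 i (Finset.mem_univ _)
  linarith

end Pool.Agent.FillVol
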