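import Pool.Agent.Work.MP_e09eef_gt.Area3
import Pool.Agent.Work.MP_e09eef_gt.Sant2

/-!
# The area inequality with the functional `MM`
-/

set_option autoImplicit false

open MeasureTheory Set Filter Topology
open scoped ENNReal NNReal

namespace Pool.Agent.FillVol

/-- Minkowski's inequality for a convex body and a zonogon -/
theorem mink2 {C : Set (ℝ × ℝ)} (hC : IsCompact C) (hv : Convex ℝ C) (hn : C.Nonempty)
    (l : List (ℝ × ℝ)) :
    4 * ((volume C).toReal * sp l) ≤ ((l.map fun a => wd C a).sum) ^ 2 := by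
  obtain ⟨h1, h2, h3, h4, h5⟩ := zs_props hC hv hn l
  obtain ⟨k1, k2, k3, k4, k5⟩ := zs_props (C := {0}) isCompact_singleton (convex_singleton 0)
    (singleton_nonempty 0) l
  have hbm := bm_plane hC k1 h1 hn k3 fun a ha b hb => zs_add l ha hb
  have z0 : (volume ({0} : Set (ℝ × ℝ))).toReal = 0 := by
    rw [measure_singleton]; rfl
  have w0 : ∀ a, wd ({0} : Set (ℝ × ℝ)) a = 0 := by
    intro a
    simp [wd]
  rw [z0] at k5
  simp only [w0, List.map_const', List.sum_replicate, smul_zero, add_zero, zero_add] at k5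
  have hsum0 : 0 ≤ (l.map fun a => wd C a).sum := by
    apply List.sum_nonneg
    intro x hx
    obtain ⟨b, _, rfl⟩ := List.mem_map.1 hx
    exact wd_nonneg hC hn _
  rw [k5] at hbm
  set V := (volume C).toReal
  set P := sp l
  have V0 : 0 ≤ V := ENNReal.toReal_nonneg
  have P0 : 0 ≤ P := sp_nonneg l
  have hsq : (√V + √P) ^ 2 ≤ (volume (zs C l)).toReal := by
    have h0 : (0 : ℝ) ≤ (volume (zs C l)).toReal := ENNReal.toReal_nonneg
    have := pow_le_pow_left₀ (add_nonneg (Real.sqrt_nonneg V) (Real.sqrt_nonneg P)) hbm 2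
    rwa [Real.sq_sqrt h0] at this
  rw [h5] at hsq
  have e1 := Real.sq_sqrt V0
  have e2 := Real.sq_sqrt P0
  have h6 : 2 * (√V * √P) ≤ (l.map fun a => wd C a).sum := by nlinarith
  have h7 : 0 ≤ 2 * (√V * √P) := by positivity
  calc 4 * (V * P) = (2 * (√V * √P)) ^ 2 := by
        rw [mul_pow, mul_pow, e1, e2]; ring
    _ ≤ _ := pow_le_pow_left₀ h7 h6 2

theorem loc2 {N : ℕ} {K : Set (ℝ × ℝ)} (hK : IsCompact K) (a : Fin N → ℝ × ℝ) (d : Fin N → ℝ)
    (h : ∀ x ∈ K, ∀ y ∈ K, ∀ i, |cr (a i) (x - y)| ≤ d i) :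
    4 * ((volume K).toReal * sp (List.ofFn a)) ≤ (∑ i, d i) ^ 2 := by
  rcases K.eq_empty_or_nonempty with rfl | hn
  · simp only [measure_empty, ENNReal.toReal_zero, zero_mul, mul_zero]
    positivity
  set D : Set (ℝ × ℝ) := (fun p : (ℝ × ℝ) × (ℝ × ℝ) => p.1 - p.2) '' (K ×ˢ K) with hD
  have hDc : IsCompact D := (hK.prod hK).image (by fun_prop)
  have hDn : D.Nonempty := (hn.prod hn).image _
  set C := closure (convexHull ℝ D) with hC
  have hCc : IsCompact C := (isBounded_convexHull.2 hDc.isBounded).isCompact_closure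
  have hCv : Convex ℝ C := (convex_convexHull ℝ D).closure
  have hDC : D ⊆ C := (subset_convexHull ℝ D).trans subset_closure
  have hCn : C.Nonempty := hDn.mono hDC
  have hneg : IsCompact (-K) := hK.neg
  have hvneg : volume (-K) = volume K := by
    exact Measure.measure_neg volume K
  have hbm := bm_plane hK hneg hDc hn (by simpa using hn) (by
    intro a ha b hb
    exact ⟨(a, -b), ⟨ha, hb⟩, by simp⟩)
  rw [hvneg] at hbm
  have h1 : 4 * (volume K).toReal ≤ (volume C).toReal := by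
    have e1 := Real.sq_sqrt (ENNReal.toReal_nonneg (a := volume K))
    have e2 := Real.sq_sqrt (ENNReal.toReal_nonneg (a := volume D))
    have p0 := Real.sqrt_nonneg (volume K).toReal
    have h2 : (√(volume K).toReal + √(volume K).toReal) ^ 2 ≤ (√(volume D).toReal) ^ 2 :=
      pow_le_pow_left₀ (by positivity) hbm 2
    have h3 : (volume D).toReal ≤ (volume C).toReal :=
      ENNReal.toReal_mono hCc.measure_lt_top.ne (measure_mono hDC)
    nlinarith
  have hw : ∀ i, wd C (a i) ≤ 2 * d i := by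
    intro i
    have hconv : Convex ℝ {x : ℝ × ℝ | |cr (a i) x| ≤ d i} := by
      intro x hx y hy s t hs ht hst
      have hx' : |cr (a i) x| ≤ d i := hx
      have hy' : |cr (a i) y| ≤ d i := hy
      show |cr (a i) (s • x + t • y)| ≤ d i
      rw [cr_add, cr_smul, cr_smul]
      refine (abs_add_le _ _).trans ?_
      rw [abs_mul, abs_mul, abs_of_nonneg hs, abs_of_nonneg ht]
      calc s * |cr (a i) x| + t * |cr (a i) y| ≤ s * d i + t * d i := by gcongr
        _ = d i := by rw [← add_mul, hst, one_mul]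
    have hsub : C ⊆ {x : ℝ × ℝ | |cr (a i) x| ≤ d i} := by
      refine closure_minimal (convexHull_min ?_ hconv)
        (isClosed_le (cr_continuous (a i)).abs continuous_const)
      rintro _ ⟨⟨x, y⟩, ⟨hx, hy⟩, rfl⟩
      exact h x hx y hy i
    have h1 : sSup (cr (a i) '' C) ≤ d i := by
      apply csSup_le (hCn.image _)
      rintro _ ⟨x, hx, rfl⟩
      exact (abs_le.1 (hsub hx)).2
    have h2 : -d i ≤ sInf (cr (a i) '' C) := by
      apply le_csInf (hCn.image _)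
      rintro _ ⟨x, hx, rfl⟩
      exact (abs_le.1 (hsub hx)).1
    rw [wd]
    linarith
  have hm := mink2 hCc hCv hCn (List.ofFn a)
  have hsp := sp_nonneg (List.ofFn a)
  have h4 : 4 * (volume K).toReal * sp (List.ofFn a) ≤ (volume C).toReal * sp (List.ofFn a) :=
    mul_le_mul_of_nonneg_right h1 hsp
  have hs : ((List.ofFn a).map fun a => wd C a).sum ≤ 2 * ∑ i, d i := by
    rw [List.map_ofFn, List.sum_ofFn, Finset.mul_sum]
    exact Finset.sum_le_sum fun i _ => hw i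
  have hs0 : 0 ≤ ((List.ofFn a).map fun a => wd C a).sum := by
    apply List.sum_nonneg
    intro x hx
    obtain ⟨b, _, rfl⟩ := List.mem_map.1 hx
    exact wd_nonneg hCc hCn _
  have h5 := pow_le_pow_left₀ hs0 hs 2
  nlinarith

theorem sp_smul {N : ℕ} (b : Fin N → ℝ × ℝ) {c : Fin N → ℝ} (hc : c ∈ stdSimplex ℝ (Fin N)) :
    sp (List.ofFn fun i => c i • b i) = FF b c := by
  have h := two_sp fun i => c i • b i
  have h2 : ∑ i, ∑ j, |cr (c i • b i) (c j • b j)| = ∑ i, ∑ j, c i * c j * |cr (b i) (b j)| := by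
    refine Finset.sum_congr rfl fun i _ => Finset.sum_congr rfl fun j _ => ?_
    rw [cr_smul]
    have e : cr (c i • b i) (b j) = c i * cr (b i) (b j) := by simp [cr]; ring
    rw [e, abs_mul, abs_mul, abs_of_nonneg (hc.1 i), abs_of_nonneg (hc.1 j)]
    ring
  rw [h2] at h
  rw [FF]
  linarith

theorem loc3 {N : ℕ} (hN : 0 < N) {K : Set (ℝ × ℝ)} (hK : IsCompact K) (b : Fin N → ℝ × ℝ)
    {d : ℝ} (h : ∀ x ∈ K, ∀ y ∈ K, ∀ i, |cr (b i) (x - y)| ≤ d) :
    4 * ((volume K).toReal * MM b) ≤ d ^ 2 := by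
  obtain ⟨c, hc, hcM, -⟩ := MM_exists hN b
  have h1 := loc2 hK (fun i => c i • b i) (fun i => c i * d) (by
    intro x hx y hy i
    have e : cr (c i • b i) (x - y) = c i * cr (b i) (x - y) := by simp [cr]; ring
    rw [e, abs_mul, abs_of_nonneg (hc.1 i)]
    exact mul_le_mul_of_nonneg_left (h x hx y hy i) (hc.1 i))
  rw [sp_smul b hc, hcM, ← Finset.sum_mul, hc.2, one_mul] at h1
  exact h1

theorem MM_le_SL {N : ℕ} (b : Fin N → ℝ × ℝ) : MM b ≤ ∑ i, ∑ j, |cr (b i) (b j)| := by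
  rcases Nat.eq_zero_or_pos N with rfl | hN
  · rw [MM]
    apply Real.sSup_le
    · rintro _ ⟨c, hc, rfl⟩
      simp [FF]
    · simp
  obtain ⟨c, hc, hcM, -⟩ := MM_exists hN b
  rw [← hcM, FF]
  have hle : ∀ i, c i ≤ 1 := by
    intro i
    rw [← hc.2]
    exact Finset.single_le_sum (fun j _ => hc.1 j) (Finset.mem_univ i)
  have h1 : ∑ i, ∑ j, c i * c j * |cr (b i) (b j)| ≤ ∑ i, ∑ j, |cr (b i) (b j)| := by
    refine Finset.sum_le_sum fun i _ => Finset.sum_le_sum fun j _ => ?_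
    have h2 : c i * c j ≤ 1 := mul_le_one₀ (hle i) (hc.1 j) (hle j)
    exact mul_le_of_le_one_left (abs_nonneg _) h2
  have h3 : 0 ≤ ∑ i, ∑ j, c i * c j * |cr (b i) (b j)| :=
    Finset.sum_nonneg fun i _ => Finset.sum_nonneg fun j _ =>
      mul_nonneg (mul_nonneg (hc.1 i) (hc.1 j)) (abs_nonneg _)
  linarith

/-- the functional of a linear map -/
noncomputable def MA {N : ℕ} (A : (ℝ × ℝ) →L[ℝ] (Fin N → ℝ)) : ℝ := MM (bvec A)

theorem MA_nonneg {N : ℕ} (A : (ℝ × ℝ) →L[ℝ] (Fin N → ℝ)) : 0 ≤ MA A := MM_nonneg _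

theorem MA_le_SL {N : ℕ} (A : (ℝ × ℝ) →L[ℝ] (Fin N → ℝ)) : MA A ≤ SL A := by
  rw [SL_eq, two_sp]
  exact MM_le_SL _

theorem MA_continuous {N : ℕ} : Continuous (MA (N := N)) := by
  unfold MA
  refine MM_cont.comp ?_
  have h : ∀ (v : ℝ × ℝ) (i : Fin N),
      Continuous fun A : (ℝ × ℝ) →L[ℝ] (Fin N → ℝ) => A v i := by
    intro v i
    exact (continuous_apply i).comp (ContinuousLinearMap.apply ℝ (Fin N → ℝ) v).continuous
  exact continuous_pi fun i => (h _ i).prodMk (h _ i).neg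

theorem MA_zero {N : ℕ} : MA (0 : (ℝ × ℝ) →L[ℝ] (Fin N → ℝ)) = 0 := by
  refine le_antisymm ?_ (MA_nonneg _)
  refine (MA_le_SL _).trans ?_
  simp [SL]

theorem inj_of_MA {N : ℕ} {A : (ℝ × ℝ) →L[ℝ] (Fin N → ℝ)} (h : 0 < MA A) :
    LinearMap.ker (A : (ℝ × ℝ) →ₗ[ℝ] (Fin N → ℝ)) = ⊥ :=
  inj_of_SL (h.trans_le (MA_le_SL A))

theorem loc_map2 {N : ℕ} (hN : 0 < N) {A : (ℝ × ℝ) →L[ℝ] (Fin N → ℝ)} {G : ℝ × ℝ → Fin N → ℝ}
    {T : Set (ℝ × ℝ)} (hb : Bornology.IsBounded T) {r : ℝ≥0} {ε d : ℝ} (hε : ε < 1)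
    (hA : ∀ v, r * ‖v‖ ≤ ε * ‖A v‖) (hG : ApproximatesLinearOn G A T r) (hd : 0 ≤ d)
    (hT : ∀ x ∈ T, ∀ y ∈ T, ‖G x - G y‖ ≤ d) :
    4 * MA A * (1 - ε) ^ 2 * (volume T).toReal ≤ d ^ 2 := by
  have hε1 : 0 < 1 - ε := by linarith
  have hK : IsCompact (closure T) := hb.isCompact_closure
  have key : ∀ x ∈ T, ∀ y ∈ T, ‖A (x - y)‖ ≤ d / (1 - ε) := by
    intro x hx y hy
    have h1 := hG x hx y hy
    have h2 := hA (x - y)
    have h3 : ‖A (x - y)‖ ≤ ‖G x - G y‖ + ‖G x - G y - A (x - y)‖ := by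
      have := norm_sub_le (G x - G y) (G x - G y - A (x - y))
      simpa using this
    have h4 := hT x hx y hy
    rw [le_div_iff₀ hε1]
    nlinarith
  have key2 : ∀ x ∈ closure T, ∀ y ∈ closure T, ∀ i : Fin N,
      |cr (bvec A i) (x - y)| ≤ d / (1 - ε) := by
    intro x hx y hy i
    have hcl : IsClosed {p : (ℝ × ℝ) × (ℝ × ℝ) | |cr (bvec A i) (p.1 - p.2)| ≤ d / (1 - ε)} :=
      isClosed_le (((cr_continuous _).comp (continuous_fst.sub continuous_snd)).abs)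
        continuous_const
    have hsub : T ×ˢ T ⊆ {p : (ℝ × ℝ) × (ℝ × ℝ) | |cr (bvec A i) (p.1 - p.2)| ≤ d / (1 - ε)} := by
      rintro ⟨u, v⟩ ⟨hu, hv⟩
      show |cr (bvec A i) (u - v)| ≤ d / (1 - ε)
      rw [cr_bvec]
      exact (norm_le_pi_norm (A (u - v)) i).trans (key u hu v hv)
    have := closure_minimal hsub hcl
    rw [closure_prod_eq] at this
    exact this (mk_mem_prod hx hy)
  have hl := loc3 hN hK (bvec A) key2
  have hm : (volume T).toReal ≤ (volume (closure T)).toReal :=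
    ENNReal.toReal_mono hK.measure_lt_top.ne (measure_mono subset_closure)
  have hSL := MA_nonneg A
  rw [div_pow, le_div_iff₀ (pow_pos hε1 2)] at hl
  calc 4 * MA A * (1 - ε) ^ 2 * (volume T).toReal
      ≤ 4 * MA A * (1 - ε) ^ 2 * (volume (closure T)).toReal := by gcongr
    _ = 4 * ((volume (closure T)).toReal * MM (bvec A)) * (1 - ε) ^ 2 := by rw [MA]; ring
    _ ≤ _ := hl

/-- lower bound of the square-gauge measure of the image of an almost linear piece -/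
theorem mk_lower2 {E : Type*} [EMetricSpace E] {N : ℕ} (hN : 0 < N)
    {A : (ℝ × ℝ) →L[ℝ] (Fin N → ℝ)} {G : ℝ × ℝ → Fin N → ℝ} {F : ℝ × ℝ → E}
    {T : Set (ℝ × ℝ)} (hb : Bornology.IsBounded T) {r : ℝ≥0} {ε : ℝ} (hε : ε < 1)
    (hA : ∀ v, r * ‖v‖ ≤ ε * ‖A v‖) (hG : ApproximatesLinearOn G A T r)
    (hFG : ∀ x ∈ T, ∀ y ∈ T, edist (G x) (G y) ≤ edist (F x) (F y)) :
    ENNReal.ofReal (4 * MA A * (1 - ε) ^ 2) * volume T ≤
      (OuterMeasure.mkMetric (fun r : ℝ≥0∞ => r ^ (2 : ℝ)) : OuterMeasure E) (F '' T) := by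
  set κ : ℝ := 4 * MA A * (1 - ε) ^ 2 with hκ
  have hκ0 : 0 ≤ κ := by
    have := MA_nonneg A
    positivity
  set μ : OuterMeasure E :=
    ENNReal.ofReal κ • OuterMeasure.map F (OuterMeasure.restrict T volume.toOuterMeasure) with hμ
  have hμa : ∀ s, μ s = ENNReal.ofReal κ * volume (F ⁻¹' s ∩ T) := by
    intro s
    rw [hμ, FunLike.coe_smul, Pi.smul_apply, smul_eq_mul, OuterMeasure.map_apply,
      OuterMeasure.restrict_apply]
    rfl
  have hle : μ ≤ OuterMeasure.mkMetric (fun r : ℝ≥0∞ => r ^ (2 : ℝ)) := by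
    refine OuterMeasure.le_mkMetric _ μ 1 one_pos fun s hs => ?_
    have hfin : Metric.ediam s ≠ ⊤ := ne_top_of_le_ne_top ENNReal.one_ne_top hs
    rw [hμa]
    have hT' : ∀ x ∈ F ⁻¹' s ∩ T, ∀ y ∈ F ⁻¹' s ∩ T, ‖G x - G y‖ ≤ (Metric.ediam s).toReal := by
      rintro x ⟨hx, hxT⟩ y ⟨hy, hyT⟩
      have h1 := (hFG x hxT y hyT).trans (Metric.edist_le_ediam_of_mem hx hy)
      rw [edist_dist] at h1
      have h2 := ENNReal.toReal_mono hfin h1
      rwa [ENNReal.toReal_ofReal dist_nonneg, dist_eq_norm] at h2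
    have hl := loc_map2 hN (hb.subset (inter_subset_right : F ⁻¹' s ∩ T ⊆ T)) hε hA
      (hG.mono_set inter_subset_right) ENNReal.toReal_nonneg hT'
    have hvf : volume (F ⁻¹' s ∩ T) ≠ ⊤ :=
      (hb.subset (inter_subset_right : F ⁻¹' s ∩ T ⊆ T)).measure_lt_top.ne
    have h3 : κ * (volume (F ⁻¹' s ∩ T)).toReal ≤ (Metric.ediam s).toReal ^ 2 := by
      rw [hκ]
      exact hl
    have h4 := ENNReal.ofReal_le_ofReal h3
    rw [ENNReal.ofReal_mul hκ0, ENNReal.ofReal_toReal hvf,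
      ENNReal.ofReal_pow ENNReal.toReal_nonneg, ENNReal.ofReal_toReal hfin] at h4
    rw [show (2 : ℝ) = ((2 : ℕ) : ℝ) by norm_num, ENNReal.rpow_natCast]
    exact h4
  have h := hle (F '' T)
  rw [hμa] at h
  have e : F ⁻¹' (F '' T) ∩ T = T := by
    ext x
    exact ⟨fun hx => hx.2, fun hx => ⟨⟨x, hx, rfl⟩, hx⟩⟩
  rwa [e] at h

theorem exists_r2 {N : ℕ} {ε : ℝ} (hε : 0 < ε) (A : (ℝ × ℝ) →L[ℝ] (Fin N → ℝ)) :
    ∃ ρ : ℝ≥0, ρ ≠ 0 ∧ (∀ B, ‖B - A‖ ≤ ρ → MA B ≤ MA A + ε) ∧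
      (0 < MA A → ∀ v, ρ * ‖v‖ ≤ ε * ‖A v‖) := by
  obtain ⟨δ, hδ, hδ'⟩ := Metric.continuous_iff.1 (MA_continuous (N := N)) A ε hε
  have h1 : ∀ ρ : ℝ≥0, (ρ : ℝ) < δ → ∀ B, ‖B - A‖ ≤ ρ → MA B ≤ MA A + ε := by
    intro ρ hρ B hB
    have := hδ' B (by rw [dist_eq_norm]; exact hB.trans_lt hρ)
    rw [Real.dist_eq] at this
    have := (abs_lt.1 this).2
    linarith
  by_cases hA : 0 < MA A
  · obtain ⟨K, hK, hKA⟩ := LinearMap.exists_antilipschitzWith
      (A : (ℝ × ℝ) →ₗ[ℝ] (Fin N → ℝ)) (inj_of_MA hA)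
    have hK' : (0 : ℝ) < K := hK
    refine ⟨⟨min (δ / 2) (ε / K), by positivity⟩, ?_, h1 _ ?_, ?_⟩
    · intro h0
      have : min (δ / 2) (ε / K) = 0 := congrArg NNReal.toReal h0
      have h2 : 0 < min (δ / 2) (ε / K) := by positivity
      linarith
    · show min (δ / 2) (ε / K) < δ
      exact (min_le_left _ _).trans_lt (by linarith)
    · intro _ v
      show min (δ / 2) (ε / K) * ‖v‖ ≤ ε * ‖A v‖
      have h2 := hKA.le_mul_dist v 0
      simp only [dist_zero_right, map_zero] at h2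
      have h3 : ‖v‖ ≤ K * ‖A v‖ := h2
      calc min (δ / 2) (ε / K) * ‖v‖ ≤ ε / K * ‖v‖ := by gcongr; exact min_le_right _ _
        _ ≤ ε / K * (K * ‖A v‖) := by gcongr
        _ = ε * ‖A v‖ := by field_simp
  · refine ⟨⟨δ / 2, by positivity⟩, ?_, h1 _ ?_, fun h => absurd h hA⟩
    · intro h0
      have : δ / 2 = 0 := congrArg NNReal.toReal h0
      linarith
    · show δ / 2 < δ
      linarith

theorem area_lower_eps2 {E : Type*} [EMetricSpace E] {N : ℕ} (hN : 0 < N)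
    (F : ℝ × ℝ → E) {U : Set (ℝ × ℝ)} (hU : MeasurableSet U) (hUb : Bornology.IsBounded U)
    (hF : ContinuousOn F U) (G : ℝ × ℝ → Fin N → ℝ)
    (hFG : ∀ x ∈ U, ∀ y ∈ U, edist (G x) (G y) ≤ edist (F x) (F y)) {ε : ℝ} (hε : 0 < ε)
    (hε1 : ε < 1) :
    ∫⁻ x in U, ENNReal.ofReal (MA (fderiv ℝ G x)) ≤
      ENNReal.ofReal (1 / (4 * (1 - ε) ^ 2)) *
        ∑' k : ℕ, HH E {y | ((k + 1 : ℕ) : ℕ∞) ≤ Set.encard {x | x ∈ U ∧ F x = y}} +
      ENNReal.ofReal ε * volume U := by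
  have hN' : (0 : ℝ) < N := by exact_mod_cast hN
  have h1ε : 0 < 1 - ε := by linarith
  set R := ∑' k : ℕ, HH E {y | ((k + 1 : ℕ) : ℕ∞) ≤ Set.encard {x | x ∈ U ∧ F x = y}} with hR
  choose r r0 rS rA using exists_r2 (N := N) hε
  set s : Set (ℝ × ℝ) := {x | x ∈ U ∧ DifferentiableAt ℝ G x ∧ 0 < MA (fderiv ℝ G x)} with hs
  have hMAm : Measurable fun x => MA (fderiv ℝ G x) :=
    MA_continuous.measurable.comp (measurable_fderiv ℝ G)
  have hsm : MeasurableSet s :=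
    hU.inter ((measurableSet_of_differentiableAt ℝ G).inter
      (measurableSet_lt measurable_const hMAm))
  have hsU : s ⊆ U := fun x hx => hx.1
  have hoff : ∀ x ∈ U, x ∉ s → MA (fderiv ℝ G x) = 0 := by
    intro x hx hxs
    by_cases hd : DifferentiableAt ℝ G x
    · have : ¬ 0 < MA (fderiv ℝ G x) := fun h => hxs ⟨hx, hd, h⟩
      exact le_antisymm (not_lt.1 this) (MA_nonneg _)
    · rw [fderiv_zero_of_not_differentiableAt hd]
      exact MA_zero
  have hI : ∫⁻ x in U, ENNReal.ofReal (MA (fderiv ℝ G x)) =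
      ∫⁻ x in s, ENNReal.ofReal (MA (fderiv ℝ G x)) := by
    rw [← lintegral_indicator hU, ← lintegral_indicator hsm]
    refine lintegral_congr fun x => ?_
    by_cases hx : x ∈ s
    · rw [indicator_of_mem hx, indicator_of_mem (hsU hx)]
    · rw [indicator_of_notMem hx]
      by_cases hxU : x ∈ U
      · rw [indicator_of_mem hxU, hoff x hxU hx, ENNReal.ofReal_zero]
      · rw [indicator_of_notMem hxU]
  rw [hI]
  rcases s.eq_empty_or_nonempty with hse | hsne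
  · rw [hse]; simp
  obtain ⟨t, A, tdisj, tmeas, scov, tapp, tA⟩ :=
    exists_partition_approximatesLinearOn_of_hasFDerivWithinAt G s (fderiv ℝ G)
      (fun x hx => hx.2.1.hasFDerivAt.hasFDerivWithinAt) r r0
  have hApos : ∀ n, 0 < MA (A n) := by
    intro n
    obtain ⟨y, hy, hAy⟩ := tA hsne n
    rw [hAy]
    exact hy.2.2
  set P : ℕ → Set (ℝ × ℝ) := fun n => s ∩ t n with hP
  have hPm : ∀ n, MeasurableSet (P n) := fun n => hsm.inter (tmeas n)
  have hPd : Pairwise (Function.onFun Disjoint P) := fun m n hmn =>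
    (tdisj hmn).mono inter_subset_right inter_subset_right
  have hPs : s = ⋃ n, P n := by
    rw [hP, ← inter_iUnion]
    exact (inter_eq_left.2 scov).symm
  have hPU : ∀ n, P n ⊆ U := fun n => inter_subset_left.trans hsU
  -- derivative estimate
  have hder : ∀ n, ∫⁻ x in P n, ENNReal.ofReal (MA (fderiv ℝ G x)) ≤
      (ENNReal.ofReal (MA (A n)) + ENNReal.ofReal ε) * volume (P n) := by
    intro n
    have hae := fderiv_close volume (tapp n) (hPm n) (fderiv ℝ G)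
      (fun x hx => hx.1.2.1.hasFDerivAt.hasFDerivWithinAt)
    calc ∫⁻ x in P n, ENNReal.ofReal (MA (fderiv ℝ G x))
        ≤ ∫⁻ x in P n, (ENNReal.ofReal (MA (A n)) + ENNReal.ofReal ε) := by
          refine lintegral_mono_ae ?_
          filter_upwards [hae] with x hx
          rw [← ENNReal.ofReal_add (MA_nonneg _) hε.le]
          exact ENNReal.ofReal_le_ofReal (rS (A n) _ hx)
      _ = _ := by rw [setLIntegral_const]
  set κ : ℕ → ℝ≥0∞ := fun n => ENNReal.ofReal (4 * MA (A n) * (1 - ε) ^ 2) with hκ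
  have hcomp : ∀ K : ℕ → Set (ℝ × ℝ), (∀ n, K n ⊆ P n) → (∀ n, IsCompact (K n)) → ∀ M,
      ∑ n ∈ Finset.range M, κ n * volume (K n) ≤ R := by
    intro K hKP hKc M
    refine le_trans (Finset.sum_le_sum fun n _ => ?_)
      (mult F U hF M K hKc (fun n => (hKP n).trans (hPU n))
        fun m n hmn => (hPd hmn).mono (hKP m) (hKP n))
    exact mk_lower2 hN (hKc n).isBounded hε1 (rA (A n) (hApos n)) ((tapp n).mono_set (hKP n))
      fun x hx y hy => hFG x (hPU n (hKP n hx)) y (hPU n (hKP n hy))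
  have hvP : ∀ n, volume (P n) ≠ ⊤ := fun n => (hUb.subset (hPU n)).measure_lt_top.ne
  have hsum : ∑' n, κ n * volume (P n) ≤ R := by
    refine ENNReal.tsum_le_of_sum_range_le fun M => ?_
    refine ENNReal.le_of_forall_pos_le_add fun η hη _ => ?_
    set C := ∑ n ∈ Finset.range M, κ n with hC
    have hCt : C ≠ ⊤ := by
      rw [hC, ENNReal.sum_ne_top]
      exact fun n _ => ENNReal.ofReal_ne_top
    have hη' : (η : ℝ≥0∞) / (C + 1) ≠ 0 := by
      rw [ne_eq, ENNReal.div_eq_zero_iff, not_or]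
      exact ⟨by exact_mod_cast hη.ne', ENNReal.add_ne_top.2 ⟨hCt, ENNReal.one_ne_top⟩⟩
    have hex : ∀ n, ∃ K ⊆ P n, IsCompact K ∧ volume (P n) < volume K + (η : ℝ≥0∞) / (C + 1) :=
      fun n => (hPm n).exists_isCompact_lt_add (hvP n) hη'
    choose K hKP hKc hKv using hex
    calc ∑ n ∈ Finset.range M, κ n * volume (P n)
        ≤ ∑ n ∈ Finset.range M, (κ n * volume (K n) + κ n * ((η : ℝ≥0∞) / (C + 1))) := by
          refine Finset.sum_le_sum fun n _ => ?_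
          rw [← mul_add]
          gcongr
          exact (hKv n).le
      _ = ∑ n ∈ Finset.range M, κ n * volume (K n) + C * ((η : ℝ≥0∞) / (C + 1)) := by
          rw [Finset.sum_add_distrib, ← Finset.sum_mul]
      _ ≤ R + η := by
          gcongr
          · exact hcomp K hKP hKc M
          · rw [← mul_div_assoc]
            refine ENNReal.div_le_of_le_mul ?_
            rw [mul_comm]
            gcongr
            exact le_self_add
  have hrel : ∀ n, ENNReal.ofReal (MA (A n)) =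
      ENNReal.ofReal (1 / (4 * (1 - ε) ^ 2)) * κ n := by
    intro n
    rw [hκ]
    simp only
    rw [← ENNReal.ofReal_mul (by positivity)]
    congr 1
    field_simp
  calc ∫⁻ x in s, ENNReal.ofReal (MA (fderiv ℝ G x))
      = ∑' n, ∫⁻ x in P n, ENNReal.ofReal (MA (fderiv ℝ G x)) := by
        conv_lhs => rw [hPs]
        exact lintegral_iUnion hPm hPd _
    _ ≤ ∑' n, (ENNReal.ofReal (1 / (4 * (1 - ε) ^ 2)) * (κ n * volume (P n)) +
          ENNReal.ofReal ε * volume (P n)) := by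
        refine ENNReal.tsum_le_tsum fun n => ?_
        refine (hder n).trans (le_of_eq ?_)
        rw [add_mul, hrel n, mul_assoc]
    _ = ENNReal.ofReal (1 / (4 * (1 - ε) ^ 2)) * ∑' n, (κ n * volume (P n)) +
          ENNReal.ofReal ε * ∑' n, volume (P n) := by
        rw [ENNReal.tsum_add, ENNReal.tsum_mul_left, ENNReal.tsum_mul_left]
    _ ≤ _ := by
        gcongr
        rw [← measure_iUnion hPd hPm, ← hPs]
        exact measure_mono hsU

/-- **Area inequality.** -/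
theorem area_lower_M' {E : Type*} [EMetricSpace E] {N : ℕ} (hN : 0 < N)
    (F : ℝ × ℝ → E) {U : Set (ℝ × ℝ)} (hU : MeasurableSet U) (hUb : Bornology.IsBounded U)
    (hF : ContinuousOn F U) (G : ℝ × ℝ → Fin N → ℝ)
    (hFG : ∀ x ∈ U, ∀ y ∈ U, edist (G x) (G y) ≤ edist (F x) (F y)) :
    ∫⁻ x in U, ENNReal.ofReal (MA (fderiv ℝ G x)) ≤
      ENNReal.ofReal (1 / 4) *
        ∑' k : ℕ, HH E {y | ((k + 1 : ℕ) : ℕ∞) ≤ Set.encard {x | x ∈ U ∧ F x = y}} := by
  have hN' : (0 : ℝ) < N := by exact_mod_cast hN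
  set R := ∑' k : ℕ, HH E {y | ((k + 1 : ℕ) : ℕ∞) ≤ Set.encard {x | x ∈ U ∧ F x = y}} with hR
  have hlim : Tendsto (fun ε : ℝ => ENNReal.ofReal (1 / (4 * (1 - ε) ^ 2)) * R +
      ENNReal.ofReal ε * volume U) (𝓝[>] 0)
      (𝓝 (ENNReal.ofReal (1 / 4) * R + ENNReal.ofReal 0 * volume U)) := by
    have hc : ContinuousAt (fun ε : ℝ => (1 : ℝ) / (4 * (1 - ε) ^ 2)) 0 := by
      apply ContinuousAt.div (by fun_prop) (by fun_prop)
      norm_num
    have h1 : Tendsto (fun ε : ℝ => ENNReal.ofReal ((1 : ℝ) / (4 * (1 - ε) ^ 2))) (𝓝[>] 0)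
        (𝓝 (ENNReal.ofReal ((1 : ℝ) / 4))) := by
      have := (ENNReal.tendsto_ofReal hc.tendsto).mono_left
        (nhdsWithin_le_nhds (s := Ioi (0 : ℝ)))
      simpa using this
    have h2 : Tendsto (fun ε : ℝ => ENNReal.ofReal ε) (𝓝[>] 0) (𝓝 (ENNReal.ofReal 0)) :=
      (ENNReal.tendsto_ofReal tendsto_id).mono_left nhdsWithin_le_nhds
    refine Tendsto.add (ENNReal.Tendsto.mul_const h1 (Or.inl ?_))
      (ENNReal.Tendsto.mul_const h2 (Or.inr hUb.measure_lt_top.ne))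
    rw [ne_eq, ENNReal.ofReal_eq_zero, not_le]
    positivity
  rw [ENNReal.ofReal_zero, zero_mul, add_zero] at hlim
  refine ge_of_tendsto hlim ?_
  have hmem : Ioo (0 : ℝ) 1 ∈ 𝓝[>] (0 : ℝ) := Ioo_mem_nhdsGT one_pos
  filter_upwards [hmem] with ε hε
  exact area_lower_eps2 hN F hU hUb hF G hFG hε.1 hε.2

theorem area_lower_M {E : Type*} [EMetricSpace E] {N : ℕ} (hN : 0 < N)
    (F : ℝ × ℝ → E) {U : Set (ℝ × ℝ)} (hU : MeasurableSet U) (hUb : Bornology.IsBounded U)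
    (hF : ContinuousOn F U) (G : ℝ × ℝ → Fin N → ℝ)
    (hFG : ∀ x ∈ U, ∀ y ∈ U, edist (G x) (G y) ≤ edist (F x) (F y)) :
    ∫⁻ x in U, ENNReal.ofReal (MM (bvec (fderiv ℝ G x))) ≤
      ENNReal.ofReal (1 / 4) *
        ∑' k : ℕ, HH E {y | ((k + 1 : ℕ) : ℕ∞) ≤ Set.encard {x | x ∈ U ∧ F x = y}} :=
  area_lower_M' hN F hU hUb hF G hFG

end Pool.Agent.FillVol
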