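import Pool.Agent.Work.MP_e09eef_gt.Arc3
import Pool.Agent.Work.MP_e09eef_gt.AreaM

/-!
# Lower bound for arc ordered fillings
-/

set_option autoImplicit false

open MeasureTheory Set Filter Topology
open scoped ENNReal NNReal

namespace Pool.Agent.FillVol

/-- the area inequality for a simplex and a 1-Lipschitz self-map `Θ` -/
theorem MM_le_RR {N : ℕ} (hN : 0 < N) {σ : (Fin 3 → ℝ) → EE}
    (hσ : ∃ K, LipschitzOnWith K σ (stdSimplex ℝ (Fin 3))) {Θ : EE → EE}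
    (hΘ : LipschitzWith 1 Θ) {G : ℝ × ℝ → Fin N → ℝ}
    (hG : ∀ x ∈ SqC, ∀ i : Fin N, G x i = (Θ ∘ σ) (chi x) (pp N i)) :
    ∫⁻ x in SqO, ENNReal.ofReal (MM (bvec (fderiv ℝ G x))) ≤
      ENNReal.ofReal (1 / 4) * RR σ := by
  obtain ⟨K, hK⟩ := hσ
  have hcont : ContinuousOn (σ ∘ chi) SqO :=
    (hK.comp chi_lip fun x hx => chi_mem hx).continuousOn.mono SqO_sub
  have hb : Bornology.IsBounded SqO :=
    ((Metric.isBounded_Icc (0 : ℝ) 1).prod (Metric.isBounded_Icc (0 : ℝ) 1)).subset SqO_sub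
  have h := area_lower_M (E := EE) hN (σ ∘ chi) (U := SqO)
    (measurableSet_Ioc.prod measurableSet_Ioc) hb hcont G (by
      intro x hx y hy
      rw [edist_dist, edist_dist]
      refine ENNReal.ofReal_le_ofReal ?_
      rw [dist_pi_le_iff dist_nonneg]
      intro i
      rw [hG x (SqO_sub hx), hG y (SqO_sub hy), Real.dist_eq]
      refine (ev_lip _ _ _).trans ?_
      have := hΘ.dist_le_mul (σ (chi x)) (σ (chi y))
      simpa using this)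
  refine h.trans ?_
  gcongr
  refine ENNReal.tsum_le_tsum fun k => ?_
  refine (HH EE).mono ?_
  intro y hy
  have hy' : ((k + 1 : ℕ) : ℕ∞) ≤ Set.encard {x | x ∈ SqO ∧ (σ ∘ chi) x = y} := hy
  show ((k + 1 : ℕ) : ℕ∞) ≤ Set.encard {z | z ∈ stdSimplex ℝ (Fin 3) ∧ σ z = y}
  refine hy'.trans ?_
  have h1 : InjOn chi {x | x ∈ SqO ∧ (σ ∘ chi) x = y} := chi_inj.mono fun x hx => hx.1
  rw [← h1.encard_image]
  refine encard_le_encard ?_
  rintro _ ⟨x, ⟨hx, hxy⟩, rfl⟩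
  exact ⟨chi_mem (SqO_sub hx), hxy⟩

theorem arc_N {f : AddCircle (2 * Real.pi) → EE}
    (hf : ∀ (m x : AddCircle (2 * Real.pi)), (f m) x = dist m x) {N' : ℕ} (hN : 0 < N')
    (c : ((Fin 3 → ℝ) → EE) →₀ ℤ)
    (hσ : ∀ σ ∈ c.support, ∃ K, LipschitzOnWith K σ (stdSimplex ℝ (Fin 3)))
    (hc : bd c = fc f) {Θ : EE → EE} (hΘ : LipschitzWith 1 Θ) (hΘf : ∀ m, Θ (f m) = f m)
    (hord : ∀ σ ∈ c.support, ∀ s t : ℝ, 0 ≤ s → s < t → t < Real.pi →
      ∀ᵐ x ∂(volume.restrict Tri), 0 ≤ (c σ : ℝ) * jac (fun x : ℝ × ℝ =>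
        (Θ (σ (tri x)) (s : AddCircle (2 * Real.pi)),
          Θ (σ (tri x)) (t : AddCircle (2 * Real.pi)))) x) :
    ENNReal.ofReal (2 * Real.pi * (1 - 1 / ((3 * N' : ℕ) : ℝ))) ≤
      ∑ σ ∈ c.support, ((c σ).natAbs : ℝ≥0∞) * (ENNReal.ofReal (Real.pi / 4) * RR σ) := by
  have hN0 : 0 < 3 * N' := by positivity
  have hN2 : 2 ≤ 3 * N' := by omega
  have hN' : (0 : ℝ) < ((3 * N' : ℕ) : ℝ) := by exact_mod_cast hN0
  have hlipΘ : ∀ σ ∈ c.support, ∃ K, LipschitzOnWith K (Θ ∘ σ) (stdSimplex ℝ (Fin 3)) := by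
    intro σ h
    obtain ⟨K, hK⟩ := hσ σ h
    exact ⟨1 * K, hΘ.comp_lipschitzOnWith hK⟩
  have hex : ∀ τ : (Fin 3 → ℝ) → EE, ∃ (G : ℝ × ℝ → Fin (3 * N') → ℝ) (K : ℝ≥0),
      (∃ K', LipschitzOnWith K' τ (stdSimplex ℝ (Fin 3))) → LipschitzWith K G ∧
      ∀ x ∈ SqC, ∀ i : Fin (3 * N'), G x i = τ (chi x) (pp (3 * N') i) := by
    intro τ
    by_cases h : ∃ K', LipschitzOnWith K' τ (stdSimplex ℝ (Fin 3))
    · obtain ⟨G, K, h1, h2⟩ := exists_G (3 * N') h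
      exact ⟨G, K, fun _ => ⟨h1, h2⟩⟩
    · exact ⟨fun _ _ => 0, 0, fun h' => absurd h' h⟩
  choose G K hGK using hex
  have hK : ∀ σ ∈ c.support, LipschitzWith (K (Θ ∘ σ)) (G (Θ ∘ σ)) := fun σ h =>
    (hGK _ (hlipΘ σ h)).1
  have hG : ∀ σ ∈ c.support, ∀ x ∈ SqC, ∀ i : Fin (3 * N'),
      G (Θ ∘ σ) x i = (Θ ∘ σ) (chi x) (pp (3 * N') i) := fun σ h => (hGK _ (hlipΘ σ h)).2
  have hkey := key_bound hN2 c.support (fun σ => c σ) (fun σ => G (Θ ∘ σ)) (fun σ => K (Θ ∘ σ))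
    hK (fun i j hij => pair_push hf hN c hc hΘf G K hK hG hij) (by
      intro σ h i j hij
      have hi : ((i : ℕ) : ℝ) < j := by exact_mod_cast hij
      have hj : ((j : ℕ) : ℝ) < ((3 * N' : ℕ) : ℝ) := by exact_mod_cast j.2
      have hi0 : (0 : ℝ) ≤ ((i : ℕ) : ℝ) := Nat.cast_nonneg _
      have hπ := Real.pi_pos
      have hq : 0 < Real.pi / ((3 * N' : ℕ) : ℝ) := by positivity
      have h1 := hord σ h ((i : ℝ) * (Real.pi / ((3 * N' : ℕ) : ℝ)))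
        ((j : ℝ) * (Real.pi / ((3 * N' : ℕ) : ℝ))) (by positivity)
        (mul_lt_mul_of_pos_right hi hq) (by
          calc (j : ℝ) * (Real.pi / ((3 * N' : ℕ) : ℝ))
              < ((3 * N' : ℕ) : ℝ) * (Real.pi / ((3 * N' : ℕ) : ℝ)) :=
                mul_lt_mul_of_pos_right hj hq
            _ = Real.pi := by field_simp)
      exact sign_transfer (H := fun z => ((Θ ∘ σ) z (pp (3 * N') i), (Θ ∘ σ) z (pp (3 * N') j)))
        (pair_lip (hK σ h) i j) (by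
          intro x hx
          rw [hG σ h x hx i, hG σ h x hx j]) h1)
  have hRR : ∑ σ ∈ c.support, ((c σ).natAbs : ℝ≥0∞) * (ENNReal.ofReal (Real.pi ^ 2) *
        ∫⁻ x in SqO, ENNReal.ofReal (MM (bvec (fderiv ℝ (G (Θ ∘ σ)) x)))) ≤
      ENNReal.ofReal (Real.pi ^ 2 / 4) * ∑ σ ∈ c.support, ((c σ).natAbs : ℝ≥0∞) * RR σ := by
    rw [Finset.mul_sum]
    refine Finset.sum_le_sum fun σ h => ?_
    calc ((c σ).natAbs : ℝ≥0∞) * (ENNReal.ofReal (Real.pi ^ 2) *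
          ∫⁻ x in SqO, ENNReal.ofReal (MM (bvec (fderiv ℝ (G (Θ ∘ σ)) x))))
        ≤ ((c σ).natAbs : ℝ≥0∞) * (ENNReal.ofReal (Real.pi ^ 2) *
          (ENNReal.ofReal (1 / 4) * RR σ)) := by
          gcongr
          exact MM_le_RR hN0 (hσ σ h) hΘ (hG σ h)
      _ = (ENNReal.ofReal (Real.pi ^ 2) * ENNReal.ofReal (1 / 4)) *
            (((c σ).natAbs : ℝ≥0∞) * RR σ) := by ring
      _ = _ := by
          rw [← ENNReal.ofReal_mul (by positivity)]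
          congr 2
          ring
  have hfin := hkey.trans hRR
  have hπ := Real.pi_pos
  calc ENNReal.ofReal (2 * Real.pi * (1 - 1 / ((3 * N' : ℕ) : ℝ)))
      = ENNReal.ofReal (1 / Real.pi) *
          ENNReal.ofReal (2 * Real.pi ^ 2 * (1 - 1 / ((3 * N' : ℕ) : ℝ))) := by
        rw [← ENNReal.ofReal_mul (by positivity)]
        congr 1
        field_simp
    _ ≤ ENNReal.ofReal (1 / Real.pi) * (ENNReal.ofReal (Real.pi ^ 2 / 4) *
          ∑ σ ∈ c.support, ((c σ).natAbs : ℝ≥0∞) * RR σ) := by gcongr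
    _ = ENNReal.ofReal (Real.pi / 4) * ∑ σ ∈ c.support, ((c σ).natAbs : ℝ≥0∞) * RR σ := by
        rw [← mul_assoc, ← ENNReal.ofReal_mul (by positivity)]
        congr 2
        field_simp
    _ = _ := by
        rw [Finset.mul_sum]
        exact Finset.sum_congr rfl fun σ _ => by ring

theorem arc_bound {f : AddCircle (2 * Real.pi) → EE}
    (hf : ∀ (m x : AddCircle (2 * Real.pi)), (f m) x = dist m x)
    (c : ((Fin 3 → ℝ) → EE) →₀ ℤ)
    (hσ : ∀ σ ∈ c.support, ∃ K, LipschitzOnWith K σ (stdSimplex ℝ (Fin 3)))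
    (hc : bd c = fc f) {Θ : EE → EE} (hΘ : LipschitzWith 1 Θ) (hΘf : ∀ m, Θ (f m) = f m)
    (hord : ∀ σ ∈ c.support, ∀ s t : ℝ, 0 ≤ s → s < t → t < Real.pi →
      ∀ᵐ x ∂(volume.restrict Tri), 0 ≤ (c σ : ℝ) * jac (fun x : ℝ × ℝ =>
        (Θ (σ (tri x)) (s : AddCircle (2 * Real.pi)),
          Θ (σ (tri x)) (t : AddCircle (2 * Real.pi)))) x) :
    ENNReal.ofReal (2 * Real.pi) ≤
      ∑ σ ∈ c.support, ((c σ).natAbs : ℝ≥0∞) * (ENNReal.ofReal (Real.pi / 4) * RR σ) := by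
  have h1 : Tendsto (fun n : ℕ => 2 * Real.pi * (1 - 1 / ((3 * (n + 1) : ℕ) : ℝ))) atTop
      (𝓝 (2 * Real.pi * (1 - 0))) := by
    refine Tendsto.const_mul _ (Tendsto.const_sub _ ?_)
    have h2 : Tendsto (fun n : ℕ => ((3 * (n + 1) : ℕ) : ℝ)) atTop atTop :=
      tendsto_natCast_atTop_atTop.comp ((tendsto_add_atTop_nat 1).const_mul_atTop' (by norm_num))
    simpa [Function.comp_def] using tendsto_inv_atTop_zero.comp h2
  rw [sub_zero, mul_one] at h1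
  refine le_of_tendsto' (ENNReal.tendsto_ofReal h1) fun n => ?_
  exact arc_N hf (Nat.succ_pos n) c hσ hc hΘ hΘf hord

end Pool.Agent.FillVol
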