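import Pool.Agent.Work.MP_e09eef_gt.Zono
import Pool.Agent.Work.MP_e09eef_gt.FderivClose

/-!
# Local lower bound for the square-gauge measure of an almost linear piece
-/

set_option autoImplicit false

open MeasureTheory Set
open scoped ENNReal NNReal

namespace Pool.Agent.FillVol

theorem loc {K : Set (ℝ × ℝ)} (hK : IsCompact K) (l : List (ℝ × ℝ)) {d : ℝ}
    (h : ∀ x ∈ K, ∀ y ∈ K, ∀ a ∈ l, |cr a (x - y)| ≤ d) :
    4 * ((volume K).toReal * sp l) ≤ (l.length * d) ^ 2 := by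
  rcases K.eq_empty_or_nonempty with rfl | hn
  · simp only [measure_empty, ENNReal.toReal_zero, zero_mul, mul_zero]
    positivity
  set D : Set (ℝ × ℝ) := (fun p : (ℝ × ℝ) × (ℝ × ℝ) => p.1 - p.2) '' (K ×ˢ K) with hD
  have hDc : IsCompact D := (hK.prod hK).image (by fun_prop)
  have hDn : D.Nonempty := (hn.prod hn).image _
  set C := closure (convexHull ℝ D) with hC
  have hCc : IsCompact C := (isBounded_convexHull.2 hDc.isBounded).isCompact_closure
  have hCv : Convex ℝ C := (convex_convexHull ℝ D).closure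
  have hDC : D ⊆ C := (subset_convexHull ℝ D).trans subset_closure
  have hCn : C.Nonempty := hDn.mono hDC
  have hneg : IsCompact (-K) := hK.neg
  have hvneg : volume (-K) = volume K := by
    exact Measure.measure_neg volume K
  have hbm := bm_plane hK hneg hDc hn (by simpa using hn) (by
    intro a ha b hb
    exact ⟨(a, -b), ⟨ha, hb⟩, by simp⟩)
  rw [hvneg] at hbm
  have h1 : 4 * (volume K).toReal ≤ (volume C).toReal := by
    have e1 := Real.sq_sqrt (ENNReal.toReal_nonneg (a := volume K))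
    have e2 := Real.sq_sqrt (ENNReal.toReal_nonneg (a := volume D))
    have p0 := Real.sqrt_nonneg (volume K).toReal
    have h2 : (√(volume K).toReal + √(volume K).toReal) ^ 2 ≤ (√(volume D).toReal) ^ 2 :=
      pow_le_pow_left₀ (by positivity) hbm 2
    have h3 : (volume D).toReal ≤ (volume C).toReal :=
      ENNReal.toReal_mono hCc.measure_lt_top.ne (measure_mono hDC)
    nlinarith
  have hw : ∀ a ∈ l, wd C a ≤ 2 * d := by
    intro a ha
    have hconv : Convex ℝ {x : ℝ × ℝ | |cr a x| ≤ d} := by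
      intro x hx y hy s t hs ht hst
      have hx' : |cr a x| ≤ d := hx
      have hy' : |cr a y| ≤ d := hy
      show |cr a (s • x + t • y)| ≤ d
      rw [cr_add, cr_smul, cr_smul]
      refine (abs_add_le _ _).trans ?_
      rw [abs_mul, abs_mul, abs_of_nonneg hs, abs_of_nonneg ht]
      calc s * |cr a x| + t * |cr a y| ≤ s * d + t * d := by gcongr
        _ = d := by rw [← add_mul, hst, one_mul]
    have hsub : C ⊆ {x : ℝ × ℝ | |cr a x| ≤ d} := by
      refine closure_minimal (convexHull_min ?_ hconv)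
        (isClosed_le (cr_continuous a).abs continuous_const)
      rintro _ ⟨⟨x, y⟩, ⟨hx, hy⟩, rfl⟩
      exact h x hx y hy a ha
    have h1 : sSup (cr a '' C) ≤ d := by
      apply csSup_le (hCn.image _)
      rintro _ ⟨x, hx, rfl⟩
      exact (abs_le.1 (hsub hx)).2
    have h2 : -d ≤ sInf (cr a '' C) := by
      apply le_csInf (hCn.image _)
      rintro _ ⟨x, hx, rfl⟩
      exact (abs_le.1 (hsub hx)).1
    rw [wd]
    linarith
  have hm := mink hCc hCv hCn l hw
  have hsp := sp_nonneg l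
  have h4 : 4 * (volume K).toReal * sp l ≤ (volume C).toReal * sp l :=
    mul_le_mul_of_nonneg_right h1 hsp
  nlinarith

/-- the sum of the absolute values of all `2 × 2` minors of `A` (ordered pairs of coordinates) -/
noncomputable def SL {N : ℕ} (A : (ℝ × ℝ) →L[ℝ] (Fin N → ℝ)) : ℝ :=
  ∑ i, ∑ j, |A (1, 0) i * A (0, 1) j - A (0, 1) i * A (1, 0) j|

theorem SL_nonneg {N : ℕ} (A : (ℝ × ℝ) →L[ℝ] (Fin N → ℝ)) : 0 ≤ SL A :=
  Finset.sum_nonneg fun _ _ => Finset.sum_nonneg fun _ _ => abs_nonneg _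

theorem SL_continuous {N : ℕ} : Continuous (SL (N := N)) := by
  unfold SL
  have h : ∀ (v : ℝ × ℝ) (i : Fin N),
      Continuous fun A : (ℝ × ℝ) →L[ℝ] (Fin N → ℝ) => A v i := by
    intro v i
    exact (continuous_apply i).comp (ContinuousLinearMap.apply ℝ (Fin N → ℝ) v).continuous
  refine continuous_finsetSum _ fun i _ => continuous_finsetSum _ fun j _ => ?_
  exact (((h _ i).mul (h _ j)).sub ((h _ i).mul (h _ j))).abs

theorem two_sp {N : ℕ} (b : Fin N → ℝ × ℝ) :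
    2 * sp (List.ofFn b) = ∑ i, ∑ j, |cr (b i) (b j)| := by
  induction N with
  | zero => simp [sp]
  | succ N ih =>
    rw [List.ofFn_succ, sp, mul_add, ih, List.map_ofFn, List.sum_ofFn, Fin.sum_univ_succ]
    simp_rw [Fin.sum_univ_succ (fun j => |cr (b _) (b j)|)]
    rw [Finset.sum_add_distrib]
    have e0 : |cr (b 0) (b 0)| = 0 := by
      rw [abs_eq_zero]; simp [cr]; ring
    have e1 : ∑ i : Fin N, |cr (b i.succ) (b 0)| = ∑ i : Fin N, |cr (b 0) (b i.succ)| := by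
      refine Finset.sum_congr rfl fun i _ => ?_
      rw [← abs_neg]
      congr 1
      simp [cr]; ring
    rw [e0, e1]
    simp only [Function.comp]
    ring

/-- the vector representing the `i`-th coordinate of `A` through `cr` -/
noncomputable def bvec {N : ℕ} (A : (ℝ × ℝ) →L[ℝ] (Fin N → ℝ)) (i : Fin N) : ℝ × ℝ :=
  (A (0, 1) i, -A (1, 0) i)

theorem cr_bvec {N : ℕ} (A : (ℝ × ℝ) →L[ℝ] (Fin N → ℝ)) (i : Fin N) (v : ℝ × ℝ) :
    cr (bvec A i) v = A v i := by
  have : v = v.1 • ((1, 0) : ℝ × ℝ) + v.2 • ((0, 1) : ℝ × ℝ) := by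
    ext <;> simp
  conv_rhs => rw [this, map_add, map_smul, map_smul]
  simp [cr, bvec]
  ring

theorem SL_eq {N : ℕ} (A : (ℝ × ℝ) →L[ℝ] (Fin N → ℝ)) :
    SL A = 2 * sp (List.ofFn (bvec A)) := by
  rw [two_sp, SL]
  refine Finset.sum_congr rfl fun i _ => Finset.sum_congr rfl fun j _ => ?_
  congr 1
  simp only [cr, bvec]
  ring

theorem loc_map {N : ℕ} {A : (ℝ × ℝ) →L[ℝ] (Fin N → ℝ)} {G : ℝ × ℝ → Fin N → ℝ}
    {T : Set (ℝ × ℝ)} (hb : Bornology.IsBounded T) {r : ℝ≥0} {ε d : ℝ} (hε : ε < 1)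
    (hA : ∀ v, r * ‖v‖ ≤ ε * ‖A v‖) (hG : ApproximatesLinearOn G A T r) (hd : 0 ≤ d)
    (hT : ∀ x ∈ T, ∀ y ∈ T, ‖G x - G y‖ ≤ d) :
    2 * SL A * (1 - ε) ^ 2 * (volume T).toReal ≤ (N * d) ^ 2 := by
  have hε1 : 0 < 1 - ε := by linarith
  have hK : IsCompact (closure T) := hb.isCompact_closure
  have key : ∀ x ∈ T, ∀ y ∈ T, ‖A (x - y)‖ ≤ d / (1 - ε) := by
    intro x hx y hy
    have h1 := hG x hx y hy
    have h2 := hA (x - y)
    have h3 : ‖A (x - y)‖ ≤ ‖G x - G y‖ + ‖G x - G y - A (x - y)‖ := by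
      have := norm_sub_le (G x - G y) (G x - G y - A (x - y))
      simpa using this
    have h4 := hT x hx y hy
    rw [le_div_iff₀ hε1]
    nlinarith
  have key2 : ∀ x ∈ closure T, ∀ y ∈ closure T, ∀ a ∈ List.ofFn (bvec A),
      |cr a (x - y)| ≤ d / (1 - ε) := by
    intro x hx y hy a ha
    obtain ⟨i, rfl⟩ := (List.mem_ofFn' _ _).1 ha
    have hcl : IsClosed {p : (ℝ × ℝ) × (ℝ × ℝ) | |cr (bvec A i) (p.1 - p.2)| ≤ d / (1 - ε)} :=
      isClosed_le (((cr_continuous _).comp (continuous_fst.sub continuous_snd)).abs)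
        continuous_const
    have hsub : T ×ˢ T ⊆ {p : (ℝ × ℝ) × (ℝ × ℝ) | |cr (bvec A i) (p.1 - p.2)| ≤ d / (1 - ε)} := by
      rintro ⟨u, v⟩ ⟨hu, hv⟩
      show |cr (bvec A i) (u - v)| ≤ d / (1 - ε)
      rw [cr_bvec]
      exact (norm_le_pi_norm (A (u - v)) i).trans (key u hu v hv)
    have := closure_minimal hsub hcl
    rw [closure_prod_eq] at this
    exact this (mk_mem_prod hx hy)
  have hl := loc hK (List.ofFn (bvec A)) key2
  rw [List.length_ofFn] at hl
  have hm : (volume T).toReal ≤ (volume (closure T)).toReal :=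
    ENNReal.toReal_mono hK.measure_lt_top.ne (measure_mono subset_closure)
  have hSL := SL_nonneg A
  rw [SL_eq] at hSL ⊢
  have h5 : (N : ℝ) * (d / (1 - ε)) = N * d / (1 - ε) := by ring
  rw [h5, div_pow, le_div_iff₀ (pow_pos hε1 2)] at hl
  have h6 : 0 ≤ 2 * (2 * sp (List.ofFn (bvec A))) * (1 - ε) ^ 2 := by positivity
  calc 2 * (2 * sp (List.ofFn (bvec A))) * (1 - ε) ^ 2 * (volume T).toReal
      ≤ 2 * (2 * sp (List.ofFn (bvec A))) * (1 - ε) ^ 2 * (volume (closure T)).toReal := by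
        gcongr
    _ = 4 * ((volume (closure T)).toReal * sp (List.ofFn (bvec A))) * (1 - ε) ^ 2 := by ring
    _ ≤ _ := hl

/-- lower bound of the square-gauge measure of the image of an almost linear piece -/
theorem mk_lower {E : Type*} [EMetricSpace E] {N : ℕ} (hN : 0 < N)
    {A : (ℝ × ℝ) →L[ℝ] (Fin N → ℝ)} {G : ℝ × ℝ → Fin N → ℝ} {F : ℝ × ℝ → E}
    {T : Set (ℝ × ℝ)} (hb : Bornology.IsBounded T) {r : ℝ≥0} {ε : ℝ} (hε : ε < 1)
    (hA : ∀ v, r * ‖v‖ ≤ ε * ‖A v‖) (hG : ApproximatesLinearOn G A T r)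
    (hFG : ∀ x ∈ T, ∀ y ∈ T, edist (G x) (G y) ≤ edist (F x) (F y)) :
    ENNReal.ofReal (2 * SL A * (1 - ε) ^ 2 / N ^ 2) * volume T ≤
      (OuterMeasure.mkMetric (fun r : ℝ≥0∞ => r ^ (2 : ℝ)) : OuterMeasure E) (F '' T) := by
  have hN' : (0 : ℝ) < N := by exact_mod_cast hN
  set κ : ℝ := 2 * SL A * (1 - ε) ^ 2 / N ^ 2 with hκ
  have hκ0 : 0 ≤ κ := by
    have := SL_nonneg A
    positivity
  set μ : OuterMeasure E :=
    ENNReal.ofReal κ • OuterMeasure.map F (OuterMeasure.restrict T volume.toOuterMeasure) with hμ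
  have hμa : ∀ s, μ s = ENNReal.ofReal κ * volume (F ⁻¹' s ∩ T) := by
    intro s
    rw [hμ, FunLike.coe_smul, Pi.smul_apply, smul_eq_mul, OuterMeasure.map_apply,
      OuterMeasure.restrict_apply]
    rfl
  have hle : μ ≤ OuterMeasure.mkMetric (fun r : ℝ≥0∞ => r ^ (2 : ℝ)) := by
    refine OuterMeasure.le_mkMetric _ μ 1 one_pos fun s hs => ?_
    have hfin : Metric.ediam s ≠ ⊤ := ne_top_of_le_ne_top ENNReal.one_ne_top hs
    rw [hμa]
    have hT' : ∀ x ∈ F ⁻¹' s ∩ T, ∀ y ∈ F ⁻¹' s ∩ T, ‖G x - G y‖ ≤ (Metric.ediam s).toReal := by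
      rintro x ⟨hx, hxT⟩ y ⟨hy, hyT⟩
      have h1 := (hFG x hxT y hyT).trans (Metric.edist_le_ediam_of_mem hx hy)
      rw [edist_dist] at h1
      have h2 := ENNReal.toReal_mono hfin h1
      rwa [ENNReal.toReal_ofReal dist_nonneg, dist_eq_norm] at h2
    have hl := loc_map (hb.subset (inter_subset_right : F ⁻¹' s ∩ T ⊆ T)) hε hA
      (hG.mono_set inter_subset_right) ENNReal.toReal_nonneg hT'
    have hvf : volume (F ⁻¹' s ∩ T) ≠ ⊤ :=
      (hb.subset (inter_subset_right : F ⁻¹' s ∩ T ⊆ T)).measure_lt_top.ne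
    have h3 : κ * (volume (F ⁻¹' s ∩ T)).toReal ≤ (Metric.ediam s).toReal ^ 2 := by
      rw [hκ, div_mul_eq_mul_div, div_le_iff₀ (by positivity)]
      calc _ ≤ (N * (Metric.ediam s).toReal) ^ 2 := hl
        _ = _ := by ring
    have h4 := ENNReal.ofReal_le_ofReal h3
    rw [ENNReal.ofReal_mul hκ0, ENNReal.ofReal_toReal hvf,
      ENNReal.ofReal_pow ENNReal.toReal_nonneg, ENNReal.ofReal_toReal hfin] at h4
    rw [show (2 : ℝ) = ((2 : ℕ) : ℝ) by norm_num, ENNReal.rpow_natCast]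
    exact h4
  have h := hle (F '' T)
  rw [hμa] at h
  have e : F ⁻¹' (F '' T) ∩ T = T := by
    ext x
    exact ⟨fun hx => hx.2, fun hx => ⟨⟨x, hx, rfl⟩, hx⟩⟩
  rwa [e] at h

end Pool.Agent.FillVol
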