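import Pool.Agent.Work.MP_e09eef_gt.Area1

/-!
# The area inequality for Lipschitz maps of plane domains into a metric space
-/

set_option autoImplicit false

open MeasureTheory Set Filter Topology
open scoped ENNReal NNReal

namespace Pool.Agent.FillVol

/-- the square-gauge (Hausdorff type) outer measure -/
noncomputable abbrev HH (E : Type*) [EMetricSpace E] : OuterMeasure E :=
  OuterMeasure.mkMetric (fun r : ℝ≥0∞ => r ^ (2 : ℝ))

/-- finitely many measurable sets: sum of measures is the sum of the measures of the sets of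
points covered at least `k+1` times -/
theorem layer_sets {E : Type*} [MeasurableSpace E] (ν : Measure E) (M : ℕ) (B : ℕ → Set E)
    (hB : ∀ n, MeasurableSet (B n)) :
    ∑ n ∈ Finset.range M, ν (B n) =
      ∑ k ∈ Finset.range M,
        ν {y | k + 1 ≤ ∑ n ∈ Finset.range M, (B n).indicator (fun _ => (1 : ℕ)) y} := by
  have hc : Measurable fun y => ∑ n ∈ Finset.range M, (B n).indicator (fun _ => (1 : ℕ)) y :=
    Finset.measurable_sum _ fun n _ => measurable_const.indicator (hB n)
  have h1 : ∀ n, ν (B n) = ∫⁻ y, (B n).indicator (fun _ => (1 : ℝ≥0∞)) y ∂ν := fun n => by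
    rw [lintegral_indicator (hB n)]; simp
  have hm : ∀ k, MeasurableSet {y | k + 1 ≤
      ∑ n ∈ Finset.range M, (B n).indicator (fun _ => (1 : ℕ)) y} := fun k =>
    measurableSet_le measurable_const hc
  have h2 : ∀ k, ν {y | k + 1 ≤ ∑ n ∈ Finset.range M, (B n).indicator (fun _ => (1 : ℕ)) y} =
      ∫⁻ y, {y | k + 1 ≤ ∑ n ∈ Finset.range M, (B n).indicator (fun _ => (1 : ℕ)) y}.indicator
        (fun _ => (1 : ℝ≥0∞)) y ∂ν := fun k => by
    rw [lintegral_indicator (hm k)]; simp
  simp_rw [h1, h2]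
  rw [← lintegral_finsetSum _ fun n _ => measurable_const.indicator (hB n),
    ← lintegral_finsetSum _ fun k _ => measurable_const.indicator (hm k)]
  refine lintegral_congr fun y => ?_
  set c := ∑ n ∈ Finset.range M, (B n).indicator (fun _ => (1 : ℕ)) y with hcdef
  have e1 : ∑ n ∈ Finset.range M, (B n).indicator (fun _ => (1 : ℝ≥0∞)) y = (c : ℝ≥0∞) := by
    rw [hcdef, Nat.cast_sum]
    refine Finset.sum_congr rfl fun n _ => ?_
    by_cases h : y ∈ B n
    · simp [h]
    · simp [h]
  have hcM : c ≤ M := by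
    calc c ≤ ∑ n ∈ Finset.range M, 1 := Finset.sum_le_sum fun n _ => by
          by_cases h : y ∈ B n
          · simp [h]
          · simp [h]
      _ = M := by simp
  have e2 : ∑ k ∈ Finset.range M,
      {y | k + 1 ≤ ∑ n ∈ Finset.range M, (B n).indicator (fun _ => (1 : ℕ)) y}.indicator
        (fun _ => (1 : ℝ≥0∞)) y = ∑ k ∈ Finset.range M, if k < c then (1 : ℝ≥0∞) else 0 := by
    refine Finset.sum_congr rfl fun k _ => ?_
    by_cases h : k < c
    · rw [if_pos h, indicator_of_mem]
      exact h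
    · rw [if_neg h, indicator_of_notMem]
      exact h
  rw [e1, e2, Finset.sum_ite, Finset.sum_const_zero, add_zero, Finset.sum_const, nsmul_eq_mul,
    mul_one]
  congr 1
  have : Finset.filter (fun k => k < c) (Finset.range M) = Finset.range c := by
    ext k
    simp only [Finset.mem_filter, Finset.mem_range]
    omega
  rw [this, Finset.card_range]

/-- multiplicity inequality -/
theorem mult {E : Type*} [EMetricSpace E] (F : ℝ × ℝ → E) (U : Set (ℝ × ℝ))
    (hF : ContinuousOn F U) (M : ℕ) (T : ℕ → Set (ℝ × ℝ)) (hT : ∀ n, IsCompact (T n))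
    (hTU : ∀ n, T n ⊆ U) (hd : ∀ m n, m ≠ n → Disjoint (T m) (T n)) :
    ∑ n ∈ Finset.range M, HH E (F '' T n) ≤
      ∑' k : ℕ, HH E {y | ((k + 1 : ℕ) : ℕ∞) ≤ Set.encard {x | x ∈ U ∧ F x = y}} := by
  borelize E
  have hB : ∀ n, MeasurableSet (F '' T n) := fun n =>
    ((hT n).image_of_continuousOn (hF.mono (hTU n))).measurableSet
  have hcoe : ∀ s : Set E, HH E s =
      (Measure.mkMetric (fun r : ℝ≥0∞ => r ^ (2 : ℝ)) : Measure E) s := by
    intro s
    rw [← OuterMeasure.coe_mkMetric]
  simp_rw [hcoe]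
  rw [layer_sets _ M (fun n => F '' T n) hB]
  refine le_trans (Finset.sum_le_sum fun k _ => ?_) (ENNReal.sum_le_tsum (Finset.range M))
  refine measure_mono ?_
  intro y hy
  have hy' : k + 1 ≤ ∑ n ∈ Finset.range M, (F '' T n).indicator (fun _ => (1 : ℕ)) y := hy
  show ((k + 1 : ℕ) : ℕ∞) ≤ _
  classical
  set s : Finset ℕ := (Finset.range M).filter (fun n => y ∈ F '' T n) with hs
  have hcard : ∑ n ∈ Finset.range M, (F '' T n).indicator (fun _ => (1 : ℕ)) y = s.card := by
    rw [hs, Finset.card_filter]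
    refine Finset.sum_congr rfl fun n _ => ?_
    by_cases h : y ∈ F '' T n
    · rw [indicator_of_mem h, if_pos h]
    · rw [indicator_of_notMem h, if_neg h]
  rw [hcard] at hy'
  have hch : ∀ n ∈ s, ∃ x ∈ T n, F x = y := by
    intro n hn
    obtain ⟨x, hx, hxy⟩ := (Finset.mem_filter.1 hn).2
    exact ⟨x, hx, hxy⟩
  choose! g hg hgy using hch
  have hinj : Set.InjOn g (s : Set ℕ) := by
    intro m hm n hn hmn
    by_contra hne
    have := Set.disjoint_left.1 (hd m n hne) (hg m hm)
    exact this (hmn ▸ hg n hn)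
  have h1 : (g '' (s : Set ℕ)).encard = (s : Set ℕ).encard := hinj.encard_image
  have h2 : g '' (s : Set ℕ) ⊆ {x | x ∈ U ∧ F x = y} := by
    rintro _ ⟨n, hn, rfl⟩
    exact ⟨hTU n (hg n hn), hgy n hn⟩
  have h3 := encard_le_encard h2
  rw [h1, Set.encard_coe_eq_coe_finsetCard] at h3
  refine le_trans ?_ h3
  exact_mod_cast hy'

end Pool.Agent.FillVol
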