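import Pool.Agent.Work.MP_e09eef_gt.Area2

/-!
# The area inequality for Lipschitz maps of plane domains into a metric space (main statement)
-/

set_option autoImplicit false

open MeasureTheory Set Filter Topology
open scoped ENNReal NNReal

namespace Pool.Agent.FillVol

theorem inj_of_SL {N : ℕ} {A : (ℝ × ℝ) →L[ℝ] (Fin N → ℝ)} (h : 0 < SL A) :
    LinearMap.ker (A : (ℝ × ℝ) →ₗ[ℝ] (Fin N → ℝ)) = ⊥ := by
  obtain ⟨i, j, hij⟩ : ∃ i j, A (1, 0) i * A (0, 1) j - A (0, 1) i * A (1, 0) j ≠ 0 := by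
    by_contra hcon
    push Not at hcon
    have : SL A = 0 := by
      rw [SL]
      exact Finset.sum_eq_zero fun i _ => Finset.sum_eq_zero fun j _ => by rw [hcon, abs_zero]
    linarith
  rw [LinearMap.ker_eq_bot']
  intro v hv
  have hv' : A v = 0 := hv
  have e : ∀ k, v.1 * A (1, 0) k + v.2 * A (0, 1) k = 0 := by
    intro k
    have hk : A v k = 0 := by rw [hv']; rfl
    have : v = v.1 • ((1, 0) : ℝ × ℝ) + v.2 • ((0, 1) : ℝ × ℝ) := by
      ext <;> simp
    rw [this, map_add, map_smul, map_smul] at hk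
    simpa using hk
  have h1 : v.1 * (A (1, 0) i * A (0, 1) j - A (0, 1) i * A (1, 0) j) = 0 := by
    have a1 := e i
    have a2 := e j
    linear_combination A (0, 1) j * a1 - A (0, 1) i * a2
  have h2 : v.2 * (A (1, 0) i * A (0, 1) j - A (0, 1) i * A (1, 0) j) = 0 := by
    have a1 := e i
    have a2 := e j
    linear_combination -A (1, 0) j * a1 + A (1, 0) i * a2
  ext
  · exact (mul_eq_zero.1 h1).resolve_right hij
  · exact (mul_eq_zero.1 h2).resolve_right hij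

theorem exists_r {N : ℕ} {ε : ℝ} (hε : 0 < ε) (A : (ℝ × ℝ) →L[ℝ] (Fin N → ℝ)) :
    ∃ ρ : ℝ≥0, ρ ≠ 0 ∧ (∀ B, ‖B - A‖ ≤ ρ → SL B ≤ SL A + ε) ∧
      (0 < SL A → ∀ v, ρ * ‖v‖ ≤ ε * ‖A v‖) := by
  obtain ⟨δ, hδ, hδ'⟩ := Metric.continuous_iff.1 (SL_continuous (N := N)) A ε hε
  have h1 : ∀ ρ : ℝ≥0, (ρ : ℝ) < δ → ∀ B, ‖B - A‖ ≤ ρ → SL B ≤ SL A + ε := by
    intro ρ hρ B hB
    have := hδ' B (by rw [dist_eq_norm]; exact hB.trans_lt hρ)
    rw [Real.dist_eq] at this
    have := (abs_lt.1 this).2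
    linarith
  by_cases hA : 0 < SL A
  · obtain ⟨K, hK, hKA⟩ := LinearMap.exists_antilipschitzWith
      (A : (ℝ × ℝ) →ₗ[ℝ] (Fin N → ℝ)) (inj_of_SL hA)
    have hK' : (0 : ℝ) < K := hK
    refine ⟨⟨min (δ / 2) (ε / K), by positivity⟩, ?_, h1 _ ?_, ?_⟩
    · intro h0
      have : min (δ / 2) (ε / K) = 0 := congrArg NNReal.toReal h0
      have h2 : 0 < min (δ / 2) (ε / K) := by positivity
      linarith
    · show min (δ / 2) (ε / K) < δ
      exact (min_le_left _ _).trans_lt (by linarith)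
    · intro _ v
      show min (δ / 2) (ε / K) * ‖v‖ ≤ ε * ‖A v‖
      have h2 := hKA.le_mul_dist v 0
      simp only [dist_zero_right, map_zero] at h2
      have h3 : ‖v‖ ≤ K * ‖A v‖ := h2
      calc min (δ / 2) (ε / K) * ‖v‖ ≤ ε / K * ‖v‖ := by gcongr; exact min_le_right _ _
        _ ≤ ε / K * (K * ‖A v‖) := by gcongr
        _ = ε * ‖A v‖ := by field_simp
  · refine ⟨⟨δ / 2, by positivity⟩, ?_, h1 _ ?_, fun h => absurd h hA⟩
    · intro h0
      have : δ / 2 = 0 := congrArg NNReal.toReal h0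
      linarith
    · show δ / 2 < δ
      linarith

theorem area_lower_eps {E : Type*} [EMetricSpace E] {N : ℕ} (hN : 0 < N)
    (F : ℝ × ℝ → E) {U : Set (ℝ × ℝ)} (hU : MeasurableSet U) (hUb : Bornology.IsBounded U)
    (hF : ContinuousOn F U) (G : ℝ × ℝ → Fin N → ℝ)
    (hFG : ∀ x ∈ U, ∀ y ∈ U, edist (G x) (G y) ≤ edist (F x) (F y)) {ε : ℝ} (hε : 0 < ε)
    (hε1 : ε < 1) :
    ∫⁻ x in U, ENNReal.ofReal (SL (fderiv ℝ G x)) ≤
      ENNReal.ofReal (N ^ 2 / (2 * (1 - ε) ^ 2)) *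
        ∑' k : ℕ, HH E {y | ((k + 1 : ℕ) : ℕ∞) ≤ Set.encard {x | x ∈ U ∧ F x = y}} +
      ENNReal.ofReal ε * volume U := by
  have hN' : (0 : ℝ) < N := by exact_mod_cast hN
  have h1ε : 0 < 1 - ε := by linarith
  set R := ∑' k : ℕ, HH E {y | ((k + 1 : ℕ) : ℕ∞) ≤ Set.encard {x | x ∈ U ∧ F x = y}} with hR
  choose r r0 rS rA using exists_r (N := N) hε
  set s : Set (ℝ × ℝ) := {x | x ∈ U ∧ DifferentiableAt ℝ G x ∧ 0 < SL (fderiv ℝ G x)} with hs
  have hSLm : Measurable fun x => SL (fderiv ℝ G x) :=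
    SL_continuous.measurable.comp (measurable_fderiv ℝ G)
  have hsm : MeasurableSet s :=
    hU.inter ((measurableSet_of_differentiableAt ℝ G).inter
      (measurableSet_lt measurable_const hSLm))
  have hsU : s ⊆ U := fun x hx => hx.1
  have hoff : ∀ x ∈ U, x ∉ s → SL (fderiv ℝ G x) = 0 := by
    intro x hx hxs
    by_cases hd : DifferentiableAt ℝ G x
    · have : ¬ 0 < SL (fderiv ℝ G x) := fun h => hxs ⟨hx, hd, h⟩
      exact le_antisymm (not_lt.1 this) (SL_nonneg _)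
    · rw [fderiv_zero_of_not_differentiableAt hd]
      simp [SL]
  have hI : ∫⁻ x in U, ENNReal.ofReal (SL (fderiv ℝ G x)) =
      ∫⁻ x in s, ENNReal.ofReal (SL (fderiv ℝ G x)) := by
    rw [← lintegral_indicator hU, ← lintegral_indicator hsm]
    refine lintegral_congr fun x => ?_
    by_cases hx : x ∈ s
    · rw [indicator_of_mem hx, indicator_of_mem (hsU hx)]
    · rw [indicator_of_notMem hx]
      by_cases hxU : x ∈ U
      · rw [indicator_of_mem hxU, hoff x hxU hx, ENNReal.ofReal_zero]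
      · rw [indicator_of_notMem hxU]
  rw [hI]
  rcases s.eq_empty_or_nonempty with hse | hsne
  · rw [hse]; simp
  obtain ⟨t, A, tdisj, tmeas, scov, tapp, tA⟩ :=
    exists_partition_approximatesLinearOn_of_hasFDerivWithinAt G s (fderiv ℝ G)
      (fun x hx => hx.2.1.hasFDerivAt.hasFDerivWithinAt) r r0
  have hApos : ∀ n, 0 < SL (A n) := by
    intro n
    obtain ⟨y, hy, hAy⟩ := tA hsne n
    rw [hAy]
    exact hy.2.2
  set P : ℕ → Set (ℝ × ℝ) := fun n => s ∩ t n with hP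
  have hPm : ∀ n, MeasurableSet (P n) := fun n => hsm.inter (tmeas n)
  have hPd : Pairwise (Function.onFun Disjoint P) := fun m n hmn =>
    (tdisj hmn).mono inter_subset_right inter_subset_right
  have hPs : s = ⋃ n, P n := by
    rw [hP, ← inter_iUnion]
    exact (inter_eq_left.2 scov).symm
  have hPU : ∀ n, P n ⊆ U := fun n => inter_subset_left.trans hsU
  -- derivative estimate
  have hder : ∀ n, ∫⁻ x in P n, ENNReal.ofReal (SL (fderiv ℝ G x)) ≤
      (ENNReal.ofReal (SL (A n)) + ENNReal.ofReal ε) * volume (P n) := by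
    intro n
    have hae := fderiv_close volume (tapp n) (hPm n) (fderiv ℝ G)
      (fun x hx => hx.1.2.1.hasFDerivAt.hasFDerivWithinAt)
    calc ∫⁻ x in P n, ENNReal.ofReal (SL (fderiv ℝ G x))
        ≤ ∫⁻ x in P n, (ENNReal.ofReal (SL (A n)) + ENNReal.ofReal ε) := by
          refine lintegral_mono_ae ?_
          filter_upwards [hae] with x hx
          rw [← ENNReal.ofReal_add (SL_nonneg _) hε.le]
          exact ENNReal.ofReal_le_ofReal (rS (A n) _ hx)
      _ = _ := by rw [setLIntegral_const]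
  set κ : ℕ → ℝ≥0∞ := fun n => ENNReal.ofReal (2 * SL (A n) * (1 - ε) ^ 2 / N ^ 2) with hκ
  have hcomp : ∀ K : ℕ → Set (ℝ × ℝ), (∀ n, K n ⊆ P n) → (∀ n, IsCompact (K n)) → ∀ M,
      ∑ n ∈ Finset.range M, κ n * volume (K n) ≤ R := by
    intro K hKP hKc M
    refine le_trans (Finset.sum_le_sum fun n _ => ?_)
      (mult F U hF M K hKc (fun n => (hKP n).trans (hPU n))
        fun m n hmn => (hPd hmn).mono (hKP m) (hKP n))
    exact mk_lower hN (hKc n).isBounded hε1 (rA (A n) (hApos n)) ((tapp n).mono_set (hKP n))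
      fun x hx y hy => hFG x (hPU n (hKP n hx)) y (hPU n (hKP n hy))
  have hvP : ∀ n, volume (P n) ≠ ⊤ := fun n => (hUb.subset (hPU n)).measure_lt_top.ne
  have hsum : ∑' n, κ n * volume (P n) ≤ R := by
    refine ENNReal.tsum_le_of_sum_range_le fun M => ?_
    refine ENNReal.le_of_forall_pos_le_add fun η hη _ => ?_
    set C := ∑ n ∈ Finset.range M, κ n with hC
    have hCt : C ≠ ⊤ := by
      rw [hC, ENNReal.sum_ne_top]
      exact fun n _ => ENNReal.ofReal_ne_top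
    have hη' : (η : ℝ≥0∞) / (C + 1) ≠ 0 := by
      rw [ne_eq, ENNReal.div_eq_zero_iff, not_or]
      exact ⟨by exact_mod_cast hη.ne', ENNReal.add_ne_top.2 ⟨hCt, ENNReal.one_ne_top⟩⟩
    have hex : ∀ n, ∃ K ⊆ P n, IsCompact K ∧ volume (P n) < volume K + (η : ℝ≥0∞) / (C + 1) :=
      fun n => (hPm n).exists_isCompact_lt_add (hvP n) hη'
    choose K hKP hKc hKv using hex
    calc ∑ n ∈ Finset.range M, κ n * volume (P n)
        ≤ ∑ n ∈ Finset.range M, (κ n * volume (K n) + κ n * ((η : ℝ≥0∞) / (C + 1))) := by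
          refine Finset.sum_le_sum fun n _ => ?_
          rw [← mul_add]
          gcongr
          exact (hKv n).le
      _ = ∑ n ∈ Finset.range M, κ n * volume (K n) + C * ((η : ℝ≥0∞) / (C + 1)) := by
          rw [Finset.sum_add_distrib, ← Finset.sum_mul]
      _ ≤ R + η := by
          gcongr
          · exact hcomp K hKP hKc M
          · rw [← mul_div_assoc]
            refine ENNReal.div_le_of_le_mul ?_
            rw [mul_comm]
            gcongr
            exact le_self_add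
  have hrel : ∀ n, ENNReal.ofReal (SL (A n)) =
      ENNReal.ofReal (N ^ 2 / (2 * (1 - ε) ^ 2)) * κ n := by
    intro n
    rw [hκ]
    simp only
    rw [← ENNReal.ofReal_mul (by positivity)]
    congr 1
    field_simp
  calc ∫⁻ x in s, ENNReal.ofReal (SL (fderiv ℝ G x))
      = ∑' n, ∫⁻ x in P n, ENNReal.ofReal (SL (fderiv ℝ G x)) := by
        conv_lhs => rw [hPs]
        exact lintegral_iUnion hPm hPd _
    _ ≤ ∑' n, (ENNReal.ofReal (N ^ 2 / (2 * (1 - ε) ^ 2)) * (κ n * volume (P n)) +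
          ENNReal.ofReal ε * volume (P n)) := by
        refine ENNReal.tsum_le_tsum fun n => ?_
        refine (hder n).trans (le_of_eq ?_)
        rw [add_mul, hrel n, mul_assoc]
    _ = ENNReal.ofReal (N ^ 2 / (2 * (1 - ε) ^ 2)) * ∑' n, (κ n * volume (P n)) +
          ENNReal.ofReal ε * ∑' n, volume (P n) := by
        rw [ENNReal.tsum_add, ENNReal.tsum_mul_left, ENNReal.tsum_mul_left]
    _ ≤ _ := by
        gcongr
        rw [← measure_iUnion hPd hPm, ← hPs]
        exact measure_mono hsU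

/-- **Area inequality.** -/
theorem area_lower {E : Type*} [EMetricSpace E] {N : ℕ} (hN : 0 < N)
    (F : ℝ × ℝ → E) {U : Set (ℝ × ℝ)} (hU : MeasurableSet U) (hUb : Bornology.IsBounded U)
    (hF : ContinuousOn F U) (G : ℝ × ℝ → Fin N → ℝ)
    (hFG : ∀ x ∈ U, ∀ y ∈ U, edist (G x) (G y) ≤ edist (F x) (F y)) :
    ∫⁻ x in U, ENNReal.ofReal (SL (fderiv ℝ G x)) ≤
      ENNReal.ofReal (N ^ 2 / 2) *
        ∑' k : ℕ, HH E {y | ((k + 1 : ℕ) : ℕ∞) ≤ Set.encard {x | x ∈ U ∧ F x = y}} := by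
  have hN' : (0 : ℝ) < N := by exact_mod_cast hN
  set R := ∑' k : ℕ, HH E {y | ((k + 1 : ℕ) : ℕ∞) ≤ Set.encard {x | x ∈ U ∧ F x = y}} with hR
  have hlim : Tendsto (fun ε : ℝ => ENNReal.ofReal (N ^ 2 / (2 * (1 - ε) ^ 2)) * R +
      ENNReal.ofReal ε * volume U) (𝓝[>] 0)
      (𝓝 (ENNReal.ofReal (N ^ 2 / 2) * R + ENNReal.ofReal 0 * volume U)) := by
    have hc : ContinuousAt (fun ε : ℝ => (N : ℝ) ^ 2 / (2 * (1 - ε) ^ 2)) 0 := by
      apply ContinuousAt.div (by fun_prop) (by fun_prop)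
      norm_num
    have h1 : Tendsto (fun ε : ℝ => ENNReal.ofReal ((N : ℝ) ^ 2 / (2 * (1 - ε) ^ 2))) (𝓝[>] 0)
        (𝓝 (ENNReal.ofReal ((N : ℝ) ^ 2 / 2))) := by
      have := (ENNReal.tendsto_ofReal hc.tendsto).mono_left
        (nhdsWithin_le_nhds (s := Ioi (0 : ℝ)))
      simpa using this
    have h2 : Tendsto (fun ε : ℝ => ENNReal.ofReal ε) (𝓝[>] 0) (𝓝 (ENNReal.ofReal 0)) :=
      (ENNReal.tendsto_ofReal tendsto_id).mono_left nhdsWithin_le_nhds
    refine Tendsto.add (ENNReal.Tendsto.mul_const h1 (Or.inl ?_))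
      (ENNReal.Tendsto.mul_const h2 (Or.inr hUb.measure_lt_top.ne))
    rw [ne_eq, ENNReal.ofReal_eq_zero, not_le]
    positivity
  rw [ENNReal.ofReal_zero, zero_mul, add_zero] at hlim
  refine ge_of_tendsto hlim ?_
  have hmem : Ioo (0 : ℝ) 1 ∈ 𝓝[>] (0 : ℝ) := Ioo_mem_nhdsGT one_pos
  filter_upwards [hmem] with ε hε
  exact area_lower_eps hN F hU hUb hF G hFG hε.1 hε.2

end Pool.Agent.FillVol
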