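import Mathlib

/-!
# Brunn-Minkowski in the plane (for compact sets)
-/

set_option autoImplicit false

open MeasureTheory Set
open scoped ENNReal

namespace Pool.Agent.FillVol

theorem vol_le_of_translate {K C : Set ℝ} (a : ℝ) (h : ∀ x ∈ K, a + x ∈ C) :
    volume K ≤ volume C := by
  have h1 : (fun x => a + x) '' K ⊆ C := by
    rintro _ ⟨x, hx, rfl⟩
    exact h x hx
  have h2 := measure_mono (μ := (volume : Measure ℝ)) h1
  rwa [image_add_left, measure_preimage_add] at h2

theorem bm_compact {K1 K2 C : Set ℝ} (h1 : IsCompact K1) (h2 : IsCompact K2)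
    (n1 : K1.Nonempty) (n2 : K2.Nonempty) (h : ∀ a ∈ K1, ∀ b ∈ K2, a + b ∈ C) :
    volume K1 + volume K2 ≤ volume C := by
  have hM := h1.sSup_mem n1
  have hm := h2.sInf_mem n2
  set M := sSup K1
  set m := sInf K2
  set S1 : Set ℝ := (fun x => m + x) '' K1 with hS1
  set S2 : Set ℝ := (fun x => M + x) '' K2 with hS2
  have v1 : volume S1 = volume K1 := by
    rw [hS1, image_add_left, measure_preimage_add]
  have v2 : volume S2 = volume K2 := by
    rw [hS2, image_add_left, measure_preimage_add]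
  have c2 : IsCompact S2 := h2.image (continuous_const.add continuous_id)
  have hsub : S1 ∪ S2 ⊆ C := by
    rintro x (⟨y, hy, rfl⟩ | ⟨y, hy, rfl⟩)
    · show m + y ∈ C
      rw [add_comm]
      exact h y hy m hm
    · exact h M hM y hy
  have hint : volume (S1 ∩ S2) = 0 := by
    refine measure_mono_null (t := {m + M}) ?_ (by simp)
    rintro x ⟨⟨y, hy, rfl⟩, ⟨z, hz, hzy⟩⟩
    have hy1 : y ≤ M := le_csSup h1.bddAbove hy
    have hz1 : m ≤ z := csInf_le h2.bddBelow hz
    simp only at hzy
    simp only [mem_singleton_iff]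
    linarith
  have hadd := measure_union_add_inter (μ := (volume : Measure ℝ)) S1 c2.measurableSet
  rw [hint, add_zero, v1, v2] at hadd
  rw [← hadd]
  exact measure_mono hsub

/-- Brunn-Minkowski on the line -/
theorem bm_line {A B C : Set ℝ} (hA : MeasurableSet A) (hB : MeasurableSet B)
    (hAn : A.Nonempty) (hBn : B.Nonempty) (h : ∀ a ∈ A, ∀ b ∈ B, a + b ∈ C) :
    volume A + volume B ≤ volume C := by
  obtain ⟨a0, ha0⟩ := hAn
  obtain ⟨b0, hb0⟩ := hBn
  have hAC : volume A ≤ volume C := vol_le_of_translate b0 fun x hx => by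
    rw [add_comm]; exact h x hx b0 hb0
  have hBC : volume B ≤ volume C := vol_le_of_translate a0 fun x hx => h a0 ha0 x hx
  by_cases hC : volume C = ⊤
  · rw [hC]; exact le_top
  have hAt : volume A ≠ ⊤ := ne_top_of_le_ne_top hC hAC
  have hBt : volume B ≠ ⊤ := ne_top_of_le_ne_top hC hBC
  -- compact pieces
  have hK : ∀ K1 ⊆ A, IsCompact K1 → ∀ K2 ⊆ B, IsCompact K2 →
      volume K1 + volume K2 ≤ volume C := by
    intro K1 hs1 h1 K2 hs2 h2
    rcases K1.eq_empty_or_nonempty with rfl | n1
    · rw [measure_empty, zero_add]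
      exact (measure_mono hs2).trans hBC
    rcases K2.eq_empty_or_nonempty with rfl | n2
    · rw [measure_empty, add_zero]
      exact (measure_mono hs1).trans hAC
    exact bm_compact h1 h2 n1 n2 fun a ha b hb => h a (hs1 ha) b (hs2 hb)
  have hK1B : ∀ K1 ⊆ A, IsCompact K1 → volume K1 + volume B ≤ volume C := by
    intro K1 hs1 h1
    have ht : volume K1 ≠ ⊤ := ne_top_of_le_ne_top hAt (measure_mono hs1)
    have h3 : volume B ≤ volume C - volume K1 := by
      rw [hB.measure_eq_iSup_isCompact volume]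
      refine iSup_le fun K2 => iSup_le fun hs2 => iSup_le fun h2 => ?_
      exact ENNReal.le_sub_of_add_le_left ht (hK K1 hs1 h1 K2 hs2 h2)
    exact add_le_of_le_tsub_left_of_le ((measure_mono hs1).trans hAC) h3
  have h3 : volume A ≤ volume C - volume B := by
    rw [hA.measure_eq_iSup_isCompact volume]
    refine iSup_le fun K1 => iSup_le fun hs1 => iSup_le fun h1 => ?_
    exact ENNReal.le_sub_of_add_le_right hBt (hK1B K1 hs1 h1)
  exact add_le_of_le_tsub_right_of_le hBC h3

/-- layer cake form of the line inequality -/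
theorem layer {u v h : ℝ → ℝ}
    (hu : Measurable u) (hv : Measurable v) (hh : Measurable h)
    (hu0 : ∀ x, 0 ≤ u x) (hv0 : ∀ x, 0 ≤ v x) (hh0 : ∀ x, 0 ≤ h x)
    (hu1 : ∀ x, u x ≤ 1) (hv1 : ∀ x, v x ≤ 1)
    (hus : ∀ t < 1, ∃ x, t < u x) (hvs : ∀ t < 1, ∃ x, t < v x)
    (H : ∀ x y, min (u x) (v y) ≤ h (x + y)) :
    (∫⁻ x, ENNReal.ofReal (u x)) + (∫⁻ x, ENNReal.ofReal (v x)) ≤ ∫⁻ x, ENNReal.ofReal (h x) := by
  rw [lintegral_eq_lintegral_meas_lt volume (Filter.Eventually.of_forall hu0) hu.aemeasurable,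
    lintegral_eq_lintegral_meas_lt volume (Filter.Eventually.of_forall hv0) hv.aemeasurable,
    lintegral_eq_lintegral_meas_lt volume (Filter.Eventually.of_forall hh0) hh.aemeasurable]
  have hanti : ∀ f : ℝ → ℝ, Measurable fun t => volume {a : ℝ | t < f a} := by
    intro f
    apply Antitone.measurable
    intro a b hab
    exact measure_mono fun x hx => lt_of_le_of_lt hab hx
  rw [← lintegral_add_left (hanti u)]
  apply setLIntegral_mono' measurableSet_Ioi
  intro t ht
  have ht0 : 0 < t := ht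
  rcases lt_or_ge t 1 with h1 | h1
  · refine bm_line (measurableSet_lt measurable_const hu)
      (measurableSet_lt measurable_const hv) (hus t h1) (hvs t h1) ?_
    intro a ha b hb
    have ha' : t < u a := ha
    have hb' : t < v b := hb
    show t < h (a + b)
    exact lt_of_lt_of_le (lt_min ha' hb') (H a b)
  · have e1 : {a : ℝ | t < u a} = ∅ := by
      ext x
      simp only [mem_setOf_eq, mem_empty_iff_false, iff_false, not_lt]
      exact (hu1 x).trans h1
    have e2 : {a : ℝ | t < v a} = ∅ := by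
      ext x
      simp only [mem_setOf_eq, mem_empty_iff_false, iff_false, not_lt]
      exact (hv1 x).trans h1
    rw [e1, e2]
    simp

theorem slice_compact {A : Set (ℝ × ℝ)} (hA : IsCompact A) (x : ℝ) :
    IsCompact (Prod.mk x ⁻¹' A) := by
  have h1 : IsClosed (Prod.mk x ⁻¹' A) := hA.isClosed.preimage (by fun_prop)
  have h2 : Prod.mk x ⁻¹' A ⊆ Prod.snd '' A := fun y hy => ⟨(x, y), hy, rfl⟩
  exact (hA.image continuous_snd).of_isClosed_subset h1 h2

theorem slice_bound {A : Set (ℝ × ℝ)} (x : ℝ) :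
    volume (Prod.mk x ⁻¹' A) ≤ volume (Prod.snd '' A) :=
  measure_mono fun y hy => ⟨(x, y), hy, rfl⟩

theorem vol_eq_slice {A : Set (ℝ × ℝ)} (hA : MeasurableSet A) :
    volume A = ∫⁻ x, volume (Prod.mk x ⁻¹' A) := by
  rw [Measure.volume_eq_prod, Measure.prod_apply hA]

theorem translate_le {A B C : Set (ℝ × ℝ)} (hAn : A.Nonempty)
    (h : ∀ a ∈ A, ∀ b ∈ B, a + b ∈ C) : volume B ≤ volume C := by
  obtain ⟨a, ha⟩ := hAn
  have h1 : (fun x => a + x) '' B ⊆ C := by
    rintro _ ⟨x, hx, rfl⟩
    exact h a ha x hx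
  have h2 := measure_mono (μ := (volume : Measure (ℝ × ℝ))) h1
  rwa [image_add_left, measure_preimage_add] at h2

/-- **Brunn-Minkowski in the plane.** -/
theorem bm_plane {A B C : Set (ℝ × ℝ)} (hA : IsCompact A) (hB : IsCompact B) (hC : IsCompact C)
    (hAn : A.Nonempty) (hBn : B.Nonempty) (h : ∀ a ∈ A, ∀ b ∈ B, a + b ∈ C) :
    √(volume A).toReal + √(volume B).toReal ≤ √(volume C).toReal := by
  have fA : volume A ≠ ⊤ := hA.measure_lt_top.ne
  have fB : volume B ≠ ⊤ := hB.measure_lt_top.ne
  have fC : volume C ≠ ⊤ := hC.measure_lt_top.ne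
  -- slices
  set u : ℝ → ℝ := fun x => (volume (Prod.mk x ⁻¹' A)).toReal with hu
  set v : ℝ → ℝ := fun x => (volume (Prod.mk x ⁻¹' B)).toReal with hv
  set w : ℝ → ℝ := fun x => (volume (Prod.mk x ⁻¹' C)).toReal with hw
  have mu : Measurable u := (measurable_measure_prodMk_left hA.measurableSet).ennreal_toReal
  have mv : Measurable v := (measurable_measure_prodMk_left hB.measurableSet).ennreal_toReal
  have mw : Measurable w := (measurable_measure_prodMk_left hC.measurableSet).ennreal_toReal
  have fin : ∀ {S : Set (ℝ × ℝ)}, IsCompact S → ∀ x, volume (Prod.mk x ⁻¹' S) ≠ ⊤ :=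
    fun hS x => (slice_compact hS x).measure_lt_top.ne
  have eA : volume A = ∫⁻ x, ENNReal.ofReal (u x) := by
    rw [vol_eq_slice hA.measurableSet]
    exact lintegral_congr fun x => (ENNReal.ofReal_toReal (fin hA x)).symm
  have eB : volume B = ∫⁻ x, ENNReal.ofReal (v x) := by
    rw [vol_eq_slice hB.measurableSet]
    exact lintegral_congr fun x => (ENNReal.ofReal_toReal (fin hB x)).symm
  have eC : volume C = ∫⁻ x, ENNReal.ofReal (w x) := by
    rw [vol_eq_slice hC.measurableSet]
    exact lintegral_congr fun x => (ENNReal.ofReal_toReal (fin hC x)).symm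
  have bd : ∀ {S : Set (ℝ × ℝ)}, IsCompact S →
      BddAbove (range fun x => (volume (Prod.mk x ⁻¹' S)).toReal) := by
    intro S hS
    refine ⟨(volume (Prod.snd '' S)).toReal, ?_⟩
    rintro _ ⟨x, rfl⟩
    exact ENNReal.toReal_mono (hS.image continuous_snd).measure_lt_top.ne (slice_bound x)
  set F := sSup (range u) with hF
  set G := sSup (range v) with hG
  have uF : ∀ x, u x ≤ F := fun x => le_csSup (bd hA) (mem_range_self x)
  have vG : ∀ x, v x ≤ G := fun x => le_csSup (bd hB) (mem_range_self x)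
  have u0 : ∀ x, 0 ≤ u x := fun x => ENNReal.toReal_nonneg
  have v0 : ∀ x, 0 ≤ v x := fun x => ENNReal.toReal_nonneg
  have w0 : ∀ x, 0 ≤ w x := fun x => ENNReal.toReal_nonneg
  rcases (u0 0 |>.trans (uF 0)).eq_or_lt with h0 | hFpos
  · have : ∀ x, u x = 0 := fun x => le_antisymm (h0 ▸ uF x) (u0 x)
    have hA0 : volume A = 0 := by rw [eA]; simp [this]
    rw [hA0]
    simp only [ENNReal.toReal_zero, Real.sqrt_zero, zero_add]
    exact Real.sqrt_le_sqrt (ENNReal.toReal_mono fC (translate_le hAn h))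
  rcases (v0 0 |>.trans (vG 0)).eq_or_lt with h0 | hGpos
  · have : ∀ x, v x = 0 := fun x => le_antisymm (h0 ▸ vG x) (v0 x)
    have hB0 : volume B = 0 := by rw [eB]; simp [this]
    rw [hB0]
    simp only [ENNReal.toReal_zero, Real.sqrt_zero, add_zero]
    refine Real.sqrt_le_sqrt (ENNReal.toReal_mono fC (translate_le hBn ?_))
    intro b hb a ha
    rw [add_comm]
    exact h a ha b hb
  have key := layer (u := fun x => u x / F) (v := fun x => v x / G) (h := fun x => w x / (F + G))
    (mu.div_const _) (mv.div_const _) (mw.div_const _)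
    (fun x => div_nonneg (u0 x) hFpos.le) (fun x => div_nonneg (v0 x) hGpos.le)
    (fun x => div_nonneg (w0 x) (add_pos hFpos hGpos).le)
    (fun x => (div_le_one hFpos).2 (uF x)) (fun x => (div_le_one hGpos).2 (vG x))
    (fun t ht => by
      obtain ⟨_, ⟨x, rfl⟩, hx⟩ := exists_lt_of_lt_csSup (range_nonempty u)
        (show t * F < sSup (range u) by rw [← hF]; nlinarith)
      exact ⟨x, by rw [lt_div_iff₀ hFpos]; exact hx⟩)
    (fun t ht => by
      obtain ⟨_, ⟨x, rfl⟩, hx⟩ := exists_lt_of_lt_csSup (range_nonempty v)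
        (show t * G < sSup (range v) by rw [← hG]; nlinarith)
      exact ⟨x, by rw [lt_div_iff₀ hGpos]; exact hx⟩)
    (fun x y => by
      rcases (u0 x).eq_or_lt with hx | hx
      · rw [← hx, zero_div]
        exact (min_le_left _ _).trans (div_nonneg (w0 _) (add_pos hFpos hGpos).le)
      rcases (v0 y).eq_or_lt with hy | hy
      · rw [← hy, zero_div]
        exact (min_le_right _ _).trans (div_nonneg (w0 _) (add_pos hFpos hGpos).le)
      have hsum : u x + v y ≤ w (x + y) := by
        have hb := bm_line (A := Prod.mk x ⁻¹' A) (B := Prod.mk y ⁻¹' B)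
          (C := Prod.mk (x + y) ⁻¹' C) (slice_compact hA x).measurableSet
          (slice_compact hB y).measurableSet
          (by
            rw [nonempty_iff_ne_empty]
            intro he
            simp only [hu, he, measure_empty, ENNReal.toReal_zero, lt_self_iff_false] at hx)
          (by
            rw [nonempty_iff_ne_empty]
            intro he
            simp only [hv, he, measure_empty, ENNReal.toReal_zero, lt_self_iff_false] at hy)
          (fun a ha b hb => by
            show (x + y, a + b) ∈ C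
            exact h (x, a) ha (y, b) hb)
        have := ENNReal.toReal_mono (fin hC (x + y)) hb
        rwa [ENNReal.toReal_add (fin hA x) (fin hB y)] at this
      refine le_trans ?_ (div_le_div_of_nonneg_right hsum (add_pos hFpos hGpos).le)
      rw [le_div_iff₀ (add_pos hFpos hGpos), mul_add]
      have h1 : min (u x / F) (v y / G) * F ≤ u x :=
        (mul_le_mul_of_nonneg_right (min_le_left _ _) hFpos.le).trans
          (by rw [div_mul_cancel₀ _ hFpos.ne'])
      have h2 : min (u x / F) (v y / G) * G ≤ v y :=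
        (mul_le_mul_of_nonneg_right (min_le_right _ _) hGpos.le).trans
          (by rw [div_mul_cancel₀ _ hGpos.ne'])
      linarith)
  have sc : ∀ (f : ℝ → ℝ), Measurable f → ∀ c : ℝ, 0 < c →
      ∫⁻ x, ENNReal.ofReal (f x / c) = ENNReal.ofReal c⁻¹ * ∫⁻ x, ENNReal.ofReal (f x) := by
    intro f hf c hc
    rw [← lintegral_const_mul _ hf.ennreal_ofReal]
    refine lintegral_congr fun x => ?_
    rw [← ENNReal.ofReal_mul (inv_nonneg.2 hc.le)]
    congr 1
    rw [div_eq_inv_mul]
  rw [sc u mu F hFpos, sc v mv G hGpos, sc w mw _ (add_pos hFpos hGpos), ← eA, ← eB, ← eC] at key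
  have key2 := ENNReal.toReal_mono (ENNReal.mul_ne_top ENNReal.ofReal_ne_top fC) key
  rw [ENNReal.toReal_add (ENNReal.mul_ne_top ENNReal.ofReal_ne_top fA)
    (ENNReal.mul_ne_top ENNReal.ofReal_ne_top fB), ENNReal.toReal_mul, ENNReal.toReal_mul,
    ENNReal.toReal_mul, ENNReal.toReal_ofReal (inv_nonneg.2 hFpos.le),
    ENNReal.toReal_ofReal (inv_nonneg.2 hGpos.le),
    ENNReal.toReal_ofReal (inv_nonneg.2 (add_pos hFpos hGpos).le)] at key2
  set a := (volume A).toReal with ha
  set b := (volume B).toReal with hb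
  set c := (volume C).toReal with hc
  have a0 : 0 ≤ a := ENNReal.toReal_nonneg
  have b0 : 0 ≤ b := ENNReal.toReal_nonneg
  have hFG : 0 < F + G := add_pos hFpos hGpos
  have key3 : (F + G) * (F⁻¹ * a + G⁻¹ * b) ≤ c := by
    have := mul_le_mul_of_nonneg_left key2 hFG.le
    rwa [← mul_assoc, mul_inv_cancel₀ hFG.ne', one_mul] at this
  apply Real.le_sqrt_of_sq_le
  refine le_trans ?_ key3
  have sa := Real.sq_sqrt a0
  have sb := Real.sq_sqrt b0
  set p := √a
  set q := √b
  have p0 : 0 ≤ p := Real.sqrt_nonneg _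
  have q0 : 0 ≤ q := Real.sqrt_nonneg _
  rw [← sa, ← sb]
  have : (F + G) * (F⁻¹ * p ^ 2 + G⁻¹ * q ^ 2) - (p + q) ^ 2 =
      (G * p - F * q) ^ 2 / (F * G) := by
    field_simp
    ring
  have h2 : 0 ≤ (G * p - F * q) ^ 2 / (F * G) := by positivity
  linarith

end Pool.Agent.FillVol
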