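import Pool.Agent.Work.MP_e09eef_gt.Zono

/-!
# The boundary curve: distances to two points of the circle
-/

set_option autoImplicit false

open Finset

namespace Pool.Agent.FillVol

theorem norm_small {x : ℝ} (hx : |x| ≤ Real.pi) : ‖(x : AddCircle (2 * Real.pi))‖ = |x| := by
  have hp : (0 : ℝ) < 2 * Real.pi := by positivity
  exact (AddCircle.norm_coe_eq_abs_iff (2 * Real.pi) hp.ne').2 (by
    rw [abs_of_pos hp]
    linarith)

theorem norm_large {x : ℝ} (h1 : Real.pi ≤ x) (h2 : x ≤ 2 * Real.pi) :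
    ‖(x : AddCircle (2 * Real.pi))‖ = 2 * Real.pi - x := by
  have e : (x : AddCircle (2 * Real.pi)) = ((x - 2 * Real.pi : ℝ) : AddCircle (2 * Real.pi)) := by
    rw [AddCircle.coe_sub, AddCircle.coe_period, sub_zero]
  rw [e, norm_small, abs_of_nonpos (by linarith)]
  · ring
  · rw [abs_of_nonpos (by linarith)]
    linarith

/-- distance on the circle between multiples of `π / H` -/
noncomputable def uu (H a k : ℕ) : ℝ :=
  dist (((k : ℝ) * (Real.pi / H) : ℝ) : AddCircle (2 * Real.pi))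
    (((a : ℝ) * (Real.pi / H) : ℝ) : AddCircle (2 * Real.pi))

theorem uu_eq (H a k : ℕ) : uu H a k =
    ‖((((k : ℝ) - a) * (Real.pi / H) : ℝ) : AddCircle (2 * Real.pi))‖ := by
  rw [uu, dist_eq_norm, ← AddCircle.coe_sub, sub_mul]

theorem uu1 {H a k : ℕ} (hH : 0 < H) (ha : a ≤ H) (hk : k ≤ a) :
    uu H a k = ((a : ℝ) - k) * (Real.pi / H) := by
  have hH' : (0 : ℝ) < H := by exact_mod_cast hH
  have ha' : (a : ℝ) ≤ H := by exact_mod_cast ha
  have hk' : (k : ℝ) ≤ a := by exact_mod_cast hk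
  have hk0 : (0 : ℝ) ≤ k := Nat.cast_nonneg k
  have hp := Real.pi_pos
  have e : |((k : ℝ) - a) * (Real.pi / H)| = ((a : ℝ) - k) * (Real.pi / H) := by
    rw [abs_mul, abs_of_nonpos (by linarith), abs_of_pos (by positivity)]
    ring
  rw [uu_eq, norm_small, e]
  rw [e, mul_div_assoc', div_le_iff₀ hH']
  nlinarith

theorem uu2 {H a k : ℕ} (hH : 0 < H) (hk : a ≤ k) (hk2 : k ≤ a + H) :
    uu H a k = ((k : ℝ) - a) * (Real.pi / H) := by
  have hH' : (0 : ℝ) < H := by exact_mod_cast hH
  have hk' : (a : ℝ) ≤ k := by exact_mod_cast hk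
  have hk2' : (k : ℝ) ≤ a + H := by exact_mod_cast hk2
  have hp := Real.pi_pos
  have e : |((k : ℝ) - a) * (Real.pi / H)| = ((k : ℝ) - a) * (Real.pi / H) := by
    rw [abs_of_nonneg]
    have : 0 ≤ (k : ℝ) - a := by linarith
    positivity
  rw [uu_eq, norm_small, e]
  rw [e, mul_div_assoc', div_le_iff₀ hH']
  nlinarith

theorem uu3 {H a k : ℕ} (hH : 0 < H) (hk : a + H ≤ k) (hk2 : k ≤ 2 * H) :
    uu H a k = (2 * (H : ℝ) + a - k) * (Real.pi / H) := by
  have hH' : (0 : ℝ) < H := by exact_mod_cast hH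
  have hk' : (a : ℝ) + H ≤ k := by exact_mod_cast hk
  have hk2' : (k : ℝ) ≤ 2 * H := by exact_mod_cast hk2
  have ha0 : (0 : ℝ) ≤ a := Nat.cast_nonneg a
  have hp := Real.pi_pos
  rw [uu_eq, norm_large]
  · field_simp
    ring
  · rw [mul_div_assoc', le_div_iff₀ hH']
    nlinarith
  · rw [mul_div_assoc', div_le_iff₀ hH']
    nlinarith

theorem sum_const_Ico {f : ℕ → ℝ} {p q : ℕ} {c : ℝ} (hpq : p ≤ q)
    (h : ∀ k, p ≤ k → k < q → f k = c) : ∑ k ∈ Ico p q, f k = ((q : ℝ) - p) * c := by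
  rw [Finset.sum_congr rfl (fun k hk => h k (Finset.mem_Ico.1 hk).1 (Finset.mem_Ico.1 hk).2),
    Finset.sum_const, Nat.card_Ico, nsmul_eq_mul, Nat.cast_sub hpq]

/-- the discrete boundary integral -/
theorem bdry {H a b : ℕ} (hH : 0 < H) (hab : a ≤ b) (hb : b < H) :
    ∑ k ∈ range (2 * H), cr (uu H a k, uu H b k) (uu H a (k + 1), uu H b (k + 1)) =
      4 * ((b : ℝ) - a) * (H - (b - a)) * (Real.pi / H) ^ 2 := by
  have hH' : (0 : ℝ) < H := by exact_mod_cast hH
  set w := Real.pi / (H : ℝ) with hw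
  have hbH : b ≤ a + H := by omega
  rw [range_eq_Ico, ← sum_Ico_consecutive _ (Nat.zero_le a) (by omega : a ≤ 2 * H),
    ← sum_Ico_consecutive _ hab (by omega : b ≤ 2 * H),
    ← sum_Ico_consecutive _ hbH (by omega : a + H ≤ 2 * H),
    ← sum_Ico_consecutive _ (by omega : a + H ≤ b + H) (by omega : b + H ≤ 2 * H)]
  rw [sum_const_Ico (c := ((b : ℝ) - a) * w ^ 2) (Nat.zero_le a),
    sum_const_Ico (c := -((b : ℝ) - a) * w ^ 2) hab,
    sum_const_Ico (c := ((b : ℝ) - a) * w ^ 2) hbH,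
    sum_const_Ico (c := (2 * (H : ℝ) - (b - a)) * w ^ 2) (by omega : a + H ≤ b + H),
    sum_const_Ico (c := ((b : ℝ) - a) * w ^ 2) (by omega : b + H ≤ 2 * H)]
  · push_cast
    ring
  · intro k h1 h2
    rw [uu3 hH (a := a) (k := k) (by omega) (by omega), uu3 hH (a := b) (k := k) (by omega) (by omega),
      uu3 hH (a := a) (k := k + 1) (by omega) (by omega),
      uu3 hH (a := b) (k := k + 1) (by omega) (by omega)]
    simp only [cr]
    push_cast
    ring
  · intro k h1 h2
    rw [uu3 hH (a := a) (k := k) (by omega) (by omega), uu2 hH (a := b) (k := k) (by omega) (by omega),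
      uu3 hH (a := a) (k := k + 1) (by omega) (by omega),
      uu2 hH (a := b) (k := k + 1) (by omega) (by omega)]
    simp only [cr]
    push_cast
    ring
  · intro k h1 h2
    rw [uu2 hH (a := a) (k := k) (by omega) (by omega), uu2 hH (a := b) (k := k) (by omega) (by omega),
      uu2 hH (a := a) (k := k + 1) (by omega) (by omega),
      uu2 hH (a := b) (k := k + 1) (by omega) (by omega)]
    simp only [cr]
    push_cast
    ring
  · intro k h1 h2
    rw [uu2 hH (a := a) (k := k) (by omega) (by omega), uu1 hH (a := b) (k := k) (by omega) (by omega),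
      uu2 hH (a := a) (k := k + 1) (by omega) (by omega),
      uu1 hH (a := b) (k := k + 1) (by omega) (by omega)]
    simp only [cr]
    push_cast
    ring
  · intro k h1 h2
    rw [uu1 hH (a := a) (k := k) (by omega) (by omega), uu1 hH (a := b) (k := k) (by omega) (by omega),
      uu1 hH (a := a) (k := k + 1) (by omega) (by omega),
      uu1 hH (a := b) (k := k + 1) (by omega) (by omega)]
    simp only [cr]
    push_cast
    ring

end Pool.Agent.FillVol
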