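import Pool.Agent.Work.MP_e09eef_gt.Zono

/-!
# A grid version of Stokes' theorem for Lipschitz maps of the square into the plane
-/

set_option autoImplicit false

open MeasureTheory Set Filter Topology
open scoped ENNReal NNReal

namespace Pool.Agent.FillVol

/-- the grid point `(k/n, l/n)` -/
noncomputable def gp (n k l : ℕ) : ℝ × ℝ := ((k : ℝ) / n, (l : ℝ) / n)

/-- signed area of the image quadrilateral of the grid cell `(k,l)` -/
noncomputable def qd (P : ℝ × ℝ → ℝ × ℝ) (n k l : ℕ) : ℝ :=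
  cr (P (gp n (k + 1) (l + 1)) - P (gp n k l)) (P (gp n k (l + 1)) - P (gp n (k + 1) l)) / 2

theorem sum_qd (P : ℝ × ℝ → ℝ × ℝ) (n : ℕ) :
    ∑ k ∈ Finset.range n, ∑ l ∈ Finset.range n, qd P n k l =
      (∑ k ∈ Finset.range n, cr (P (gp n k 0)) (P (gp n (k + 1) 0)) +
        ∑ l ∈ Finset.range n, cr (P (gp n n l)) (P (gp n n (l + 1))) -
        ∑ k ∈ Finset.range n, cr (P (gp n k n)) (P (gp n (k + 1) n)) -
        ∑ l ∈ Finset.range n, cr (P (gp n 0 l)) (P (gp n 0 (l + 1)))) / 2 := by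
  set X : ℕ → ℕ → ℝ := fun k l => cr (P (gp n k l)) (P (gp n (k + 1) l)) with hX
  set Y : ℕ → ℕ → ℝ := fun k l => cr (P (gp n k l)) (P (gp n k (l + 1))) with hY
  have h1 : ∀ k l, qd P n k l = ((X k l - X k (l + 1)) + (Y (k + 1) l - Y k l)) / 2 := by
    intro k l
    simp only [qd, hX, hY, cr]
    simp only [Prod.fst_sub, Prod.snd_sub]
    ring
  have h2 : ∑ k ∈ Finset.range n, ∑ l ∈ Finset.range n, (X k l - X k (l + 1)) =
      ∑ k ∈ Finset.range n, (X k 0 - X k n) :=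
    Finset.sum_congr rfl fun k _ => Finset.sum_range_sub' _ _
  have h3 : ∑ k ∈ Finset.range n, ∑ l ∈ Finset.range n, (Y (k + 1) l - Y k l) =
      ∑ l ∈ Finset.range n, (Y n l - Y 0 l) := by
    rw [Finset.sum_comm]
    exact Finset.sum_congr rfl fun l _ => Finset.sum_range_sub (fun k => Y k l) n
  simp_rw [h1]
  simp_rw [← Finset.sum_div, Finset.sum_add_distrib]
  rw [h2, h3, Finset.sum_sub_distrib, Finset.sum_sub_distrib]
  ring

/-- the grid cell -/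
def cell (n k l : ℕ) : Set (ℝ × ℝ) :=
  Ioc ((k : ℝ) / n) ((k + 1 : ℕ) / n) ×ˢ Ioc ((l : ℝ) / n) ((l + 1 : ℕ) / n)

theorem cell_meas (n k l : ℕ) : MeasurableSet (cell n k l) :=
  measurableSet_Ioc.prod measurableSet_Ioc

theorem cell_vol {n : ℕ} (hn : 0 < n) (k l : ℕ) : (volume (cell n k l)).toReal = 1 / (n : ℝ) ^ 2 := by
  have hn' : (0 : ℝ) < n := by exact_mod_cast hn
  rw [cell, Measure.volume_eq_prod, Measure.prod_prod, Real.volume_Ioc, Real.volume_Ioc]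
  have h : ∀ k : ℕ, ((k + 1 : ℕ) : ℝ) / n - k / n = 1 / n := by
    intro k; push_cast; field_simp; ring
  rw [h, h, ENNReal.toReal_mul, ENNReal.toReal_ofReal (by positivity)]
  field_simp

theorem mem_cell {n : ℕ} (hn : 0 < n) {x : ℝ × ℝ} {k l : ℕ} :
    x ∈ cell n k l ↔ ((k : ℝ) < n * x.1 ∧ n * x.1 ≤ k + 1) ∧ ((l : ℝ) < n * x.2 ∧ n * x.2 ≤ l + 1) := by
  have hn' : (0 : ℝ) < n := by exact_mod_cast hn
  simp only [cell, mem_prod, mem_Ioc]
  rw [div_lt_iff₀ hn', div_lt_iff₀ hn', le_div_iff₀ hn', le_div_iff₀ hn']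
  push_cast
  rw [mul_comm x.1, mul_comm x.2]

/-- the index of the cell -/
noncomputable def ix (n : ℕ) (t : ℝ) : ℕ := ⌈(n : ℝ) * t⌉₊ - 1

theorem ix_spec {n : ℕ} (hn : 0 < n) {t : ℝ} (ht : t ∈ Ioc (0 : ℝ) 1) :
    ((ix n t : ℕ) : ℝ) < n * t ∧ n * t ≤ ix n t + 1 ∧ ix n t < n := by
  have hn' : (0 : ℝ) < n := by exact_mod_cast hn
  have hpos : 0 < (n : ℝ) * t := mul_pos hn' ht.1
  have h1 : 0 < ⌈(n : ℝ) * t⌉₊ := Nat.ceil_pos.2 hpos
  obtain ⟨m, hm⟩ : ∃ m, ⌈(n : ℝ) * t⌉₊ = m + 1 := ⟨_, (Nat.succ_pred_eq_of_pos h1).symm⟩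
  have hix : ix n t = m := by rw [ix, hm]; rfl
  rw [hix]
  refine ⟨?_, ?_, ?_⟩
  · rw [← Nat.lt_ceil, hm]
    exact Nat.lt_succ_self m
  · have := Nat.le_ceil ((n : ℝ) * t)
    rw [hm] at this
    exact_mod_cast this
  · have h2 : ⌈(n : ℝ) * t⌉₊ ≤ n := by
      rw [Nat.ceil_le]
      nlinarith [ht.2]
    omega

theorem ix_unique {n : ℕ} {t : ℝ} {k : ℕ} (h1 : (k : ℝ) < n * t)
    (h2 : n * t ≤ k + 1) : k = ix n t := by
  have : ⌈(n : ℝ) * t⌉₊ = k + 1 := by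
    rw [Nat.ceil_eq_iff (by omega)]
    push_cast
    exact ⟨by simpa using h1, h2⟩
  rw [ix, this]
  rfl

/-- the step function of signed densities -/
noncomputable def Fn (P : ℝ × ℝ → ℝ × ℝ) (n : ℕ) (x : ℝ × ℝ) : ℝ :=
  ∑ k ∈ Finset.range n, ∑ l ∈ Finset.range n,
    (cell n k l).indicator (fun _ => (n : ℝ) ^ 2 * qd P n k l) x

theorem Fn_eq (P : ℝ × ℝ → ℝ × ℝ) {n : ℕ} (hn : 0 < n) {x : ℝ × ℝ}
    (hx : x ∈ Ioc (0 : ℝ) 1 ×ˢ Ioc (0 : ℝ) 1) :
    Fn P n x = (n : ℝ) ^ 2 * qd P n (ix n x.1) (ix n x.2) := by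
  obtain ⟨h1, h2, h3⟩ := ix_spec hn hx.1
  obtain ⟨g1, g2, g3⟩ := ix_spec hn hx.2
  rw [Fn, Finset.sum_eq_single (ix n x.1), Finset.sum_eq_single (ix n x.2),
    indicator_of_mem ((mem_cell hn).2 ⟨⟨h1, h2⟩, ⟨g1, g2⟩⟩)]
  · intro l _ hl
    rw [indicator_of_notMem]
    intro hmem
    obtain ⟨-, a, b⟩ := (mem_cell hn).1 hmem
    exact hl (ix_unique a b)
  · intro h
    exact absurd (Finset.mem_range.2 g3) h
  · intro k _ hk
    refine Finset.sum_eq_zero fun l _ => ?_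
    rw [indicator_of_notMem]
    intro hmem
    obtain ⟨⟨a, b⟩, -⟩ := (mem_cell hn).1 hmem
    exact hk (ix_unique a b)
  · intro h
    exact absurd (Finset.mem_range.2 h3) h

theorem Fn_meas (P : ℝ × ℝ → ℝ × ℝ) (n : ℕ) : Measurable (Fn P n) :=
  Finset.measurable_sum _ fun _ _ => Finset.measurable_sum _ fun _ _ =>
    measurable_const.indicator (cell_meas _ _ _)

theorem cell_sub {n k l : ℕ} (hn : 0 < n) (hk : k < n) (hl : l < n) :
    cell n k l ⊆ Ioc (0 : ℝ) 1 ×ˢ Ioc (0 : ℝ) 1 := by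
  have hn' : (0 : ℝ) < n := by exact_mod_cast hn
  intro x hx
  obtain ⟨⟨h1, h2⟩, ⟨h3, h4⟩⟩ := (mem_cell hn).1 hx
  have hk' : (k : ℝ) + 1 ≤ n := by exact_mod_cast hk
  have hl' : (l : ℝ) + 1 ≤ n := by exact_mod_cast hl
  have k0 : (0 : ℝ) ≤ k := Nat.cast_nonneg k
  have l0 : (0 : ℝ) ≤ l := Nat.cast_nonneg l
  refine ⟨⟨?_, ?_⟩, ⟨?_, ?_⟩⟩
  · by_contra h
    push Not at h
    nlinarith
  · by_contra h
    push Not at h
    nlinarith
  · by_contra h
    push Not at h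
    nlinarith
  · by_contra h
    push Not at h
    nlinarith

theorem integral_Fn (P : ℝ × ℝ → ℝ × ℝ) {n : ℕ} (hn : 0 < n) :
    ∫ x in Ioc (0 : ℝ) 1 ×ˢ Ioc (0 : ℝ) 1, Fn P n x =
      ∑ k ∈ Finset.range n, ∑ l ∈ Finset.range n, qd P n k l := by
  have hn' : (0 : ℝ) < n := by exact_mod_cast hn
  have hfin : volume (Ioc (0 : ℝ) 1 ×ˢ Ioc (0 : ℝ) 1) ≠ ⊤ := by
    rw [Measure.volume_eq_prod, Measure.prod_prod]
    simp
  have hint : ∀ k l, Integrable ((cell n k l).indicator (fun _ => (n : ℝ) ^ 2 * qd P n k l))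
      (volume.restrict (Ioc (0 : ℝ) 1 ×ˢ Ioc (0 : ℝ) 1)) := by
    intro k l
    refine IntegrableOn.integrable_indicator ?_ (cell_meas n k l)
    rw [IntegrableOn]
    haveI : IsFiniteMeasure (volume.restrict (Ioc (0 : ℝ) 1 ×ˢ Ioc (0 : ℝ) 1)) :=
      ⟨by rw [Measure.restrict_apply_univ]; exact lt_top_iff_ne_top.2 hfin⟩
    exact integrable_const _
  unfold Fn
  rw [integral_finsetSum _ fun k _ => integrable_finsetSum _ fun l _ => hint k l]
  refine Finset.sum_congr rfl fun k hk => ?_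
  rw [integral_finsetSum _ fun l _ => hint k l]
  refine Finset.sum_congr rfl fun l hl => ?_
  rw [integral_indicator (cell_meas n k l), setIntegral_const, smul_eq_mul]
  have : (volume.restrict (Ioc (0 : ℝ) 1 ×ˢ Ioc (0 : ℝ) 1)).real (cell n k l) =
      1 / (n : ℝ) ^ 2 := by
    rw [measureReal_def, Measure.restrict_apply (cell_meas n k l),
      inter_eq_left.2 (cell_sub hn (Finset.mem_range.1 hk) (Finset.mem_range.1 hl)),
      cell_vol hn]
  rw [this]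
  field_simp

/-- difference quotients along comparable grids -/
theorem diff_quot {P : ℝ × ℝ → ℝ × ℝ} {x : ℝ × ℝ} {L : (ℝ × ℝ) →L[ℝ] (ℝ × ℝ)}
    (hP : HasFDerivAt P L x) (c c' : ℕ → ℝ × ℝ) (hc : ∀ n : ℕ, 0 < n → ‖c n - x‖ ≤ 1 / (n : ℝ))
    (hc' : ∀ n : ℕ, 0 < n → ‖c' n - x‖ ≤ 1 / (n : ℝ)) (v : ℝ × ℝ)
    (hv : ∀ n : ℕ, 0 < n → (n : ℝ) • (c n - c' n) = v) :
    Tendsto (fun n : ℕ => (n : ℝ) • (P (c n) - P (c' n))) atTop (𝓝 (L v)) := by
  have key : ∀ e : ℕ → ℝ × ℝ, (∀ n : ℕ, 0 < n → ‖e n - x‖ ≤ 1 / (n : ℝ)) →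
      Tendsto (fun n : ℕ => (n : ℝ) • (P (e n) - P x - L (e n - x))) atTop (𝓝 0) := by
    intro e he
    have hex : Tendsto e atTop (𝓝 x) := by
      rw [tendsto_iff_norm_sub_tendsto_zero]
      refine squeeze_zero' (Eventually.of_forall fun _ => norm_nonneg _) ?_
        tendsto_one_div_atTop_nhds_zero_nat
      filter_upwards [eventually_gt_atTop 0] with n hn
      exact he n hn
    have ho := hP.isLittleO.comp_tendsto hex
    rw [tendsto_zero_iff_norm_tendsto_zero]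
    rw [Metric.tendsto_atTop]
    intro ε hε
    have hb := ho.def (half_pos hε)
    obtain ⟨n0, hn0⟩ := eventually_atTop.1 hb
    refine ⟨max n0 1, fun n hn => ?_⟩
    have hn1 : n0 ≤ n := (le_max_left _ _).trans hn
    have hn2 : 0 < n := lt_of_lt_of_le one_pos ((le_max_right _ _).trans hn)
    have hn' : (0 : ℝ) < n := by exact_mod_cast hn2
    have h1 := hn0 n hn1
    simp only [Function.comp] at h1
    have h2 := he n hn2
    rw [Real.dist_eq, sub_zero, abs_norm, norm_smul, Real.norm_eq_abs, abs_of_pos hn']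
    calc (n : ℝ) * ‖P (e n) - P x - L (e n - x)‖ ≤ n * (ε / 2 * (1 / n)) := by
          gcongr
          exact h1.trans (by gcongr)
      _ = ε / 2 := by field_simp
      _ < ε := by linarith
  have h1 := key c hc
  have h2 := key c' hc'
  have h3 := (h1.sub h2).add (tendsto_const_nhds (x := L v))
  rw [sub_zero, zero_add] at h3
  refine h3.congr' ?_
  filter_upwards [eventually_gt_atTop 0] with n hn
  rw [← hv n hn, ← smul_sub, map_smul, ← smul_add]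
  congr 1
  rw [map_sub, map_sub, map_sub]
  abel

theorem cr_cont2 : Continuous fun p : (ℝ × ℝ) × (ℝ × ℝ) => cr p.1 p.2 := by
  unfold cr; fun_prop

theorem gp_near {n : ℕ} (hn : 0 < n) {t : ℝ} {k : ℕ} (h1 : (k : ℝ) < n * t)
    (h2 : n * t ≤ k + 1) : |(k : ℝ) / n - t| ≤ 1 / n ∧ |((k + 1 : ℕ) : ℝ) / n - t| ≤ 1 / n := by
  have hn' : (0 : ℝ) < n := by exact_mod_cast hn
  push_cast
  constructor
  · rw [abs_le]
    constructor
    · rw [neg_le_sub_iff_le_add, ← add_div, le_div_iff₀ hn']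
      linarith
    · rw [sub_le_iff_le_add, div_le_iff₀ hn', add_mul, one_div, inv_mul_cancel₀ hn'.ne']
      linarith
  · rw [abs_le]
    constructor
    · rw [neg_le_sub_iff_le_add, ← add_div, le_div_iff₀ hn']
      linarith
    · rw [sub_le_iff_le_add, div_le_iff₀ hn', add_mul, one_div, inv_mul_cancel₀ hn'.ne']
      linarith

theorem Fn_tendsto {P : ℝ × ℝ → ℝ × ℝ} {x : ℝ × ℝ}
    (hx : x ∈ Ioc (0 : ℝ) 1 ×ˢ Ioc (0 : ℝ) 1) (hP : DifferentiableAt ℝ P x) :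
    Tendsto (fun n => Fn P n x) atTop
      (𝓝 (cr (fderiv ℝ P x (1, 0)) (fderiv ℝ P x (0, 1)))) := by
  set L := fderiv ℝ P x with hL
  have hD : HasFDerivAt P L x := hP.hasFDerivAt
  set k : ℕ → ℕ := fun n => ix n x.1
  set l : ℕ → ℕ := fun n => ix n x.2
  have hnear : ∀ n : ℕ, 0 < n → ∀ a b : ℕ, (a = k n ∨ a = k n + 1) → (b = l n ∨ b = l n + 1) →
      ‖gp n a b - x‖ ≤ 1 / (n : ℝ) := by
    intro n hn a b ha hb
    obtain ⟨h1, h2, -⟩ := ix_spec hn hx.1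
    obtain ⟨g1, g2, -⟩ := ix_spec hn hx.2
    obtain ⟨p1, p2⟩ := gp_near hn h1 h2
    obtain ⟨q1, q2⟩ := gp_near hn g1 g2
    rw [Prod.norm_def, max_le_iff]
    constructor
    · rcases ha with rfl | rfl
      · exact p1
      · exact p2
    · rcases hb with rfl | rfl
      · exact q1
      · exact q2
  have hu := diff_quot hD (fun n => gp n (k n + 1) (l n + 1)) (fun n => gp n (k n) (l n))
    (fun n hn => hnear n hn _ _ (Or.inr rfl) (Or.inr rfl))
    (fun n hn => hnear n hn _ _ (Or.inl rfl) (Or.inl rfl)) (1, 1) (by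
      intro n hn
      have hn' : (n : ℝ) ≠ 0 := by exact_mod_cast hn.ne'
      ext
      · simp [gp]; field_simp; ring
      · simp [gp]; field_simp; ring)
  have hv := diff_quot hD (fun n => gp n (k n) (l n + 1)) (fun n => gp n (k n + 1) (l n))
    (fun n hn => hnear n hn _ _ (Or.inl rfl) (Or.inr rfl))
    (fun n hn => hnear n hn _ _ (Or.inr rfl) (Or.inl rfl)) (-1, 1) (by
      intro n hn
      have hn' : (n : ℝ) ≠ 0 := by exact_mod_cast hn.ne'
      ext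
      · simp [gp]; field_simp; ring
      · simp [gp]; field_simp; ring)
  have hlim := ((cr_cont2.tendsto (L (1, 1), L (-1, 1))).comp (hu.prodMk_nhds hv)).div_const 2
  have e : cr (L (1, 1)) (L (-1, 1)) / 2 = cr (L (1, 0)) (L (0, 1)) := by
    have e1 : L (1, 1) = L (1, 0) + L (0, 1) := by rw [← map_add]; simp
    have e2 : L (-1, 1) = -L (1, 0) + L (0, 1) := by rw [← map_neg, ← map_add]; simp
    rw [e1, e2]
    simp only [cr, Prod.fst_add, Prod.snd_add, Prod.fst_neg, Prod.snd_neg]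
    ring
  simp only [Function.comp_def] at hlim
  rw [e] at hlim
  refine hlim.congr' ?_
  filter_upwards [eventually_gt_atTop 0] with n hn
  rw [Fn_eq P hn hx, qd]
  simp only [cr, Prod.smul_fst, Prod.smul_snd, smul_eq_mul]
  ring

theorem cr_le (a b : ℝ × ℝ) : |cr a b| ≤ 2 * (‖a‖ * ‖b‖) := by
  have h1 : |a.1| ≤ ‖a‖ := norm_fst_le a
  have h2 : |a.2| ≤ ‖a‖ := norm_snd_le a
  have h3 : |b.1| ≤ ‖b‖ := norm_fst_le b
  have h4 : |b.2| ≤ ‖b‖ := norm_snd_le b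
  rw [cr]
  calc |a.1 * b.2 - a.2 * b.1| ≤ |a.1 * b.2| + |a.2 * b.1| := abs_sub _ _
    _ = |a.1| * |b.2| + |a.2| * |b.1| := by rw [abs_mul, abs_mul]
    _ ≤ ‖a‖ * ‖b‖ + ‖a‖ * ‖b‖ := by gcongr
    _ = _ := by ring

theorem Fn_bound {P : ℝ × ℝ → ℝ × ℝ} {K : ℝ≥0} (hP : LipschitzWith K P) {n : ℕ} (hn : 0 < n)
    {x : ℝ × ℝ} (hx : x ∈ Ioc (0 : ℝ) 1 ×ˢ Ioc (0 : ℝ) 1) : ‖Fn P n x‖ ≤ (K : ℝ) ^ 2 := by
  have hn' : (0 : ℝ) < n := by exact_mod_cast hn
  rw [Fn_eq P hn hx, qd]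
  set k := ix n x.1
  set l := ix n x.2
  have h1 : ‖P (gp n (k + 1) (l + 1)) - P (gp n k l)‖ ≤ K * (1 / n) := by
    refine (hP.norm_sub_le _ _).trans ?_
    gcongr
    rw [Prod.norm_def, max_le_iff]
    constructor
    · simp only [gp, Prod.fst_sub]
      rw [Real.norm_eq_abs, abs_le]
      push_cast
      constructor <;> · field_simp; linarith
    · simp only [gp, Prod.snd_sub]
      rw [Real.norm_eq_abs, abs_le]
      push_cast
      constructor <;> · field_simp; linarith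
  have h2 : ‖P (gp n k (l + 1)) - P (gp n (k + 1) l)‖ ≤ K * (1 / n) := by
    refine (hP.norm_sub_le _ _).trans ?_
    gcongr
    rw [Prod.norm_def, max_le_iff]
    constructor
    · simp only [gp, Prod.fst_sub]
      rw [Real.norm_eq_abs, abs_le]
      push_cast
      constructor <;> · field_simp; linarith
    · simp only [gp, Prod.snd_sub]
      rw [Real.norm_eq_abs, abs_le]
      push_cast
      constructor <;> · field_simp; linarith
  rw [Real.norm_eq_abs, abs_mul, abs_of_nonneg (by positivity : (0 : ℝ) ≤ (n : ℝ) ^ 2), abs_div,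
    abs_two]
  have h3 := cr_le (P (gp n (k + 1) (l + 1)) - P (gp n k l))
    (P (gp n k (l + 1)) - P (gp n (k + 1) l))
  have h4 : ‖P (gp n (k + 1) (l + 1)) - P (gp n k l)‖ *
      ‖P (gp n k (l + 1)) - P (gp n (k + 1) l)‖ ≤ (K * (1 / n)) * (K * (1 / n)) := by gcongr
  calc (n : ℝ) ^ 2 * (|cr (P (gp n (k + 1) (l + 1)) - P (gp n k l))
        (P (gp n k (l + 1)) - P (gp n (k + 1) l))| / 2)
      ≤ (n : ℝ) ^ 2 * ((2 * ((K * (1 / n)) * (K * (1 / n)))) / 2) := by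
        gcongr
        exact h3.trans (by gcongr)
    _ = _ := by field_simp

/-- **Grid Stokes.** -/
theorem stokes {P : ℝ × ℝ → ℝ × ℝ} {K : ℝ≥0} (hP : LipschitzWith K P) :
    Tendsto (fun n : ℕ => ∑ k ∈ Finset.range n, ∑ l ∈ Finset.range n, qd P n k l) atTop
      (𝓝 (∫ x in Ioc (0 : ℝ) 1 ×ˢ Ioc (0 : ℝ) 1,
        cr (fderiv ℝ P x (1, 0)) (fderiv ℝ P x (0, 1)))) := by
  have hms : MeasurableSet (Ioc (0 : ℝ) 1 ×ˢ Ioc (0 : ℝ) 1) :=
    measurableSet_Ioc.prod measurableSet_Ioc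
  have hfin : volume (Ioc (0 : ℝ) 1 ×ˢ Ioc (0 : ℝ) 1) ≠ ⊤ := by
    rw [Measure.volume_eq_prod, Measure.prod_prod]
    simp
  haveI : IsFiniteMeasure (volume.restrict (Ioc (0 : ℝ) 1 ×ˢ Ioc (0 : ℝ) 1)) :=
    ⟨by rw [Measure.restrict_apply_univ]; exact lt_top_iff_ne_top.2 hfin⟩
  have hdc : Tendsto (fun n : ℕ => ∫ x in Ioc (0 : ℝ) 1 ×ˢ Ioc (0 : ℝ) 1, Fn P (n + 1) x) atTop
      (𝓝 (∫ x in Ioc (0 : ℝ) 1 ×ˢ Ioc (0 : ℝ) 1,
        cr (fderiv ℝ P x (1, 0)) (fderiv ℝ P x (0, 1)))) := by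
    refine tendsto_integral_of_dominated_convergence (fun _ => (K : ℝ) ^ 2)
      (fun n => (Fn_meas P (n + 1)).aestronglyMeasurable) (integrable_const _) ?_ ?_
    · intro n
      filter_upwards [ae_restrict_mem hms] with x hx
      exact Fn_bound hP (Nat.succ_pos n) hx
    · filter_upwards [ae_restrict_mem hms, ae_restrict_of_ae hP.ae_differentiableAt] with x hx hd
      exact (Fn_tendsto hx hd).comp (tendsto_add_atTop_nat 1)
  rw [← tendsto_add_atTop_iff_nat 1]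
  refine hdc.congr fun n => ?_
  exact integral_Fn P (Nat.succ_pos n)

end Pool.Agent.FillVol
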