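import Pool.Agent.Work.MP_e09eef_gt.Area3
import Pool.Agent.Work.MP_e09eef_gt.Stokes
import Pool.Agent.Work.MP_e09eef_gt.Bdry

/-!
# The chain identity and the pairing with two coordinates
-/

set_option autoImplicit false

open MeasureTheory Set Filter Topology
open scoped ENNReal NNReal

namespace Pool.Agent.FillVol

/-- the space of bounded functions on the circle -/
abbrev EE := lp (fun _ : AddCircle (2 * Real.pi) => ℝ) (⊤ : ENNReal)

/-- the square onto the simplex -/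
def chi (x : ℝ × ℝ) : Fin 3 → ℝ := ![1 - x.1, x.1 * (1 - x.2), x.1 * x.2]

/-- the closed square -/
abbrev SqC : Set (ℝ × ℝ) := Icc (0 : ℝ) 1 ×ˢ Icc (0 : ℝ) 1

/-- the half open square -/
abbrev SqO : Set (ℝ × ℝ) := Ioc (0 : ℝ) 1 ×ˢ Ioc (0 : ℝ) 1

theorem SqO_sub : SqO ⊆ SqC := prod_mono Ioc_subset_Icc_self Ioc_subset_Icc_self

theorem chi_mem {x : ℝ × ℝ} (hx : x ∈ SqC) : chi x ∈ stdSimplex ℝ (Fin 3) := by
  obtain ⟨⟨h1, h2⟩, ⟨h3, h4⟩⟩ := hx
  refine ⟨?_, ?_⟩
  · intro i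
    fin_cases i
    · show 0 ≤ 1 - x.1
      linarith
    · show 0 ≤ x.1 * (1 - x.2)
      exact mul_nonneg h1 (by linarith)
    · show 0 ≤ x.1 * x.2
      exact mul_nonneg h1 h3
  · rw [Fin.sum_univ_three]
    show 1 - x.1 + x.1 * (1 - x.2) + x.1 * x.2 = 1
    ring

theorem chi_inj : InjOn chi SqO := by
  rintro x ⟨⟨h1, h2⟩, ⟨h3, h4⟩⟩ y ⟨⟨g1, g2⟩, ⟨g3, g4⟩⟩ hxy
  have e0 : 1 - x.1 = 1 - y.1 := congrFun hxy 0
  have e2 : x.1 * x.2 = y.1 * y.2 := congrFun hxy 2
  have e1 : x.1 = y.1 := by linarith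
  have e3 : x.2 = y.2 := by
    rw [e1] at e2
    exact mul_left_cancel₀ g1.ne' e2
  exact Prod.ext e1 e3

theorem chi_lip : LipschitzOnWith 2 chi SqC := by
  refine LipschitzOnWith.of_dist_le_mul fun x hx y hy => ?_
  obtain ⟨⟨h1, h2⟩, ⟨h3, h4⟩⟩ := hx
  obtain ⟨⟨g1, g2⟩, ⟨g3, g4⟩⟩ := hy
  have d1 : |x.1 - y.1| ≤ dist x y := by
    rw [← Real.dist_eq]; exact le_max_left _ _
  have d2 : |x.2 - y.2| ≤ dist x y := by
    rw [← Real.dist_eq]; exact le_max_right _ _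
  have d0 : 0 ≤ dist x y := dist_nonneg
  have c2 : ((2 : ℝ≥0) : ℝ) = 2 := rfl
  rw [c2, dist_pi_le_iff (by positivity)]
  intro i
  fin_cases i
  · show dist (1 - x.1) (1 - y.1) ≤ _
    rw [Real.dist_eq]
    have : 1 - x.1 - (1 - y.1) = -(x.1 - y.1) := by ring
    rw [this, abs_neg]
    linarith
  · show dist (x.1 * (1 - x.2)) (y.1 * (1 - y.2)) ≤ _
    rw [Real.dist_eq]
    have : x.1 * (1 - x.2) - y.1 * (1 - y.2) = (x.1 - y.1) * (1 - x.2) + y.1 * (-(x.2 - y.2)) := by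
      ring
    rw [this]
    refine (abs_add_le _ _).trans ?_
    rw [abs_mul, abs_mul, abs_neg, abs_of_nonneg (by linarith : 0 ≤ 1 - x.2), abs_of_nonneg g1]
    nlinarith [abs_nonneg (x.1 - y.1), abs_nonneg (x.2 - y.2)]
  · show dist (x.1 * x.2) (y.1 * y.2) ≤ _
    rw [Real.dist_eq]
    have : x.1 * x.2 - y.1 * y.2 = (x.1 - y.1) * x.2 + y.1 * (x.2 - y.2) := by
      ring
    rw [this]
    refine (abs_add_le _ _).trans ?_
    rw [abs_mul, abs_mul, abs_of_nonneg h3, abs_of_nonneg g1]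
    nlinarith [abs_nonneg (x.1 - y.1), abs_nonneg (x.2 - y.2)]

theorem ev_lip (p : AddCircle (2 * Real.pi)) (y z : EE) : |y p - z p| ≤ dist y z := by
  have h := lp.norm_apply_le_norm ENNReal.top_ne_zero (y - z) p
  rw [lp.coeFn_sub, Pi.sub_apply] at h
  rw [dist_eq_norm y z]
  exact h

/-- sample points -/
noncomputable def pp (N i : ℕ) : AddCircle (2 * Real.pi) :=
  (((i : ℝ) * (Real.pi / N) : ℝ) : AddCircle (2 * Real.pi))

theorem exists_G (N : ℕ) {σ : (Fin 3 → ℝ) → EE}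
    (hσ : ∃ K, LipschitzOnWith K σ (stdSimplex ℝ (Fin 3))) :
    ∃ (G : ℝ × ℝ → Fin N → ℝ) (K : ℝ≥0), LipschitzWith K G ∧
      ∀ x ∈ SqC, ∀ i : Fin N, G x i = σ (chi x) (pp N i) := by
  obtain ⟨K, hK⟩ := hσ
  have hcomp : LipschitzOnWith (K * 2) (σ ∘ chi) SqC := hK.comp chi_lip fun x hx => chi_mem hx
  have hG : LipschitzOnWith (K * 2) (fun x => fun i : Fin N => σ (chi x) (pp N i)) SqC := by
    refine LipschitzOnWith.of_dist_le_mul fun x hx y hy => ?_
    have h := hcomp.dist_le_mul x hx y hy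
    rw [dist_pi_le_iff (by positivity)]
    intro i
    rw [Real.dist_eq]
    exact (ev_lip _ _ _).trans h
  obtain ⟨g, hg, hgE⟩ := hG.extend_pi
  exact ⟨g, K * 2, hg, fun x hx i => (congrFun (hgE hx) i).symm⟩

/-- the face inclusions -/
def face (i : Fin 3) (x : Fin 2 → ℝ) : Fin 3 → ℝ :=
  fun k : Fin 3 => ∑ j : Fin 2, if i.succAbove j = k then x j else (0 : ℝ)

theorem face0 (u v : ℝ) : face 0 ![u, v] = ![0, u, v] := by
  have h0 : (0 : Fin 3).succAbove (0 : Fin 2) = 1 := rfl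
  have h1 : (0 : Fin 3).succAbove (1 : Fin 2) = 2 := rfl
  ext k
  rw [face, Fin.sum_univ_two, h0, h1]
  fin_cases k <;> simp

theorem face1 (u v : ℝ) : face 1 ![u, v] = ![u, 0, v] := by
  have h0 : (1 : Fin 3).succAbove (0 : Fin 2) = 0 := rfl
  have h1 : (1 : Fin 3).succAbove (1 : Fin 2) = 2 := rfl
  ext k
  rw [face, Fin.sum_univ_two, h0, h1]
  fin_cases k <;> simp

theorem face2 (u v : ℝ) : face 2 ![u, v] = ![u, v, 0] := by
  have h0 : (2 : Fin 3).succAbove (0 : Fin 2) = 0 := rfl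
  have h1 : (2 : Fin 3).succAbove (1 : Fin 2) = 1 := rfl
  ext k
  rw [face, Fin.sum_univ_two, h0, h1]
  fin_cases k <;> simp

/-- subdivision points of the interval -/
noncomputable def pt (n k : ℕ) : Fin 2 → ℝ := ![1 - (k : ℝ) / n, (k : ℝ) / n]

theorem pt_mem {n k : ℕ} (hn : 0 < n) (hk : k ≤ n) : pt n k ∈ stdSimplex ℝ (Fin 2) := by
  have hn' : (0 : ℝ) < n := by exact_mod_cast hn
  have hk' : (k : ℝ) ≤ n := by exact_mod_cast hk
  have h1 : (k : ℝ) / n ≤ 1 := by rw [div_le_one hn']; exact hk'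
  refine ⟨?_, ?_⟩
  · intro i
    fin_cases i
    · show 0 ≤ 1 - (k : ℝ) / n
      linarith
    · show 0 ≤ (k : ℝ) / n
      positivity
  · rw [Fin.sum_univ_two]
    show 1 - (k : ℝ) / n + (k : ℝ) / n = 1
    ring

open Classical in
/-- extension of a function on the 1-simplex -/
noncomputable def exg (γ : stdSimplex ℝ (Fin 2) → EE) (x : Fin 2 → ℝ) : EE :=
  if h : x ∈ stdSimplex ℝ (Fin 2) then γ ⟨x, h⟩ else 0

theorem exg_restrict (g : (Fin 2 → ℝ) → EE) {x : Fin 2 → ℝ} (hx : x ∈ stdSimplex ℝ (Fin 2)) :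
    exg ((stdSimplex ℝ (Fin 2)).restrict g) x = g x := by
  rw [exg, dif_pos hx]
  rfl

/-- the discrete boundary functional of a path -/
noncomputable def psi (p q : AddCircle (2 * Real.pi)) (n : ℕ)
    (γ : stdSimplex ℝ (Fin 2) → EE) : ℝ :=
  ∑ k ∈ Finset.range n, cr (exg γ (pt n k) p, exg γ (pt n k) q)
    (exg γ (pt n (k + 1)) p, exg γ (pt n (k + 1)) q)

theorem psi_restrict (p q : AddCircle (2 * Real.pi)) {n : ℕ} (hn : 0 < n)
    (g : (Fin 2 → ℝ) → EE) :
    psi p q n ((stdSimplex ℝ (Fin 2)).restrict g) =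
      ∑ k ∈ Finset.range n, cr (g (pt n k) p, g (pt n k) q)
        (g (pt n (k + 1)) p, g (pt n (k + 1)) q) := by
  refine Finset.sum_congr rfl fun k hk => ?_
  have hk' := Finset.mem_range.1 hk
  rw [exg_restrict g (pt_mem hn hk'.le), exg_restrict g (pt_mem hn hk')]

/-- the additive functional on 1-chains -/
noncomputable def PSI (p q : AddCircle (2 * Real.pi)) (n : ℕ) :
    ((stdSimplex ℝ (Fin 2) → EE) →₀ ℤ) →+ ℝ :=
  Finsupp.liftAddHom fun γ => (AddMonoidHom.mulRight (psi p q n γ)).comp (Int.castAddHom ℝ)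

theorem PSI_single (p q : AddCircle (2 * Real.pi)) (n : ℕ) (γ : stdSimplex ℝ (Fin 2) → EE)
    (m : ℤ) : PSI p q n (Finsupp.single γ m) = m * psi p q n γ := by
  rw [PSI, Finsupp.liftAddHom_apply_single]
  rfl

/-- the boundary operator, exactly as in the frozen statement -/
noncomputable def bd (c : ((Fin 3 → ℝ) → EE) →₀ ℤ) : (stdSimplex ℝ (Fin 2) → EE) →₀ ℤ :=
  c.sum (fun σ n => ∑ i : Fin 3,
    Finsupp.single
      ((stdSimplex ℝ (Fin 2)).restrict
        (fun x : Fin 2 → ℝ => σ (fun k : Fin 3 =>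
          ∑ j : Fin 2, if i.succAbove j = k then x j else (0 : ℝ))))
      ((-1 : ℤ) ^ (i : ℕ) * n))

theorem gp_mem {n k l : ℕ} (hn : 0 < n) (hk : k ≤ n) (hl : l ≤ n) : gp n k l ∈ SqC := by
  have hn' : (0 : ℝ) < n := by exact_mod_cast hn
  have hk' : (k : ℝ) ≤ n := by exact_mod_cast hk
  have hl' : (l : ℝ) ≤ n := by exact_mod_cast hl
  refine ⟨⟨?_, ?_⟩, ⟨?_, ?_⟩⟩
  · show 0 ≤ (k : ℝ) / n; positivity
  · show (k : ℝ) / n ≤ 1; rw [div_le_one hn']; exact hk'
  · show 0 ≤ (l : ℝ) / n; positivity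
  · show (l : ℝ) / n ≤ 1; rw [div_le_one hn']; exact hl'

/-- one simplex: the boundary functional is twice the sum of the signed areas -/
theorem one_simplex {N : ℕ} {σ : (Fin 3 → ℝ) → EE} {G : ℝ × ℝ → Fin N → ℝ}
    (hG : ∀ x ∈ SqC, ∀ i : Fin N, G x i = σ (chi x) (pp N i)) (i j : Fin N) {n : ℕ}
    (hn : 0 < n) (m : ℤ) :
    PSI (pp N i) (pp N j) n (∑ i : Fin 3,
      Finsupp.single
        ((stdSimplex ℝ (Fin 2)).restrict
          (fun x : Fin 2 → ℝ => σ (fun k : Fin 3 =>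
            ∑ j : Fin 2, if i.succAbove j = k then x j else (0 : ℝ))))
        ((-1 : ℤ) ^ (i : ℕ) * m)) =
      m * (2 * ∑ k ∈ Finset.range n, ∑ l ∈ Finset.range n, qd (fun x => (G x i, G x j)) n k l) := by
  have hn' : (0 : ℝ) < n := by exact_mod_cast hn
  have hn0 : (n : ℝ) ≠ 0 := hn'.ne'
  rw [map_sum, Fin.sum_univ_three, PSI_single, PSI_single, PSI_single, psi_restrict _ _ hn,
    psi_restrict _ _ hn, psi_restrict _ _ hn, sum_qd]
  have f0 : ∀ k ≤ n, σ (face 0 (pt n k)) = σ (chi (gp n n k)) := by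
    intro k hk
    rw [pt, face0]
    congr 1
    simp [chi, gp, hn0]
  have f1 : ∀ k ≤ n, σ (face 1 (pt n k)) = σ (chi (gp n k n)) := by
    intro k hk
    rw [pt, face1]
    congr 1
    simp [chi, gp, hn0]
  have f2 : ∀ k ≤ n, σ (face 2 (pt n k)) = σ (chi (gp n k 0)) := by
    intro k hk
    rw [pt, face2]
    congr 1
    simp [chi, gp]
  have f3 : ∀ k ≤ n, chi (gp n 0 k) = ![1, 0, 0] := by
    intro k hk
    simp [chi, gp]
  have e0 : ∑ k ∈ Finset.range n, cr (σ (face 0 (pt n k)) (pp N i), σ (face 0 (pt n k)) (pp N j))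
        (σ (face 0 (pt n (k + 1))) (pp N i), σ (face 0 (pt n (k + 1))) (pp N j)) =
      ∑ l ∈ Finset.range n, cr (G (gp n n l) i, G (gp n n l) j)
        (G (gp n n (l + 1)) i, G (gp n n (l + 1)) j) := by
    refine Finset.sum_congr rfl fun k hk => ?_
    have hk' := Finset.mem_range.1 hk
    rw [f0 k hk'.le, f0 (k + 1) hk', hG _ (gp_mem hn le_rfl hk'.le), hG _ (gp_mem hn le_rfl hk'.le),
      hG _ (gp_mem hn le_rfl hk'), hG _ (gp_mem hn le_rfl hk')]
  have e1 : ∑ k ∈ Finset.range n, cr (σ (face 1 (pt n k)) (pp N i), σ (face 1 (pt n k)) (pp N j))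
        (σ (face 1 (pt n (k + 1))) (pp N i), σ (face 1 (pt n (k + 1))) (pp N j)) =
      ∑ l ∈ Finset.range n, cr (G (gp n l n) i, G (gp n l n) j)
        (G (gp n (l + 1) n) i, G (gp n (l + 1) n) j) := by
    refine Finset.sum_congr rfl fun k hk => ?_
    have hk' := Finset.mem_range.1 hk
    rw [f1 k hk'.le, f1 (k + 1) hk', hG _ (gp_mem hn hk'.le le_rfl), hG _ (gp_mem hn hk'.le le_rfl),
      hG _ (gp_mem hn hk' le_rfl), hG _ (gp_mem hn hk' le_rfl)]
  have e2 : ∑ k ∈ Finset.range n, cr (σ (face 2 (pt n k)) (pp N i), σ (face 2 (pt n k)) (pp N j))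
        (σ (face 2 (pt n (k + 1))) (pp N i), σ (face 2 (pt n (k + 1))) (pp N j)) =
      ∑ l ∈ Finset.range n, cr (G (gp n l 0) i, G (gp n l 0) j)
        (G (gp n (l + 1) 0) i, G (gp n (l + 1) 0) j) := by
    refine Finset.sum_congr rfl fun k hk => ?_
    have hk' := Finset.mem_range.1 hk
    rw [f2 k hk'.le, f2 (k + 1) hk', hG _ (gp_mem hn hk'.le (Nat.zero_le n)),
      hG _ (gp_mem hn hk'.le (Nat.zero_le n)),
      hG _ (gp_mem hn hk' (Nat.zero_le n)), hG _ (gp_mem hn hk' (Nat.zero_le n))]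
  have e3 : ∑ l ∈ Finset.range n, cr (G (gp n 0 l) i, G (gp n 0 l) j)
        (G (gp n 0 (l + 1)) i, G (gp n 0 (l + 1)) j) = 0 := by
    refine Finset.sum_eq_zero fun k hk => ?_
    have hk' := Finset.mem_range.1 hk
    rw [hG _ (gp_mem hn (Nat.zero_le n) hk'.le), hG _ (gp_mem hn (Nat.zero_le n) hk'.le),
      hG _ (gp_mem hn (Nat.zero_le n) hk'), hG _ (gp_mem hn (Nat.zero_le n) hk'),
      f3 k hk'.le, f3 (k + 1) hk']
    simp only [cr]
    ring
  have r0 : ∑ k ∈ Finset.range n, cr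
        (σ (fun k' : Fin 3 => ∑ j : Fin 2, if (0 : Fin 3).succAbove j = k' then pt n k j else 0)
          (pp N i),
         σ (fun k' : Fin 3 => ∑ j : Fin 2, if (0 : Fin 3).succAbove j = k' then pt n k j else 0)
          (pp N j))
        (σ (fun k' : Fin 3 => ∑ j : Fin 2, if (0 : Fin 3).succAbove j = k' then pt n (k + 1) j
            else 0) (pp N i),
         σ (fun k' : Fin 3 => ∑ j : Fin 2, if (0 : Fin 3).succAbove j = k' then pt n (k + 1) j
            else 0) (pp N j)) = _ := e0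
  have r1 : ∑ k ∈ Finset.range n, cr
        (σ (fun k' : Fin 3 => ∑ j : Fin 2, if (1 : Fin 3).succAbove j = k' then pt n k j else 0)
          (pp N i),
         σ (fun k' : Fin 3 => ∑ j : Fin 2, if (1 : Fin 3).succAbove j = k' then pt n k j else 0)
          (pp N j))
        (σ (fun k' : Fin 3 => ∑ j : Fin 2, if (1 : Fin 3).succAbove j = k' then pt n (k + 1) j
            else 0) (pp N i),
         σ (fun k' : Fin 3 => ∑ j : Fin 2, if (1 : Fin 3).succAbove j = k' then pt n (k + 1) j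
            else 0) (pp N j)) = _ := e1
  have r2 : ∑ k ∈ Finset.range n, cr
        (σ (fun k' : Fin 3 => ∑ j : Fin 2, if (2 : Fin 3).succAbove j = k' then pt n k j else 0)
          (pp N i),
         σ (fun k' : Fin 3 => ∑ j : Fin 2, if (2 : Fin 3).succAbove j = k' then pt n k j else 0)
          (pp N j))
        (σ (fun k' : Fin 3 => ∑ j : Fin 2, if (2 : Fin 3).succAbove j = k' then pt n (k + 1) j
            else 0) (pp N i),
         σ (fun k' : Fin 3 => ∑ j : Fin 2, if (2 : Fin 3).succAbove j = k' then pt n (k + 1) j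
            else 0) (pp N j)) = _ := e2
  rw [r0, r1, r2, e3]
  push_cast
  simp only [Fin.val_zero, Fin.val_one, Fin.val_two, pow_zero, pow_one]
  ring

end Pool.Agent.FillVol
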