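import Pool.Agent.Work.MP_e09eef_gt.Chain

/-!
# Lower bound for the volume of a filling of the circle
-/

set_option autoImplicit false

open MeasureTheory Set Filter Topology
open scoped ENNReal NNReal

namespace Pool.Agent.FillVol

/-- the fundamental cycle, exactly as in the frozen statement -/
noncomputable def fc (f : AddCircle (2 * Real.pi) → EE) : (stdSimplex ℝ (Fin 2) → EE) →₀ ℤ :=
  ∑ j : Fin 3,
    Finsupp.single
      ((stdSimplex ℝ (Fin 2)).restrict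
        (fun t : Fin 2 → ℝ =>
          f (((2 * Real.pi / 3 * (((j : ℕ) : ℝ) + t 1) : ℝ) : AddCircle (2 * Real.pi)))))
      (1 : ℤ)

theorem PSI_fc {f : AddCircle (2 * Real.pi) → EE}
    (hf : ∀ (m x : AddCircle (2 * Real.pi)), (f m) x = dist m x) {N' r : ℕ} (hN : 0 < N')
    (hr : 0 < r) (i j : ℕ) :
    PSI (pp (3 * N') i) (pp (3 * N') j) (2 * N' * r) (fc f) =
      ∑ k ∈ Finset.range (2 * (3 * N' * r)),
        cr (uu (3 * N' * r) (i * r) k, uu (3 * N' * r) (j * r) k)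
          (uu (3 * N' * r) (i * r) (k + 1), uu (3 * N' * r) (j * r) (k + 1)) := by
  have hn : 0 < 2 * N' * r := by positivity
  have hN' : (0 : ℝ) < N' := by exact_mod_cast hN
  have hr' : (0 : ℝ) < r := by exact_mod_cast hr
  have hpp : ∀ i : ℕ, pp (3 * N') i =
      ((((i * r : ℕ) : ℝ) * (Real.pi / ((3 * N' * r : ℕ) : ℝ)) : ℝ) :
        AddCircle (2 * Real.pi)) := by
    intro i
    rw [pp]
    congr 1
    push_cast
    field_simp
  have hval : ∀ (a k s : ℕ), f (((2 * Real.pi / 3 * ((s : ℝ) + pt (2 * N' * r) k 1) : ℝ) :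
      AddCircle (2 * Real.pi))) (pp (3 * N') a) =
      uu (3 * N' * r) (a * r) (s * (2 * N' * r) + k) := by
    intro a k s
    rw [hf, hpp, uu]
    congr 2
    show 2 * Real.pi / 3 * ((s : ℝ) + (k : ℝ) / ((2 * N' * r : ℕ) : ℝ)) = _
    push_cast
    field_simp
  set g : ℕ → ℝ := fun k => cr (uu (3 * N' * r) (i * r) k, uu (3 * N' * r) (j * r) k)
          (uu (3 * N' * r) (i * r) (k + 1), uu (3 * N' * r) (j * r) (k + 1)) with hg
  have hone : ∀ s : ℕ, PSI (pp (3 * N') i) (pp (3 * N') j) (2 * N' * r)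
      (Finsupp.single
      ((stdSimplex ℝ (Fin 2)).restrict
        (fun t : Fin 2 → ℝ =>
          f (((2 * Real.pi / 3 * ((s : ℝ) + t 1) : ℝ) : AddCircle (2 * Real.pi)))))
      (1 : ℤ)) = ∑ k ∈ Finset.range (2 * N' * r), g (s * (2 * N' * r) + k) := by
    intro s
    rw [PSI_single, psi_restrict _ _ hn, Int.cast_one, one_mul]
    refine Finset.sum_congr rfl fun k _ => ?_
    rw [hval, hval, hval, hval]
    rfl
  rw [fc, map_sum, Fin.sum_univ_three]
  have h0 := hone 0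
  have h1 := hone 1
  have h2 := hone 2
  simp only [Fin.val_zero, Fin.val_one, Fin.val_two]
  rw [h0, h1, h2]
  have e : 2 * (3 * N' * r) = 2 * N' * r + 2 * N' * r + 2 * N' * r := by ring
  rw [e, Finset.sum_range_add, Finset.sum_range_add]
  congr 1
  · congr 1
    · refine Finset.sum_congr rfl fun k _ => ?_
      rw [zero_mul, zero_add]
    · refine Finset.sum_congr rfl fun k _ => ?_
      rw [one_mul]
  · refine Finset.sum_congr rfl fun k _ => ?_
    congr 1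
    ring

/-- the integrand: Jacobian of a pair of coordinates -/
noncomputable def JJ {N : ℕ} (G : ℝ × ℝ → Fin N → ℝ) (i j : Fin N) (x : ℝ × ℝ) : ℝ :=
  cr (fderiv ℝ (fun x => (G x i, G x j)) x (1, 0)) (fderiv ℝ (fun x => (G x i, G x j)) x (0, 1))

theorem pair_lip {N : ℕ} {G : ℝ × ℝ → Fin N → ℝ} {K : ℝ≥0} (hG : LipschitzWith K G)
    (i j : Fin N) : LipschitzWith K (fun x => (G x i, G x j)) := by
  refine LipschitzWith.of_dist_le_mul fun x y => ?_
  have h := hG.dist_le_mul x y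
  rw [Prod.dist_eq, max_le_iff]
  exact ⟨(dist_le_pi_dist (G x) (G y) i).trans h, (dist_le_pi_dist (G x) (G y) j).trans h⟩

theorem JJ_eq {N : ℕ} {G : ℝ × ℝ → Fin N → ℝ} (i j : Fin N) {x : ℝ × ℝ}
    (hx : DifferentiableAt ℝ G x) :
    JJ G i j x = fderiv ℝ G x (1, 0) i * fderiv ℝ G x (0, 1) j -
      fderiv ℝ G x (0, 1) i * fderiv ℝ G x (1, 0) j := by
  have h : HasFDerivAt (fun x => (G x i, G x j))
      (((ContinuousLinearMap.proj i).comp (fderiv ℝ G x)).prod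
        ((ContinuousLinearMap.proj j).comp (fderiv ℝ G x))) x :=
    ((hasFDerivAt_pi'.1 hx.hasFDerivAt) i).prodMk ((hasFDerivAt_pi'.1 hx.hasFDerivAt) j)
  rw [JJ, h.fderiv, cr]
  simp only [ContinuousLinearMap.prod_apply, ContinuousLinearMap.comp_apply,
    ContinuousLinearMap.proj_apply]
  ring

theorem SL_JJ {N : ℕ} {G : ℝ × ℝ → Fin N → ℝ} {x : ℝ × ℝ} (hx : DifferentiableAt ℝ G x) :
    SL (fderiv ℝ G x) = ∑ i, ∑ j, |JJ G i j x| := by
  rw [SL]
  refine Finset.sum_congr rfl fun i _ => Finset.sum_congr rfl fun j _ => ?_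
  rw [JJ_eq i j hx]

theorem JJ_meas {N : ℕ} (G : ℝ × ℝ → Fin N → ℝ) (i j : Fin N) : Measurable (JJ G i j) := by
  unfold JJ
  have h1 : Measurable fun x => fderiv ℝ (fun x => (G x i, G x j)) x (1, 0) :=
    measurable_fderiv_apply_const ℝ _ _
  have h2 : Measurable fun x => fderiv ℝ (fun x => (G x i, G x j)) x (0, 1) :=
    measurable_fderiv_apply_const ℝ _ _
  exact cr_cont2.measurable.comp (h1.prodMk h2)

/-- pairing of a filling with a pair of sample points -/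
theorem pair_identity {f : AddCircle (2 * Real.pi) → EE}
    (hf : ∀ (m x : AddCircle (2 * Real.pi)), (f m) x = dist m x) {N' : ℕ} (hN : 0 < N')
    (c : ((Fin 3 → ℝ) → EE) →₀ ℤ) (hc : bd c = fc f)
    (G : ((Fin 3 → ℝ) → EE) → ℝ × ℝ → Fin (3 * N') → ℝ) (K : ((Fin 3 → ℝ) → EE) → ℝ≥0)
    (hK : ∀ σ ∈ c.support, LipschitzWith (K σ) (G σ))
    (hG : ∀ σ ∈ c.support, ∀ x ∈ SqC, ∀ i : Fin (3 * N'), G σ x i = σ (chi x) (pp (3 * N') i))
    {i j : Fin (3 * N')} (hij : i < j) :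
    ∑ σ ∈ c.support, (c σ : ℝ) * ∫ x in SqO, JJ (G σ) i j x =
      2 * ((j : ℝ) - i) * ((3 * N' : ℕ) - ((j : ℝ) - i)) * (Real.pi / (3 * N' : ℕ)) ^ 2 := by
  have hN' : (0 : ℝ) < N' := by exact_mod_cast hN
  -- the identity on each grid
  have hgrid : ∀ r : ℕ, 0 < r →
      ∑ σ ∈ c.support, (c σ : ℝ) * (2 * ∑ k ∈ Finset.range (2 * N' * r),
        ∑ l ∈ Finset.range (2 * N' * r), qd (fun x => (G σ x i, G σ x j)) (2 * N' * r) k l) =
      4 * ((j : ℝ) - i) * ((3 * N' : ℕ) - ((j : ℝ) - i)) * (Real.pi / (3 * N' : ℕ)) ^ 2 := by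
    intro r hr
    have hr' : (0 : ℝ) < r := by exact_mod_cast hr
    have hn : 0 < 2 * N' * r := by positivity
    have h1 := congrArg (PSI (pp (3 * N') i) (pp (3 * N') j) (2 * N' * r)) hc
    rw [PSI_fc hf hN hr, bdry (by positivity) (Nat.mul_le_mul_right r hij.le)
      (Nat.mul_lt_mul_of_pos_right j.2 hr), bd, Finsupp.sum, map_sum] at h1
    have h2 : ∀ σ ∈ c.support, PSI (pp (3 * N') i) (pp (3 * N') j) (2 * N' * r)
        (∑ i : Fin 3,
          Finsupp.single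
            ((stdSimplex ℝ (Fin 2)).restrict
              (fun x : Fin 2 → ℝ => σ (fun k : Fin 3 =>
                ∑ j : Fin 2, if i.succAbove j = k then x j else (0 : ℝ))))
            ((-1 : ℤ) ^ (i : ℕ) * c σ)) = (c σ : ℝ) * (2 * ∑ k ∈ Finset.range (2 * N' * r),
        ∑ l ∈ Finset.range (2 * N' * r), qd (fun x => (G σ x i, G σ x j)) (2 * N' * r) k l) :=
      fun σ hσ => one_simplex (hG σ hσ) i j hn (c σ)
    rw [Finset.sum_congr rfl h2] at h1
    rw [h1]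
    push_cast
    field_simp
  have hlim : Tendsto (fun r : ℕ => ∑ σ ∈ c.support, (c σ : ℝ) *
      (2 * ∑ k ∈ Finset.range (2 * N' * (r + 1)), ∑ l ∈ Finset.range (2 * N' * (r + 1)),
        qd (fun x => (G σ x i, G σ x j)) (2 * N' * (r + 1)) k l)) atTop
      (𝓝 (∑ σ ∈ c.support, (c σ : ℝ) * (2 * ∫ x in SqO, JJ (G σ) i j x))) := by
    refine tendsto_finsetSum _ fun σ hσ => ?_
    have hs := stokes (pair_lip (hK σ hσ) i j)
    have hsub : Tendsto (fun r : ℕ => 2 * N' * (r + 1)) atTop atTop :=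
      (tendsto_add_atTop_nat 1).const_mul_atTop' (by positivity)
    exact ((hs.comp hsub).const_mul 2).const_mul _
  have hconst : Tendsto (fun r : ℕ => ∑ σ ∈ c.support, (c σ : ℝ) *
      (2 * ∑ k ∈ Finset.range (2 * N' * (r + 1)), ∑ l ∈ Finset.range (2 * N' * (r + 1)),
        qd (fun x => (G σ x i, G σ x j)) (2 * N' * (r + 1)) k l)) atTop
      (𝓝 (4 * ((j : ℝ) - i) * ((3 * N' : ℕ) - ((j : ℝ) - i)) *
        (Real.pi / (3 * N' : ℕ)) ^ 2)) := by
    refine tendsto_const_nhds.congr fun r => ?_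
    exact (hgrid (r + 1) (Nat.succ_pos r)).symm
  have huniq := tendsto_nhds_unique hlim hconst
  have h2 : ∑ σ ∈ c.support, (c σ : ℝ) * (2 * ∫ x in SqO, JJ (G σ) i j x) =
      2 * ∑ σ ∈ c.support, (c σ : ℝ) * ∫ x in SqO, JJ (G σ) i j x := by
    rw [Finset.mul_sum]
    exact Finset.sum_congr rfl fun σ _ => by ring
  rw [h2] at huniq
  linarith

theorem sum_abs (M : ℕ) : ∑ i ∈ Finset.range M, ∑ j ∈ Finset.range M, |(j : ℝ) - i| =
    M * (M ^ 2 - 1) / 3 := by
  induction M with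
  | zero => simp
  | succ M ih =>
    have h1 : ∀ M : ℕ, ∑ j ∈ Finset.range M, ((M : ℝ) - j) = M * (M + 1) / 2 := by
      intro M
      induction M with
      | zero => simp
      | succ M ih =>
        rw [Finset.sum_range_succ]
        have : ∑ j ∈ Finset.range M, (((M + 1 : ℕ) : ℝ) - j) =
            ∑ j ∈ Finset.range M, ((M : ℝ) - j) + M := by
          have h3 : ∀ j ∈ Finset.range M, (((M + 1 : ℕ) : ℝ) - j) = ((M : ℝ) - j) + 1 := by
            intro j _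
            push_cast; ring
          rw [Finset.sum_congr rfl h3, Finset.sum_add_distrib]
          simp
        rw [this, ih]
        push_cast
        ring
    have h2 : ∑ i ∈ Finset.range M, |(M : ℝ) - i| = M * (M + 1) / 2 := by
      rw [← h1 M]
      refine Finset.sum_congr rfl fun i hi => ?_
      have : (i : ℝ) ≤ M := by exact_mod_cast (Finset.mem_range.1 hi).le
      rw [abs_of_nonneg (by linarith)]
    have h3 : ∑ i ∈ Finset.range M, |(i : ℝ) - M| = M * (M + 1) / 2 := by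
      rw [← h2]
      exact Finset.sum_congr rfl fun i _ => abs_sub_comm _ _
    rw [Finset.sum_range_succ]
    simp_rw [Finset.sum_range_succ]
    rw [Finset.sum_add_distrib, ih, h2, h3, sub_self, abs_zero]
    push_cast
    ring

theorem sum_sq (M : ℕ) : ∑ i ∈ Finset.range M, ∑ j ∈ Finset.range M, ((j : ℝ) - i) ^ 2 =
    M ^ 2 * (M ^ 2 - 1) / 6 := by
  induction M with
  | zero => simp
  | succ M ih =>
    have h1 : ∑ j ∈ Finset.range M, ((j : ℝ) - M) ^ 2 = M * (M + 1) * (2 * M + 1) / 6 := by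
      have h2 : ∀ M : ℕ, ∑ j ∈ Finset.range M, (j : ℝ) = M * (M - 1) / 2 := by
        intro M
        induction M with
        | zero => simp
        | succ M ih => rw [Finset.sum_range_succ, ih]; push_cast; ring
      have h3 : ∀ M : ℕ, ∑ j ∈ Finset.range M, (j : ℝ) ^ 2 = M * (M - 1) * (2 * M - 1) / 6 := by
        intro M
        induction M with
        | zero => simp
        | succ M ih => rw [Finset.sum_range_succ, ih]; push_cast; ring
      have h4 : ∀ j ∈ Finset.range M, ((j : ℝ) - M) ^ 2 = (j : ℝ) ^ 2 + (-2 * M) * j + M ^ 2 := by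
        intro j _; ring
      rw [Finset.sum_congr rfl h4, Finset.sum_add_distrib, Finset.sum_add_distrib,
        ← Finset.mul_sum, h2, h3, Finset.sum_const, Finset.card_range, nsmul_eq_mul]
      ring
    have h2 : ∑ i ∈ Finset.range M, ((M : ℝ) - i) ^ 2 = M * (M + 1) * (2 * M + 1) / 6 := by
      rw [← h1]
      exact Finset.sum_congr rfl fun i _ => by ring
    rw [Finset.sum_range_succ]
    simp_rw [Finset.sum_range_succ]
    rw [Finset.sum_add_distrib, ih, h1, h2, sub_self]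
    push_cast
    ring

/-- the boundary value of a pair -/
noncomputable def DD (N i j : ℕ) : ℝ :=
  2 * |(j : ℝ) - i| * (N - |(j : ℝ) - i|) * (Real.pi / N) ^ 2

theorem sum_DD {N : ℕ} (hN : 0 < N) :
    ∑ i : Fin N, ∑ j : Fin N, DD N i j = Real.pi ^ 2 * (N ^ 2 - 1) / 3 := by
  have hN' : (0 : ℝ) < N := by exact_mod_cast hN
  have h0 : ∑ i : Fin N, ∑ j : Fin N, DD N i j =
      ∑ i ∈ Finset.range N, ∑ j ∈ Finset.range N, DD N i j := by
    rw [Finset.sum_range]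
    exact Finset.sum_congr rfl fun i _ => (Finset.sum_range _).symm
  rw [h0]
  have h1 : ∀ i j : ℕ, DD N i j = (2 * N * (Real.pi / N) ^ 2) * |(j : ℝ) - i| -
      (2 * (Real.pi / N) ^ 2) * ((j : ℝ) - i) ^ 2 := by
    intro i j
    rw [DD, ← sq_abs ((j : ℝ) - i)]
    ring
  simp_rw [h1]
  simp_rw [Finset.sum_sub_distrib, ← Finset.mul_sum]
  rw [sum_abs, sum_sq]
  field_simp
  ring

theorem DD_le {f : AddCircle (2 * Real.pi) → EE}
    (hf : ∀ (m x : AddCircle (2 * Real.pi)), (f m) x = dist m x) {N' : ℕ} (hN : 0 < N')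
    (c : ((Fin 3 → ℝ) → EE) →₀ ℤ) (hc : bd c = fc f)
    (G : ((Fin 3 → ℝ) → EE) → ℝ × ℝ → Fin (3 * N') → ℝ) (K : ((Fin 3 → ℝ) → EE) → ℝ≥0)
    (hK : ∀ σ ∈ c.support, LipschitzWith (K σ) (G σ))
    (hG : ∀ σ ∈ c.support, ∀ x ∈ SqC, ∀ i : Fin (3 * N'), G σ x i = σ (chi x) (pp (3 * N') i))
    (i j : Fin (3 * N')) :
    ENNReal.ofReal (DD (3 * N') i j) ≤
      ∑ σ ∈ c.support, ((c σ).natAbs : ℝ≥0∞) *
        ∫⁻ x in SqO, ENNReal.ofReal |JJ (G σ) i j x| := by
  have hsymm : ∀ (σ : (Fin 3 → ℝ) → EE) (i j : Fin (3 * N')), σ ∈ c.support →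
      ∫⁻ x in SqO, ENNReal.ofReal |JJ (G σ) i j x| =
      ∫⁻ x in SqO, ENNReal.ofReal |JJ (G σ) j i x| := by
    intro σ i j hσ
    refine lintegral_congr_ae ?_
    filter_upwards [ae_restrict_of_ae (hK σ hσ).ae_differentiableAt] with x hx
    rw [JJ_eq i j hx, JJ_eq j i hx, ← abs_neg]
    congr 2
    ring
  have hlt : ∀ i j : Fin (3 * N'), i < j → ENNReal.ofReal (DD (3 * N') i j) ≤
      ∑ σ ∈ c.support, ((c σ).natAbs : ℝ≥0∞) *
        ∫⁻ x in SqO, ENNReal.ofReal |JJ (G σ) i j x| := by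
    intro i j hij
    have hid := pair_identity hf hN c hc G K hK hG hij
    have hij' : (i : ℝ) < j := by exact_mod_cast hij
    have hDD : DD (3 * N') i j = ∑ σ ∈ c.support, (c σ : ℝ) * ∫ x in SqO, JJ (G σ) i j x := by
      rw [hid, DD, abs_of_nonneg (by linarith)]
    rw [hDD]
    calc ENNReal.ofReal (∑ σ ∈ c.support, (c σ : ℝ) * ∫ x in SqO, JJ (G σ) i j x)
        ≤ ‖∑ σ ∈ c.support, (c σ : ℝ) * ∫ x in SqO, JJ (G σ) i j x‖ₑ :=
          Real.ofReal_le_enorm _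
      _ ≤ ∑ σ ∈ c.support, ‖(c σ : ℝ) * ∫ x in SqO, JJ (G σ) i j x‖ₑ := enorm_sum_le _ _
      _ ≤ _ := by
          refine Finset.sum_le_sum fun σ _ => ?_
          rw [enorm_mul]
          have e1 : ‖(c σ : ℝ)‖ₑ = ((c σ).natAbs : ℝ≥0∞) := by
            rw [Real.enorm_eq_ofReal_abs, ← Int.cast_abs, Int.abs_eq_natAbs, Int.cast_natCast,
              ENNReal.ofReal_natCast]
          rw [e1]
          gcongr
          refine (enorm_integral_le_lintegral_enorm _).trans (le_of_eq ?_)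
          exact lintegral_congr fun x => Real.enorm_eq_ofReal_abs _
  rcases lt_trichotomy i j with h | h | h
  · exact hlt i j h
  · rw [h, DD, sub_self, abs_zero]
    simp
  · have h1 := hlt j i h
    have e : DD (3 * N') i j = DD (3 * N') j i := by
      rw [DD, DD, abs_sub_comm]
    rw [e]
    refine h1.trans (le_of_eq ?_)
    exact Finset.sum_congr rfl fun σ hσ => by rw [hsymm σ j i hσ]

/-- the multiplicity volume of a simplex without the factor `π / 4` -/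
noncomputable def RR (σ : (Fin 3 → ℝ) → EE) : ℝ≥0∞ :=
  ∑' k : ℕ, HH EE {y | (((k + 1 : ℕ) : ℕ∞)) ≤
    Set.encard {z | z ∈ stdSimplex ℝ (Fin 3) ∧ σ z = y}}

theorem SL_le_RR {N : ℕ} (hN : 0 < N) {σ : (Fin 3 → ℝ) → EE}
    (hσ : ∃ K, LipschitzOnWith K σ (stdSimplex ℝ (Fin 3)))
    {G : ℝ × ℝ → Fin N → ℝ}
    (hG : ∀ x ∈ SqC, ∀ i : Fin N, G x i = σ (chi x) (pp N i)) :
    ∫⁻ x in SqO, ENNReal.ofReal (SL (fderiv ℝ G x)) ≤ ENNReal.ofReal (N ^ 2 / 2) * RR σ := by
  obtain ⟨K, hK⟩ := hσ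
  have hcont : ContinuousOn (σ ∘ chi) SqO :=
    (hK.comp chi_lip fun x hx => chi_mem hx).continuousOn.mono SqO_sub
  have hb : Bornology.IsBounded SqO :=
    ((Metric.isBounded_Icc (0 : ℝ) 1).prod (Metric.isBounded_Icc (0 : ℝ) 1)).subset SqO_sub
  have h := area_lower (E := EE) hN (σ ∘ chi) (U := SqO)
    (measurableSet_Ioc.prod measurableSet_Ioc) hb hcont G (by
      intro x hx y hy
      rw [edist_dist, edist_dist]
      refine ENNReal.ofReal_le_ofReal ?_
      rw [dist_pi_le_iff dist_nonneg]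
      intro i
      rw [hG x (SqO_sub hx), hG y (SqO_sub hy), Real.dist_eq]
      exact ev_lip _ _ _)
  refine h.trans ?_
  gcongr
  refine ENNReal.tsum_le_tsum fun k => ?_
  refine (HH EE).mono ?_
  intro y hy
  have hy' : ((k + 1 : ℕ) : ℕ∞) ≤ Set.encard {x | x ∈ SqO ∧ (σ ∘ chi) x = y} := hy
  show ((k + 1 : ℕ) : ℕ∞) ≤ Set.encard {z | z ∈ stdSimplex ℝ (Fin 3) ∧ σ z = y}
  refine hy'.trans ?_
  have h1 : InjOn chi {x | x ∈ SqO ∧ (σ ∘ chi) x = y} := chi_inj.mono fun x hx => hx.1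
  rw [← h1.encard_image]
  refine encard_le_encard ?_
  rintro _ ⟨x, ⟨hx, hxy⟩, rfl⟩
  exact ⟨chi_mem (SqO_sub hx), hxy⟩

theorem main_N {f : AddCircle (2 * Real.pi) → EE}
    (hf : ∀ (m x : AddCircle (2 * Real.pi)), (f m) x = dist m x) {N' : ℕ} (hN : 0 < N')
    (c : ((Fin 3 → ℝ) → EE) →₀ ℤ)
    (hσ : ∀ σ ∈ c.support, ∃ K, LipschitzOnWith K σ (stdSimplex ℝ (Fin 3)))
    (hc : bd c = fc f) :
    ENNReal.ofReal (Real.pi ^ 3 / 6 * (1 - 1 / ((3 * N' : ℕ) : ℝ) ^ 2)) ≤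
      ∑ σ ∈ c.support, ((c σ).natAbs : ℝ≥0∞) * (ENNReal.ofReal (Real.pi / 4) * RR σ) := by
  have hN0 : 0 < 3 * N' := by positivity
  have hN' : (0 : ℝ) < ((3 * N' : ℕ) : ℝ) := by exact_mod_cast hN0
  set N := 3 * N' with hNdef
  have hex : ∀ σ, ∃ (G : ℝ × ℝ → Fin N → ℝ) (K : ℝ≥0), σ ∈ c.support → LipschitzWith K G ∧
      ∀ x ∈ SqC, ∀ i : Fin N, G x i = σ (chi x) (pp N i) := by
    intro σ
    by_cases h : σ ∈ c.support
    · obtain ⟨G, K, h1, h2⟩ := exists_G N (hσ σ h)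
      exact ⟨G, K, fun _ => ⟨h1, h2⟩⟩
    · exact ⟨fun _ _ => 0, 0, fun h' => absurd h' h⟩
  choose G K hGK using hex
  have hpair := DD_le hf hN c hc G K (fun σ h => (hGK σ h).1) (fun σ h => (hGK σ h).2)
  have hDD0 : ∀ i j : Fin N, 0 ≤ DD N i j := by
    intro i j
    have hi : (i : ℝ) < N := by exact_mod_cast i.2
    have hj : (j : ℝ) < N := by exact_mod_cast j.2
    have hi0 : (0 : ℝ) ≤ i := Nat.cast_nonneg _
    have hj0 : (0 : ℝ) ≤ j := Nat.cast_nonneg _
    have h1 : |(j : ℝ) - i| ≤ N := by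
      rw [abs_le]; constructor <;> linarith
    have h2 : 0 ≤ (N : ℝ) - |(j : ℝ) - i| := by linarith
    rw [DD]
    positivity
  have hsum : ENNReal.ofReal (Real.pi ^ 2 * ((N : ℝ) ^ 2 - 1) / 3) ≤
      ∑ σ ∈ c.support, ((c σ).natAbs : ℝ≥0∞) *
        ∫⁻ x in SqO, ENNReal.ofReal (SL (fderiv ℝ (G σ) x)) := by
    rw [← sum_DD hN0, ENNReal.ofReal_sum_of_nonneg fun i _ =>
      Finset.sum_nonneg fun j _ => hDD0 i j]
    have h1 : ∀ i : Fin N, ENNReal.ofReal (∑ j : Fin N, DD N i j) =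
        ∑ j : Fin N, ENNReal.ofReal (DD N i j) := fun i =>
      ENNReal.ofReal_sum_of_nonneg fun j _ => hDD0 i j
    simp_rw [h1]
    calc ∑ i : Fin N, ∑ j : Fin N, ENNReal.ofReal (DD N i j)
        ≤ ∑ i : Fin N, ∑ j : Fin N, ∑ σ ∈ c.support, ((c σ).natAbs : ℝ≥0∞) *
            ∫⁻ x in SqO, ENNReal.ofReal |JJ (G σ) i j x| :=
          Finset.sum_le_sum fun i _ => Finset.sum_le_sum fun j _ => hpair i j
      _ = ∑ σ ∈ c.support, ((c σ).natAbs : ℝ≥0∞) *
            ∑ i : Fin N, ∑ j : Fin N, ∫⁻ x in SqO, ENNReal.ofReal |JJ (G σ) i j x| := by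
          have : ∀ i : Fin N, ∑ j : Fin N, ∑ σ ∈ c.support, ((c σ).natAbs : ℝ≥0∞) *
              ∫⁻ x in SqO, ENNReal.ofReal |JJ (G σ) i j x| =
              ∑ σ ∈ c.support, ∑ j : Fin N, ((c σ).natAbs : ℝ≥0∞) *
              ∫⁻ x in SqO, ENNReal.ofReal |JJ (G σ) i j x| := fun i => Finset.sum_comm
          simp_rw [this]
          rw [Finset.sum_comm]
          refine Finset.sum_congr rfl fun σ _ => ?_
          simp_rw [Finset.mul_sum]
      _ = _ := by
          refine Finset.sum_congr rfl fun σ hσ' => ?_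
          congr 1
          have h2 : ∀ i : Fin N, ∑ j : Fin N, ∫⁻ x in SqO, ENNReal.ofReal |JJ (G σ) i j x| =
              ∫⁻ x in SqO, ∑ j : Fin N, ENNReal.ofReal |JJ (G σ) i j x| := fun i =>
            (lintegral_finsetSum _ fun j _ => (JJ_meas (G σ) i j).abs.ennreal_ofReal).symm
          simp_rw [h2]
          rw [← lintegral_finsetSum _ fun i _ => Finset.measurable_sum _ fun j _ =>
            (JJ_meas (G σ) i j).abs.ennreal_ofReal]
          refine lintegral_congr_ae ?_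
          filter_upwards [ae_restrict_of_ae (hGK σ hσ').1.ae_differentiableAt] with x hx
          rw [SL_JJ hx, ENNReal.ofReal_sum_of_nonneg fun i _ =>
            Finset.sum_nonneg fun j _ => abs_nonneg _]
          refine Finset.sum_congr rfl fun i _ => ?_
          rw [ENNReal.ofReal_sum_of_nonneg fun j _ => abs_nonneg _]
  have hR : ∑ σ ∈ c.support, ((c σ).natAbs : ℝ≥0∞) *
        ∫⁻ x in SqO, ENNReal.ofReal (SL (fderiv ℝ (G σ) x)) ≤
      ENNReal.ofReal ((N : ℝ) ^ 2 / 2) * ∑ σ ∈ c.support, ((c σ).natAbs : ℝ≥0∞) * RR σ := by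
    rw [Finset.mul_sum]
    refine Finset.sum_le_sum fun σ h => ?_
    calc ((c σ).natAbs : ℝ≥0∞) * ∫⁻ x in SqO, ENNReal.ofReal (SL (fderiv ℝ (G σ) x))
        ≤ ((c σ).natAbs : ℝ≥0∞) * (ENNReal.ofReal ((N : ℝ) ^ 2 / 2) * RR σ) := by
          gcongr
          exact SL_le_RR hN0 (hσ σ h) (hGK σ h).2
      _ = _ := by ring
  have hfin := hsum.trans hR
  have hπ := Real.pi_pos
  calc ENNReal.ofReal (Real.pi ^ 3 / 6 * (1 - 1 / (N : ℝ) ^ 2))
      = ENNReal.ofReal (Real.pi / (2 * N ^ 2)) *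
          ENNReal.ofReal (Real.pi ^ 2 * ((N : ℝ) ^ 2 - 1) / 3) := by
        rw [← ENNReal.ofReal_mul (by positivity)]
        congr 1
        field_simp
        ring
    _ ≤ ENNReal.ofReal (Real.pi / (2 * N ^ 2)) * (ENNReal.ofReal ((N : ℝ) ^ 2 / 2) *
          ∑ σ ∈ c.support, ((c σ).natAbs : ℝ≥0∞) * RR σ) := by gcongr
    _ = ENNReal.ofReal (Real.pi / 4) * ∑ σ ∈ c.support, ((c σ).natAbs : ℝ≥0∞) * RR σ := by
        rw [← mul_assoc, ← ENNReal.ofReal_mul (by positivity)]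
        congr 2
        field_simp
        ring
    _ = _ := by
        rw [Finset.mul_sum]
        exact Finset.sum_congr rfl fun σ _ => by ring

theorem main_bound {f : AddCircle (2 * Real.pi) → EE}
    (hf : ∀ (m x : AddCircle (2 * Real.pi)), (f m) x = dist m x)
    (c : ((Fin 3 → ℝ) → EE) →₀ ℤ)
    (hσ : ∀ σ ∈ c.support, ∃ K, LipschitzOnWith K σ (stdSimplex ℝ (Fin 3)))
    (hc : bd c = fc f) :
    ENNReal.ofReal (Real.pi ^ 3 / 6) ≤
      ∑ σ ∈ c.support, ((c σ).natAbs : ℝ≥0∞) * (ENNReal.ofReal (Real.pi / 4) * RR σ) := by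
  have h1 : Tendsto (fun n : ℕ => Real.pi ^ 3 / 6 * (1 - 1 / ((3 * (n + 1) : ℕ) : ℝ) ^ 2)) atTop
      (𝓝 (Real.pi ^ 3 / 6 * (1 - 0))) := by
    refine Tendsto.const_mul _ (Tendsto.const_sub _ ?_)
    have h2 : Tendsto (fun n : ℕ => ((3 * (n + 1) : ℕ) : ℝ)) atTop atTop :=
      tendsto_natCast_atTop_atTop.comp ((tendsto_add_atTop_nat 1).const_mul_atTop' (by norm_num))
    have h3 := (tendsto_pow_atTop (two_ne_zero)).comp h2
    simpa [Function.comp_def] using tendsto_inv_atTop_zero.comp h3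
  rw [sub_zero, mul_one] at h1
  refine le_of_tendsto' (ENNReal.tendsto_ofReal h1) fun n => ?_
  exact main_N hf (Nat.succ_pos n) c hσ hc

end Pool.Agent.FillVol
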