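import Pool.Agent.Work.MP_e09eef_gt.Sant1

/-!
# The flat kernel and Euclidean tangent planes: pointwise inequality
-/

set_option autoImplicit false

namespace Pool.Agent.FillVol

/-- orthogonality of the odd cosines -/
theorem odd_cos_sum (q : ℕ) (θ : ℝ) :
    2 * Real.sin θ * ∑ l ∈ Finset.range q, Real.cos ((2 * l + 1) * θ) = Real.sin (2 * q * θ) := by
  induction q with
  | zero => simp
  | succ q ih =>
    rw [Finset.sum_range_succ, mul_add, ih]
    have h1 : Real.sin (2 * ((q + 1 : ℕ) : ℝ) * θ) =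
        Real.sin (2 * q * θ) + 2 * Real.sin θ * Real.cos ((2 * q + 1) * θ) := by
      have e1 : 2 * ((q + 1 : ℕ) : ℝ) * θ = (2 * q + 1) * θ + θ := by push_cast; ring
      have e2 : 2 * (q : ℝ) * θ = (2 * q + 1) * θ - θ := by ring
      rw [e1, e2, Real.sin_add, Real.sin_sub]
      ring
    rw [h1]

theorem odd_cos_orth {n q : ℕ} (hn : n = 2 * q) (hq : 0 < q) {i j : ℕ} (hi : i < n) (hj : j < n) :
    ∑ l ∈ Finset.range q, Real.cos ((2 * l + 1) * (Real.pi * j / n - Real.pi * i / n)) =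
      if i = j then (q : ℝ) else 0 := by
  have hn0 : 0 < n := by omega
  have hn' : (0 : ℝ) < n := by exact_mod_cast hn0
  split_ifs with h
  · rw [h]
    simp
  · set θ : ℝ := Real.pi * j / n - Real.pi * i / n with hθ
    have hi' : (i : ℝ) < n := by exact_mod_cast hi
    have hj' : (j : ℝ) < n := by exact_mod_cast hj
    have hi0 : (0 : ℝ) ≤ i := Nat.cast_nonneg _
    have hj0 : (0 : ℝ) ≤ j := Nat.cast_nonneg _
    have hπ := Real.pi_pos
    have hne : (j : ℝ) - i ≠ 0 := by
      intro h0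
      apply h
      have : (i : ℝ) = j := by linarith
      exact_mod_cast this
    have e : θ = Real.pi * (((j : ℝ) - i) / n) := by rw [hθ]; ring
    have hs : Real.sin θ ≠ 0 := by
      have hlt : |((j : ℝ) - i) / n| < 1 := by
        rw [abs_div, abs_of_pos hn', div_lt_one hn', abs_lt]
        constructor <;> linarith
      rw [abs_lt] at hlt
      rcases lt_or_gt_of_ne hne with h1 | h1
      · have h2 : ((j : ℝ) - i) / n < 0 := div_neg_of_neg_of_pos h1 hn'
        have h3 : Real.sin θ < 0 := by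
          apply Real.sin_neg_of_neg_of_neg_pi_lt
          · rw [e]; exact mul_neg_of_pos_of_neg hπ h2
          · rw [e]; nlinarith [hlt.1]
        exact h3.ne
      · have h2 : 0 < ((j : ℝ) - i) / n := div_pos h1 hn'
        have h3 : 0 < Real.sin θ := by
          apply Real.sin_pos_of_pos_of_lt_pi
          · rw [e]; positivity
          · rw [e]; nlinarith [hlt.2]
        exact h3.ne'
    have h1 := odd_cos_sum q θ
    have h2 : Real.sin (2 * q * θ) = 0 := by
      have e2 : 2 * (q : ℝ) * θ = (((j : ℤ) - (i : ℤ) : ℤ) : ℝ) * Real.pi := by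
        rw [e]
        have e3 : (n : ℝ) = 2 * q := by rw [hn]; push_cast; ring
        rw [e3] at hn' ⊢
        push_cast
        field_simp
      rw [e2, Real.sin_int_mul_pi]
    rw [h2] at h1
    rcases mul_eq_zero.1 h1 with h3 | h3
    · exact absurd (by linarith) hs
    · exact h3

/-- the adjugate form of a metric `(E, F, H)` -/
def BB (E F H : ℝ) (u v : ℝ × ℝ) : ℝ :=
  H * (u.1 * v.1) - F * (u.1 * v.2 + u.2 * v.1) + E * (u.2 * v.2)

/-- covectors of length at most one -/
theorem BB_le {E F H : ℝ} {b : ℝ × ℝ}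
    (h : ∀ v : ℝ × ℝ, (b.1 * v.1 + b.2 * v.2) ^ 2 ≤
      E * v.1 ^ 2 + 2 * F * (v.1 * v.2) + H * v.2 ^ 2) :
    0 ≤ E ∧ 0 ≤ H ∧ 0 ≤ E * H - F ^ 2 ∧ BB E F H b b ≤ E * H - F ^ 2 := by
  have hE : 0 ≤ E := by
    have := h (1, 0)
    simp only at this
    nlinarith [sq_nonneg (b.1 * 1 + b.2 * 0)]
  have hH : 0 ≤ H := by
    have := h (0, 1)
    simp only at this
    nlinarith [sq_nonneg (b.1 * 0 + b.2 * 1)]
  have hD : 0 ≤ E * H - F ^ 2 := by
    rcases hE.lt_or_eq with hE' | hE'
    · have := h (-F, E)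
      simp only at this
      have h1 : 0 ≤ E * (E * H - F ^ 2) := by nlinarith [sq_nonneg (b.1 * -F + b.2 * E)]
      exact nonneg_of_mul_nonneg_right h1 hE'
    · have hF : F = 0 := by
        by_contra hF
        have h1 := h (-(H + 1) / (2 * F), 1)
        simp only at h1
        rw [← hE'] at h1
        have h2 : 2 * F * (-(H + 1) / (2 * F) * 1) = -(H + 1) := by field_simp
        rw [h2] at h1
        nlinarith [sq_nonneg (b.1 * (-(H + 1) / (2 * F)) + b.2 * 1)]
      rw [hF, ← hE']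
      simp
  refine ⟨hE, hH, hD, ?_⟩
  have h1 := h (H * b.1 - F * b.2, -F * b.1 + E * b.2)
  simp only at h1
  have e1 : b.1 * (H * b.1 - F * b.2) + b.2 * (-F * b.1 + E * b.2) = BB E F H b b := by
    rw [BB]; ring
  have e2 : E * (H * b.1 - F * b.2) ^ 2 + 2 * F * ((H * b.1 - F * b.2) * (-F * b.1 + E * b.2)) +
      H * (-F * b.1 + E * b.2) ^ 2 = (E * H - F ^ 2) * BB E F H b b := by
    rw [BB]; ring
  rw [e1, e2] at h1
  by_contra hlt
  push Not at hlt
  have hB : 0 < BB E F H b b := lt_of_le_of_lt hD hlt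
  nlinarith

theorem cr_sum2 {ι : Type*} (s : Finset ι) (b : ι → ℝ × ℝ) (u v : ι → ℝ) :
    cr (∑ a ∈ s, u a • b a) (∑ a ∈ s, v a • b a) =
      ∑ a ∈ s, ∑ a' ∈ s, u a * v a' * cr (b a) (b a') := by
  simp only [cr, Prod.fst_sum, Prod.snd_sum, Prod.smul_fst, Prod.smul_snd, smul_eq_mul]
  rw [Finset.sum_mul_sum, Finset.sum_mul_sum, ← Finset.sum_sub_distrib]
  refine Finset.sum_congr rfl fun a _ => ?_
  rw [← Finset.sum_sub_distrib]
  refine Finset.sum_congr rfl fun a' _ => ?_
  ring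

theorem BB_sum2 {ι : Type*} (s : Finset ι) (E F H : ℝ) (b : ι → ℝ × ℝ) (u v : ι → ℝ) :
    BB E F H (∑ a ∈ s, u a • b a) (∑ a ∈ s, v a • b a) =
      ∑ a ∈ s, ∑ a' ∈ s, u a * v a' * BB E F H (b a) (b a') := by
  simp only [BB, Prod.fst_sum, Prod.snd_sum, Prod.smul_fst, Prod.smul_snd, smul_eq_mul]
  rw [Finset.sum_mul_sum, Finset.sum_mul_sum, Finset.sum_mul_sum, Finset.sum_mul_sum,
    ← Finset.sum_add_distrib, Finset.mul_sum, Finset.mul_sum, Finset.mul_sum,
    ← Finset.sum_sub_distrib, ← Finset.sum_add_distrib]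
  refine Finset.sum_congr rfl fun a _ => ?_
  rw [← Finset.sum_add_distrib, Finset.mul_sum, Finset.mul_sum, Finset.mul_sum,
    ← Finset.sum_sub_distrib, ← Finset.sum_add_distrib]
  refine Finset.sum_congr rfl fun a' _ => ?_
  ring

/-- Gram inequality -/
theorem gram_le {E F H : ℝ} (hD : 0 < E * H - F ^ 2) (hE : 0 ≤ E) (P Q : ℝ × ℝ) :
    |cr P Q| ≤ (BB E F H P P + BB E F H Q Q) / (2 * √(E * H - F ^ 2)) := by
  have hs : 0 < √(E * H - F ^ 2) := Real.sqrt_pos.2 hD
  have hs2 : √(E * H - F ^ 2) ^ 2 = E * H - F ^ 2 := Real.sq_sqrt hD.le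
  have hE' : 0 < E := by
    rcases hE.lt_or_eq with h | h
    · exact h
    · rw [← h] at hD
      nlinarith [sq_nonneg F]
  have hB : ∀ u : ℝ × ℝ, 0 ≤ BB E F H u u := by
    intro u
    have h1 : E * BB E F H u u = (E * H - F ^ 2) * u.1 ^ 2 + (E * u.2 - F * u.1) ^ 2 := by
      rw [BB]; ring
    have h2 : 0 ≤ E * BB E F H u u := by rw [h1]; positivity
    exact nonneg_of_mul_nonneg_right h2 hE'
  have hgram : (E * H - F ^ 2) * cr P Q ^ 2 = BB E F H P P * BB E F H Q Q - BB E F H P Q ^ 2 := by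
    simp only [BB, cr]; ring
  rw [le_div_iff₀ (by positivity)]
  have h1 : (|cr P Q| * (2 * √(E * H - F ^ 2))) ^ 2 ≤ (BB E F H P P + BB E F H Q Q) ^ 2 := by
    have e : (|cr P Q| * (2 * √(E * H - F ^ 2))) ^ 2 = 4 * ((E * H - F ^ 2) * cr P Q ^ 2) := by
      rw [mul_pow, mul_pow, sq_abs, hs2]; ring
    rw [e, hgram]
    nlinarith [sq_nonneg (BB E F H P Q), sq_nonneg (BB E F H P P - BB E F H Q Q)]
  exact (pow_le_pow_iff_left₀ (by positivity) (add_nonneg (hB P) (hB Q)) two_ne_zero).1 h1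

/-- angle of the sample point -/
noncomputable def ang (n i : ℕ) : ℝ := Real.pi * i / n

/-- the flat form of a family of plane vectors -/
noncomputable def flat (n q : ℕ) (b : ℕ → ℝ × ℝ) : ℝ :=
  ∑ l ∈ Finset.range q, ∑ i ∈ Finset.range n, ∑ j ∈ Finset.range n,
    Real.sin ((2 * l + 1) * (ang n j - ang n i)) * cr (b i) (b j)

theorem flat_nonneg_case {n q : ℕ} (hn : n = 2 * q) (hq : 0 < q) {E F H : ℝ} {b : ℕ → ℝ × ℝ}
    (hE : 0 ≤ E) (hD : 0 < E * H - F ^ 2)
    (hb : ∀ i < n, BB E F H (b i) (b i) ≤ E * H - F ^ 2) :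
    |flat n q b| ≤ (n : ℝ) ^ 2 / 2 * √(E * H - F ^ 2) := by
  set s := √(E * H - F ^ 2) with hs
  have hs0 : 0 < s := Real.sqrt_pos.2 hD
  have hs2 : s ^ 2 = E * H - F ^ 2 := Real.sq_sqrt hD.le
  set P : ℕ → ℝ × ℝ := fun l =>
    ∑ i ∈ Finset.range n, Real.cos ((2 * l + 1) * ang n i) • b i with hP
  set Q : ℕ → ℝ × ℝ := fun l =>
    ∑ i ∈ Finset.range n, Real.sin ((2 * l + 1) * ang n i) • b i with hQ
  have h1 : ∀ l : ℕ, ∑ i ∈ Finset.range n, ∑ j ∈ Finset.range n,
      Real.sin ((2 * l + 1) * (ang n j - ang n i)) * cr (b i) (b j) = 2 * cr (P l) (Q l) := by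
    intro l
    have e1 : cr (P l) (Q l) = ∑ i ∈ Finset.range n, ∑ j ∈ Finset.range n,
        Real.cos ((2 * l + 1) * ang n i) * Real.sin ((2 * l + 1) * ang n j) * cr (b i) (b j) :=
      cr_sum2 _ b _ _
    have e2 : cr (Q l) (P l) = ∑ i ∈ Finset.range n, ∑ j ∈ Finset.range n,
        Real.sin ((2 * l + 1) * ang n i) * Real.cos ((2 * l + 1) * ang n j) * cr (b i) (b j) :=
      cr_sum2 _ b _ _
    have e3 : 2 * cr (P l) (Q l) = cr (P l) (Q l) - cr (Q l) (P l) := by
      rw [cr_comm (Q l) (P l)]; ring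
    rw [e3, e1, e2, ← Finset.sum_sub_distrib]
    refine Finset.sum_congr rfl fun i _ => ?_
    rw [← Finset.sum_sub_distrib]
    refine Finset.sum_congr rfl fun j _ => ?_
    rw [mul_sub, Real.sin_sub]
    ring
  have h2 : ∑ l ∈ Finset.range q, (BB E F H (P l) (P l) + BB E F H (Q l) (Q l)) =
      q * ∑ i ∈ Finset.range n, BB E F H (b i) (b i) := by
    have e1 : ∀ l : ℕ, BB E F H (P l) (P l) + BB E F H (Q l) (Q l) =
        ∑ i ∈ Finset.range n, ∑ j ∈ Finset.range n,
          Real.cos ((2 * l + 1) * (ang n j - ang n i)) * BB E F H (b i) (b j) := by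
      intro l
      rw [hP, hQ]
      simp only
      rw [BB_sum2, BB_sum2, ← Finset.sum_add_distrib]
      refine Finset.sum_congr rfl fun i _ => ?_
      rw [← Finset.sum_add_distrib]
      refine Finset.sum_congr rfl fun j _ => ?_
      rw [mul_sub, Real.cos_sub]
      ring
    rw [Finset.sum_congr rfl fun l _ => e1 l, Finset.sum_comm, Finset.mul_sum]
    refine Finset.sum_congr rfl fun i hi => ?_
    rw [Finset.sum_comm]
    have e2 : ∀ j ∈ Finset.range n, ∑ l ∈ Finset.range q,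
        Real.cos ((2 * l + 1) * (ang n j - ang n i)) * BB E F H (b i) (b j) =
        if i = j then (q : ℝ) * BB E F H (b i) (b j) else 0 := by
      intro j hj
      rw [← Finset.sum_mul]
      have := odd_cos_orth hn hq (Finset.mem_range.1 hi) (Finset.mem_range.1 hj)
      have e3 : ∀ l : ℕ, Real.cos ((2 * l + 1) * (ang n j - ang n i)) =
          Real.cos ((2 * l + 1) * (Real.pi * j / n - Real.pi * i / n)) := fun l => rfl
      rw [Finset.sum_congr rfl fun l _ => e3 l, this]
      split_ifs <;> ring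
    rw [Finset.sum_congr rfl e2, Finset.sum_ite_eq, if_pos hi]
  have h3 : |flat n q b| ≤ ∑ l ∈ Finset.range q,
      (BB E F H (P l) (P l) + BB E F H (Q l) (Q l)) / s := by
    rw [flat]
    refine (Finset.abs_sum_le_sum_abs _ _).trans (Finset.sum_le_sum fun l _ => ?_)
    rw [h1, abs_mul, abs_two]
    have := gram_le hD hE (P l) (Q l)
    rw [← hs] at this
    calc 2 * |cr (P l) (Q l)| ≤ 2 * ((BB E F H (P l) (P l) + BB E F H (Q l) (Q l)) / (2 * s)) := by
          linarith
      _ = _ := by field_simp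
  rw [← Finset.sum_div, h2] at h3
  have h4 : ∑ i ∈ Finset.range n, BB E F H (b i) (b i) ≤ n * s ^ 2 := by
    rw [hs2]
    have := Finset.sum_le_sum fun i (hi : i ∈ Finset.range n) => hb i (Finset.mem_range.1 hi)
    rwa [Finset.sum_const, Finset.card_range, nsmul_eq_mul] at this
  refine h3.trans ?_
  rw [div_le_iff₀ hs0]
  have hnq : (n : ℝ) = 2 * q := by rw [hn]; push_cast; ring
  have hq' : (0 : ℝ) ≤ q := Nat.cast_nonneg _
  calc (q : ℝ) * ∑ i ∈ Finset.range n, BB E F H (b i) (b i) ≤ q * (n * s ^ 2) := by gcongr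
    _ = (n : ℝ) ^ 2 / 2 * s * s := by rw [hnq]; ring

/-- **Pointwise inequality**: for covectors of length at most one for the metric `(E, F, H)`. -/
theorem flat_pointwise {n q : ℕ} (hn : n = 2 * q) (hq : 0 < q) {E F H : ℝ} {b : ℕ → ℝ × ℝ}
    (h : ∀ i < n, ∀ v : ℝ × ℝ, ((b i).1 * v.1 + (b i).2 * v.2) ^ 2 ≤
      E * v.1 ^ 2 + 2 * F * (v.1 * v.2) + H * v.2 ^ 2) :
    |flat n q b| ≤ (n : ℝ) ^ 2 / 2 * √(E * H - F ^ 2) := by
  have hn0 : 0 < n := by omega
  obtain ⟨hE, hH, hD, -⟩ := BB_le (h 0 hn0)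
  have hB : ∀ i < n, BB E F H (b i) (b i) ≤ E * H - F ^ 2 := fun i hi => (BB_le (h i hi)).2.2.2
  rcases hD.lt_or_eq with hD' | hD'
  · exact flat_nonneg_case hn hq hE hD' hB
  · -- degenerate metric: all covectors are collinear
    have hcol : ∀ i < n, ∀ j < n, cr (b i) (b j) = 0 := by
      have hnull : ∃ v : ℝ × ℝ, v ≠ 0 ∧ E * v.1 ^ 2 + 2 * F * (v.1 * v.2) + H * v.2 ^ 2 = 0 := by
        rcases hE.lt_or_eq with hE' | hE'
        · refine ⟨(-F, E), ?_, ?_⟩
          · intro h0
            have : E = 0 := congrArg Prod.snd h0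
            linarith
          · simp only
            have e : E * (-F) ^ 2 + 2 * F * (-F * E) + H * E ^ 2 = E * (E * H - F ^ 2) := by ring
            rw [e, ← hD', mul_zero]
        · refine ⟨(1, 0), ?_, ?_⟩
          · intro h0
            have : (1 : ℝ) = 0 := congrArg Prod.fst h0
            exact one_ne_zero this
          · simp only
            rw [← hE']
            ring
      obtain ⟨v, hv0, hv⟩ := hnull
      have hperp : ∀ i < n, (b i).1 * v.1 + (b i).2 * v.2 = 0 := by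
        intro i hi
        have := h i hi v
        rw [hv] at this
        nlinarith [sq_nonneg ((b i).1 * v.1 + (b i).2 * v.2)]
      intro i hi j hj
      have e1 := hperp i hi
      have e2 := hperp j hj
      have h1 : v.1 * cr (b i) (b j) = 0 := by
        rw [cr]
        linear_combination (b j).2 * e1 - (b i).2 * e2
      have h2 : v.2 * cr (b i) (b j) = 0 := by
        rw [cr]
        linear_combination -(b j).1 * e1 + (b i).1 * e2
      by_contra hcon
      apply hv0
      ext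
      · exact (mul_eq_zero.1 h1).resolve_right hcon
      · exact (mul_eq_zero.1 h2).resolve_right hcon
    have h0 : flat n q b = 0 := by
      rw [flat]
      refine Finset.sum_eq_zero fun l _ => Finset.sum_eq_zero fun i hi =>
        Finset.sum_eq_zero fun j hj => ?_
      rw [hcol i (Finset.mem_range.1 hi) j (Finset.mem_range.1 hj), mul_zero]
    rw [h0, abs_zero]
    positivity

end Pool.Agent.FillVol
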