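import Pool.Agent.Work.MP_e09eef_gt.Arc1
import Pool.Agent.Work.MP_e09eef_gt.Riem1

/-!
# The flux identity in the triangle chart
-/

set_option autoImplicit false

open MeasureTheory Set Filter Topology
open scoped ENNReal NNReal

namespace Pool.Agent.FillVol

theorem det_eq_cr (L : (ℝ × ℝ) →L[ℝ] (ℝ × ℝ)) : L.det = cr (L (1, 0)) (L (0, 1)) := by
  rw [ContinuousLinearMap.det, ← LinearMap.det_toMatrix (Module.Basis.finTwoProd ℝ),
    Matrix.det_fin_two]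
  simp [LinearMap.toMatrix_apply, cr]
  ring

theorem sqt_deriv (x : ℝ × ℝ) : ∃ L : (ℝ × ℝ) →L[ℝ] (ℝ × ℝ), HasFDerivAt sqt L x ∧
    L.det = x.1 := by
  have h1 : HasFDerivAt (fun x : ℝ × ℝ => x.1 * (1 - x.2)) _ x :=
    (hasFDerivAt_fst (𝕜 := ℝ) (E := ℝ) (F := ℝ) (p := x)).mul
      ((hasFDerivAt_const (1 : ℝ) x).sub hasFDerivAt_snd)
  have h2 : HasFDerivAt (fun x : ℝ × ℝ => x.1 * x.2) _ x :=
    (hasFDerivAt_fst (𝕜 := ℝ) (E := ℝ) (F := ℝ) (p := x)).mul hasFDerivAt_snd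
  refine ⟨_, h1.prodMk h2, ?_⟩
  rw [det_eq_cr]
  simp [cr]
  ring

theorem sqt_image : sqt '' SqI = Tri := by
  ext y
  constructor
  · rintro ⟨x, hx, rfl⟩
    exact sqt_mem hx
  · intro hy
    obtain ⟨h1, h2, h3⟩ := hy
    have hs : 0 < y.1 + y.2 := by linarith
    refine ⟨tsq y, ⟨⟨hs, h3⟩, ⟨?_, ?_⟩⟩, ?_⟩
    · show 0 < y.2 * (y.1 + y.2)⁻¹
      positivity
    · show y.2 * (y.1 + y.2)⁻¹ < 1
      rw [← div_eq_mul_inv, div_lt_one hs]
      linarith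
    · ext
      · show (y.1 + y.2) * (1 - y.2 * (y.1 + y.2)⁻¹) = y.1
        field_simp
        ring
      · show (y.1 + y.2) * (y.2 * (y.1 + y.2)⁻¹) = y.2
        field_simp

theorem sqt_inj : InjOn sqt SqI := by
  intro x hx y hy hxy
  rw [← tsq_sqt hx, hxy, tsq_sqt hy]

theorem cr_abs_le (u v : ℝ × ℝ) : |cr u v| ≤ 2 * (‖u‖ * ‖v‖) := by
  have h1 : |u.1| ≤ ‖u‖ := norm_fst_le u
  have h2 : |u.2| ≤ ‖u‖ := norm_snd_le u
  have h3 : |v.1| ≤ ‖v‖ := norm_fst_le v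
  have h4 : |v.2| ≤ ‖v‖ := norm_snd_le v
  rw [cr]
  calc |u.1 * v.2 - u.2 * v.1| ≤ |u.1 * v.2| + |u.2 * v.1| := abs_sub _ _
    _ = |u.1| * |v.2| + |u.2| * |v.1| := by rw [abs_mul, abs_mul]
    _ ≤ ‖u‖ * ‖v‖ + ‖u‖ * ‖v‖ := by gcongr
    _ = _ := by ring

theorem jac_meas (P : ℝ × ℝ → ℝ × ℝ) : Measurable (jac P) := by
  unfold jac
  have h1 : Measurable fun x => fderiv ℝ P x (1, 0) := measurable_fderiv_apply_const ℝ _ _
  have h2 : Measurable fun x => fderiv ℝ P x (0, 1) := measurable_fderiv_apply_const ℝ _ _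
  exact cr_cont2.measurable.comp (h1.prodMk h2)

theorem jac_bound {P : ℝ × ℝ → ℝ × ℝ} {K : ℝ≥0} (hL : LipschitzWith K P) (x : ℝ × ℝ) :
    |jac P x| ≤ 2 * (K * K) := by
  have h0 : ‖fderiv ℝ P x‖ ≤ K := norm_fderiv_le_of_lipschitz ℝ hL
  have e1 : ‖((1, 0) : ℝ × ℝ)‖ = 1 := by simp [Prod.norm_def]
  have e2 : ‖((0, 1) : ℝ × ℝ)‖ = 1 := by simp [Prod.norm_def]
  have h1 : ‖fderiv ℝ P x (1, 0)‖ ≤ K := by
    have := (fderiv ℝ P x).le_opNorm (1, 0)
    rw [e1, mul_one] at this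
    exact this.trans h0
  have h2 : ‖fderiv ℝ P x (0, 1)‖ ≤ K := by
    have := (fderiv ℝ P x).le_opNorm (0, 1)
    rw [e2, mul_one] at this
    exact this.trans h0
  rw [jac]
  refine (cr_abs_le _ _).trans ?_
  gcongr

theorem SqI_finite : volume SqI < ⊤ := by
  have hb : Bornology.IsBounded SqI :=
    ((Metric.isBounded_Icc (0 : ℝ) 1).prod (Metric.isBounded_Icc (0 : ℝ) 1)).subset
      (prod_mono Ioo_subset_Icc_self Ioo_subset_Icc_self)
  exact hb.measure_lt_top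

theorem jac_integrable {P : ℝ × ℝ → ℝ × ℝ} {K : ℝ≥0} (hL : LipschitzWith K P) :
    IntegrableOn (jac P) SqI := by
  refine Measure.integrableOn_of_bounded (M := 2 * (K * K)) SqI_finite.ne
    (jac_meas P).aestronglyMeasurable ?_
  exact Filter.Eventually.of_forall fun x => by
    rw [Real.norm_eq_abs]
    exact jac_bound hL x

theorem tri_transfer {H : (Fin 3 → ℝ) → ℝ × ℝ} {P : ℝ × ℝ → ℝ × ℝ} {K : ℝ≥0}
    (hL : LipschitzWith K P) (hP : ∀ x ∈ SqC, P x = H (chi x)) :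
    IntegrableOn (jac fun y => H (tri y)) Tri ∧
      ∫ y in Tri, jac (fun y => H (tri y)) y = ∫ x in SqO, jac P x := by
  choose L hL1 hL2 using sqt_deriv
  have hm : MeasurableSet SqI := measurableSet_Ioo.prod measurableSet_Ioo
  have hd : ∀ x ∈ SqI, HasFDerivWithinAt sqt (L x) SqI x := fun x _ =>
    (hL1 x).hasFDerivWithinAt
  have hae : (fun x => |(L x).det| • jac (fun y => H (tri y)) (sqt x)) =ᵐ[volume.restrict SqI]
      jac P := by
    filter_upwards [ae_restrict_of_ae hL.ae_differentiableAt, ae_restrict_mem hm] with x hx1 hx2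
    have hx0 : 0 < x.1 := hx2.1.1
    rw [hL2, jac_transfer hP hx2 hx1, abs_of_pos hx0, smul_eq_mul, ← mul_assoc,
      mul_inv_cancel₀ hx0.ne', one_mul]
  constructor
  · rw [← sqt_image, integrableOn_image_iff_integrableOn_abs_det_fderiv_smul volume hm hd sqt_inj]
    exact (jac_integrable hL).congr hae.symm
  · rw [← sqt_image, integral_image_eq_integral_abs_det_fderiv_smul volume hm hd sqt_inj,
      integral_congr_ae hae, SqO_restrict]

/-- flux identity on the triangle -/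
theorem flux_tri {f : AddCircle (2 * Real.pi) → EE}
    (hf : ∀ (m x : AddCircle (2 * Real.pi)), (f m) x = dist m x) {N' : ℕ} (hN : 0 < N')
    (c : ((Fin 3 → ℝ) → EE) →₀ ℤ)
    (hσ : ∀ σ ∈ c.support, ∃ K, LipschitzOnWith K σ (stdSimplex ℝ (Fin 3)))
    (hc : bd c = fc f) :
    (∀ σ ∈ c.support, ∀ i j : ℕ, i < 3 * N' → j < 3 * N' → IntegrableOn
      (jac fun y => (σ (tri y) (pp (3 * N') i), σ (tri y) (pp (3 * N') j))) Tri) ∧
    ∀ i j : ℕ, i < j → j < 3 * N' → ∑ σ ∈ c.support, (c σ : ℝ) *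
      ∫ y in Tri, jac (fun y => (σ (tri y) (pp (3 * N') i), σ (tri y) (pp (3 * N') j))) y =
      2 * ((j : ℝ) - i) * ((3 * N' : ℕ) - ((j : ℝ) - i)) * (Real.pi / (3 * N' : ℕ)) ^ 2 := by
  have hex : ∀ τ : (Fin 3 → ℝ) → EE, ∃ (G : ℝ × ℝ → Fin (3 * N') → ℝ) (K : ℝ≥0),
      τ ∈ c.support → LipschitzWith K G ∧
      ∀ x ∈ SqC, ∀ i : Fin (3 * N'), G x i = τ (chi x) (pp (3 * N') i) := by
    intro τ
    by_cases h : τ ∈ c.support
    · obtain ⟨G, K, h1, h2⟩ := exists_G (3 * N') (hσ τ h)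
      exact ⟨G, K, fun _ => ⟨h1, h2⟩⟩
    · exact ⟨fun _ _ => 0, 0, fun h' => absurd h' h⟩
  choose G K hGK using hex
  have key : ∀ σ ∈ c.support, ∀ i j : Fin (3 * N'), IntegrableOn
      (jac fun y => (σ (tri y) (pp (3 * N') i), σ (tri y) (pp (3 * N') j))) Tri ∧
      ∫ y in Tri, jac (fun y => (σ (tri y) (pp (3 * N') i), σ (tri y) (pp (3 * N') j))) y =
        ∫ x in SqO, JJ (G σ) i j x := by
    intro σ h i j
    exact tri_transfer (H := fun z => (σ z (pp (3 * N') i), σ z (pp (3 * N') j)))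
      (pair_lip (hGK σ h).1 i j) (by
        intro x hx
        rw [(hGK σ h).2 x hx i, (hGK σ h).2 x hx j])
  refine ⟨fun σ h i j hi hj => (key σ h ⟨i, hi⟩ ⟨j, hj⟩).1, fun i j hij hj => ?_⟩
  have hi : i < 3 * N' := hij.trans hj
  have h1 := pair_identity hf hN c hc G K (fun σ h => (hGK σ h).1) (fun σ h => (hGK σ h).2)
    (i := ⟨i, hi⟩) (j := ⟨j, hj⟩) hij
  rw [← h1]
  exact Finset.sum_congr rfl fun σ h => by rw [← (key σ h ⟨i, hi⟩ ⟨j, hj⟩).2]

end Pool.Agent.FillVol
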