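import Pool.Agent.Work.MP_e09eef_gt.Riem2

/-!
# The flux of the flat form
-/

set_option autoImplicit false

open MeasureTheory Set Filter Topology
open scoped ENNReal NNReal

namespace Pool.Agent.FillVol

/-- the summand of the flux of the frequency `k` -/
noncomputable def hh (n : ℕ) (k : ℝ) (m : ℕ) : ℝ :=
  Real.sin (k * (Real.pi * m / n)) * (2 * m * (n - m) * (Real.pi / n) ^ 2)

theorem hh_symm {n : ℕ} (hn : 0 < n) (l m : ℕ) (hm : m ≤ n) :
    hh n (2 * l + 1) (n - m) = hh n (2 * l + 1) m := by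
  have hn' : (0 : ℝ) < n := by exact_mod_cast hn
  rw [hh, hh, Nat.cast_sub hm]
  have e : (2 * (l : ℝ) + 1) * (Real.pi * ((n : ℝ) - m) / n) =
      Real.pi - (2 * (l : ℝ) + 1) * (Real.pi * m / n) + (l : ℤ) * (2 * Real.pi) := by
    push_cast
    field_simp
    ring
  rw [e, Real.sin_add_int_mul_two_pi, Real.sin_pi_sub]
  ring

/-- sum over all ordered pairs of a symmetric function of the distance on the cycle -/
theorem sum_cyc {n : ℕ} (h : ℕ → ℝ) (hs : ∀ m ≤ n, h (n - m) = h m) {i : ℕ} (hi : i < n) :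
    ∑ j ∈ Finset.range n, h (if i ≤ j then j - i else i - j) = ∑ m ∈ Finset.range n, h m := by
  obtain ⟨d, rfl⟩ : ∃ d, n = i + d := ⟨n - i, by omega⟩
  rw [Finset.sum_range_add, add_comm i d, Finset.sum_range_add]
  rw [add_comm]
  congr 1
  · refine Finset.sum_congr rfl fun x _ => ?_
    rw [if_pos (Nat.le_add_right i x), Nat.add_sub_cancel_left]
  · refine Finset.sum_congr rfl fun x hx => ?_
    have hx' := Finset.mem_range.1 hx
    rw [if_neg (by omega)]
    rw [← hs (i - x) (by omega)]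
    congr 1
    omega

theorem sum_W (n : ℕ) (x : ℝ) (M : ℕ) :
    4 * Real.sin x ^ 2 * ∑ m ∈ Finset.range (M + 1), (m : ℝ) * (n - m) * Real.sin (2 * m * x) =
      2 * ∑ m ∈ Finset.range (M + 1), Real.sin (2 * m * x) -
        ((M : ℝ) * (n - M) * Real.sin (2 * (M + 1) * x) -
          ((M : ℝ) + 1) * (n - (M + 1)) * Real.sin (2 * M * x)) := by
  induction M with
  | zero => simp
  | succ M ih =>
    rw [Finset.sum_range_succ, mul_add, ih, Finset.sum_range_succ _ (M + 1)]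
    have e1 : 2 * (((M + 1 : ℕ) : ℝ) + 1) * x = 2 * ((M : ℝ) + 1) * x + 2 * x := by push_cast; ring
    have e2 : 2 * ((M + 1 : ℕ) : ℝ) * x = 2 * ((M : ℝ) + 1) * x := by push_cast; ring
    have e3 : 2 * (M : ℝ) * x = 2 * ((M : ℝ) + 1) * x - 2 * x := by ring
    rw [e1, e2, e3, Real.sin_add, Real.sin_sub, Real.cos_two_mul, Real.sin_two_mul]
    have e4 : Real.sin x ^ 2 = 1 - Real.cos x ^ 2 := by
      have := Real.sin_sq_add_cos_sq x
      linarith
    push_cast
    rw [e4]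
    ring

theorem sum_sin_odd (x : ℝ) (M : ℕ) :
    2 * Real.sin x * ∑ m ∈ Finset.range (M + 1), Real.sin (2 * m * x) =
      Real.cos x - Real.cos ((2 * M + 1) * x) := by
  induction M with
  | zero => simp
  | succ M ih =>
    rw [Finset.sum_range_succ, mul_add, ih]
    have e1 : (2 * ((M + 1 : ℕ) : ℝ) + 1) * x = 2 * ((M + 1 : ℕ) : ℝ) * x + x := by ring
    have e2 : (2 * (M : ℝ) + 1) * x = 2 * ((M + 1 : ℕ) : ℝ) * x - x := by push_cast; ring
    rw [e1, e2, Real.cos_add, Real.cos_sub]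
    ring

/-- closed form of the flux of one odd frequency -/
theorem sum_hh {n : ℕ} (hn : 0 < n) (l : ℕ) {x : ℝ} (hx : x = (2 * l + 1) * Real.pi / (2 * n))
    (hs : 0 < Real.sin x) :
    ∑ m ∈ Finset.range n, hh n (2 * l + 1) m =
      (Real.pi / n) ^ 2 * (Real.cos x / Real.sin x ^ 3) := by
  have hn' : (0 : ℝ) < n := by exact_mod_cast hn
  obtain ⟨M, rfl⟩ : ∃ M, n = M + 1 := ⟨n - 1, by omega⟩
  have hnx : 2 * ((M + 1 : ℕ) : ℝ) * x = (2 * l + 1) * Real.pi := by
    rw [hx]; field_simp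
  have h1 := sum_W (M + 1) x M
  have h2 := sum_sin_odd x M
  have h3 : Real.sin (2 * ((M : ℝ) + 1) * x) = 0 := by
    have e : 2 * ((M : ℝ) + 1) * x = ((2 * l + 1 : ℤ) : ℝ) * Real.pi := by
      push_cast at hnx ⊢
      exact hnx
    rw [e, Real.sin_int_mul_pi]
  have h4 : Real.cos ((2 * (M : ℝ) + 1) * x) = -Real.cos x := by
    have e : (2 * (M : ℝ) + 1) * x = Real.pi - x + (l : ℤ) * (2 * Real.pi) := by
      push_cast at hnx ⊢
      linarith
    rw [e, Real.cos_add_int_mul_two_pi, Real.cos_pi_sub]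
  rw [h3, Nat.cast_add, Nat.cast_one, sub_self, mul_zero, mul_zero, zero_mul, sub_self,
    sub_zero] at h1
  rw [h4] at h2
  have h5 : ∑ m ∈ Finset.range (M + 1), hh (M + 1) (2 * l + 1) m =
      2 * (Real.pi / ((M + 1 : ℕ) : ℝ)) ^ 2 *
        ∑ m ∈ Finset.range (M + 1), (m : ℝ) * (((M : ℝ) + 1) - m) * Real.sin (2 * m * x) := by
    rw [Finset.mul_sum]
    refine Finset.sum_congr rfl fun m _ => ?_
    have e : (2 * (l : ℝ) + 1) * (Real.pi * m / ((M + 1 : ℕ) : ℝ)) = 2 * m * x := by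
      rw [hx]
      field_simp
    rw [hh, e]
    push_cast
    ring
  rw [h5]
  set A := ∑ m ∈ Finset.range (M + 1), (m : ℝ) * (((M : ℝ) + 1) - m) * Real.sin (2 * m * x)
  set B := ∑ m ∈ Finset.range (M + 1), Real.sin (2 * m * x)
  have h6 : B = Real.cos x / Real.sin x := by
    rw [eq_div_iff hs.ne']
    linarith
  have h7 : A = Real.cos x / (2 * Real.sin x ^ 3) := by
    rw [eq_div_iff (by positivity)]
    rw [h6] at h1
    have : 4 * Real.sin x ^ 2 * A * Real.sin x = 2 * Real.cos x := by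
      rw [h1]; field_simp
    nlinarith
  rw [h7]
  field_simp

/-- lower bound for the flux of one odd frequency -/
theorem sum_hh_ge {n : ℕ} (hn : 0 < n) (l : ℕ) (hl : 2 * l + 1 < n) :
    8 * (n : ℝ) / Real.pi * (Real.cos ((2 * l + 1) * Real.pi / (2 * n)) / (2 * l + 1) ^ 3) ≤
      ∑ m ∈ Finset.range n, hh n (2 * l + 1) m := by
  have hn' : (0 : ℝ) < n := by exact_mod_cast hn
  have hl' : 2 * (l : ℝ) + 1 < n := by exact_mod_cast hl
  have hπ := Real.pi_pos
  set x : ℝ := (2 * l + 1) * Real.pi / (2 * n) with hx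
  have hx0 : 0 < x := by positivity
  have hx1 : x < Real.pi / 2 := by
    rw [hx, div_lt_div_iff₀ (by positivity) (by positivity)]
    nlinarith
  have hs : 0 < Real.sin x := Real.sin_pos_of_pos_of_lt_pi hx0 (by linarith)
  have hc : 0 < Real.cos x := Real.cos_pos_of_mem_Ioo ⟨by linarith, hx1⟩
  rw [sum_hh hn l hx hs]
  have h1 : Real.sin x ^ 3 ≤ x ^ 3 := pow_le_pow_left₀ hs.le (Real.sin_le hx0.le) 3
  have h2 : Real.cos x / x ^ 3 ≤ Real.cos x / Real.sin x ^ 3 :=
    div_le_div_of_nonneg_left hc.le (by positivity) h1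
  calc 8 * (n : ℝ) / Real.pi * (Real.cos x / (2 * l + 1) ^ 3)
      = (Real.pi / n) ^ 2 * (Real.cos x / x ^ 3) := by
        rw [hx]
        field_simp
        ring
    _ ≤ _ := by gcongr

theorem sum_hh_nonneg {n : ℕ} (hn : 0 < n) (l : ℕ) (hl : 2 * l + 1 < n) :
    0 ≤ ∑ m ∈ Finset.range n, hh n (2 * l + 1) m := by
  refine le_trans ?_ (sum_hh_ge hn l hl)
  have hn' : (0 : ℝ) < n := by exact_mod_cast hn
  have hl' : 2 * (l : ℝ) + 1 < n := by exact_mod_cast hl
  have hπ := Real.pi_pos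
  have hc : 0 ≤ Real.cos ((2 * l + 1) * Real.pi / (2 * n)) := by
    apply Real.cos_nonneg_of_mem_Icc
    constructor
    · have : 0 ≤ (2 * (l : ℝ) + 1) * Real.pi / (2 * n) := by positivity
      linarith
    · rw [div_le_div_iff₀ (by positivity) (by positivity)]
      nlinarith
  positivity

end Pool.Agent.FillVol
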