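import Pool.Agent.Work.MP_e09eef_gt.Riem3

/-!
# Lower bound for the area of a filling with Euclidean tangent planes
-/

set_option autoImplicit false

open MeasureTheory Set Filter Topology
open scoped ENNReal NNReal

namespace Pool.Agent.FillVol

theorem tri_mem {y : ℝ × ℝ} (hy : y ∈ Tri) : tri y ∈ stdSimplex ℝ (Fin 3) := by
  obtain ⟨h1, h2, h3⟩ := hy
  refine ⟨?_, ?_⟩
  · intro i
    fin_cases i
    · show 0 ≤ 1 - y.1 - y.2
      linarith
    · exact h1.le
    · exact h2.le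
  · rw [Fin.sum_univ_three]
    show 1 - y.1 - y.2 + y.1 + y.2 = 1
    ring

theorem tri_lip : LipschitzOnWith 2 tri Tri := by
  refine LipschitzOnWith.of_dist_le_mul fun x _ y _ => ?_
  have d1 : |x.1 - y.1| ≤ dist x y := by
    rw [← Real.dist_eq]; exact le_max_left _ _
  have d2 : |x.2 - y.2| ≤ dist x y := by
    rw [← Real.dist_eq]; exact le_max_right _ _
  have d0 : 0 ≤ dist x y := dist_nonneg
  have c2 : ((2 : ℝ≥0) : ℝ) = 2 := rfl
  rw [c2, dist_pi_le_iff (by positivity)]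
  intro i
  fin_cases i
  · show dist (1 - x.1 - x.2) (1 - y.1 - y.2) ≤ _
    rw [Real.dist_eq]
    have : 1 - x.1 - x.2 - (1 - y.1 - y.2) = -(x.1 - y.1) + -(x.2 - y.2) := by ring
    rw [this]
    refine (abs_add_le _ _).trans ?_
    rw [abs_neg, abs_neg]
    linarith
  · show dist x.1 y.1 ≤ _
    rw [Real.dist_eq]
    linarith
  · show dist x.2 y.2 ≤ _
    rw [Real.dist_eq]
    linarith

theorem eval_diff {σ : (Fin 3 → ℝ) → EE} (hσ : ∃ K, LipschitzOnWith K σ (stdSimplex ℝ (Fin 3)))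
    (p : AddCircle (2 * Real.pi)) :
    ∀ᵐ y ∂((volume : Measure (ℝ × ℝ)).restrict Tri),
      DifferentiableAt ℝ (fun y : ℝ × ℝ => σ (tri y) p) y := by
  obtain ⟨K, hK⟩ := hσ
  have hcomp : LipschitzOnWith (K * 2) (σ ∘ tri) Tri := hK.comp tri_lip fun x hx => tri_mem hx
  have h : LipschitzOnWith (K * 2) (fun y : ℝ × ℝ => σ (tri y) p) Tri := by
    refine LipschitzOnWith.of_dist_le_mul fun x hx y hy => ?_
    rw [Real.dist_eq]
    exact (ev_lip _ _ _).trans (hcomp.dist_le_mul x hx y hy)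
  filter_upwards [h.ae_differentiableWithinAt tri_isOpen.measurableSet,
    ae_restrict_mem tri_isOpen.measurableSet] with y h1 h2
  exact h1.differentiableAt (tri_isOpen.mem_nhds h2)

/-- the covector of the `i`-th evaluation -/
noncomputable def bcov (n : ℕ) (σ : (Fin 3 → ℝ) → EE) (y : ℝ × ℝ) (i : ℕ) : ℝ × ℝ :=
  (fderiv ℝ (fun y : ℝ × ℝ => σ (tri y) (pp n i)) y (1, 0),
    fderiv ℝ (fun y : ℝ × ℝ => σ (tri y) (pp n i)) y (0, 1))

theorem jac_bcov {n : ℕ} {σ : (Fin 3 → ℝ) → EE} {y : ℝ × ℝ} {i j : ℕ}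
    (hi : DifferentiableAt ℝ (fun y : ℝ × ℝ => σ (tri y) (pp n i)) y)
    (hj : DifferentiableAt ℝ (fun y : ℝ × ℝ => σ (tri y) (pp n j)) y) :
    jac (fun y => (σ (tri y) (pp n i), σ (tri y) (pp n j))) y =
      cr (bcov n σ y i) (bcov n σ y j) := by
  have h := hi.hasFDerivAt.prodMk hj.hasFDerivAt
  rw [jac, h.fderiv]
  simp only [cr, bcov, ContinuousLinearMap.prod_apply]
  ring

theorem riem_flux {f : AddCircle (2 * Real.pi) → EE}
    (hf : ∀ (m x : AddCircle (2 * Real.pi)), (f m) x = dist m x) {N' q : ℕ} (hN : 0 < N')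
    (c : ((Fin 3 → ℝ) → EE) →₀ ℤ)
    (hσ : ∀ σ ∈ c.support, ∃ K, LipschitzOnWith K σ (stdSimplex ℝ (Fin 3)))
    (hc : bd c = fc f) :
    ∑ σ ∈ c.support, (c σ : ℝ) * ∫ y in Tri, flat (3 * N') q (bcov (3 * N') σ y) =
      ∑ l ∈ Finset.range q, ((3 * N' : ℕ) : ℝ) *
        ∑ m ∈ Finset.range (3 * N'), hh (3 * N') (2 * l + 1) m := by
  obtain ⟨hint, hflux⟩ := flux_tri hf hN c hσ hc
  have hn0 : 0 < 3 * N' := by omega
  set n := 3 * N' with hn
  set J : ((Fin 3 → ℝ) → EE) → ℕ → ℕ → ℝ × ℝ → ℝ := fun σ i j =>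
    jac fun y => (σ (tri y) (pp n i), σ (tri y) (pp n j)) with hJ
  have hflat : ∀ σ ∈ c.support, ∫ y in Tri, flat n q (bcov n σ y) =
      ∑ l ∈ Finset.range q, ∑ i ∈ Finset.range n, ∑ j ∈ Finset.range n,
        Real.sin ((2 * l + 1) * (ang n j - ang n i)) * ∫ y in Tri, J σ i j y := by
    intro σ h
    have hd : ∀ᵐ y ∂((volume : Measure (ℝ × ℝ)).restrict Tri), ∀ i : ℕ,
        DifferentiableAt ℝ (fun y : ℝ × ℝ => σ (tri y) (pp n i)) y := by
      rw [ae_all_iff]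
      exact fun i => eval_diff (hσ σ h) _
    have h1 : ∫ y in Tri, flat n q (bcov n σ y) = ∫ y in Tri,
        ∑ l ∈ Finset.range q, ∑ i ∈ Finset.range n, ∑ j ∈ Finset.range n,
        Real.sin ((2 * l + 1) * (ang n j - ang n i)) * J σ i j y := by
      refine integral_congr_ae ?_
      filter_upwards [hd] with y hy
      rw [flat]
      refine Finset.sum_congr rfl fun l _ => Finset.sum_congr rfl fun i _ =>
        Finset.sum_congr rfl fun j _ => ?_
      rw [hJ]
      simp only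
      rw [jac_bcov (hy i) (hy j)]
    have hI : ∀ (l i j : ℕ), i ∈ Finset.range n → j ∈ Finset.range n →
        Integrable (fun y => Real.sin ((2 * l + 1) * (ang n j - ang n i)) * J σ i j y)
          (volume.restrict Tri) := fun l i j hi hj =>
      (hint σ h i j (Finset.mem_range.1 hi) (Finset.mem_range.1 hj)).const_mul _
    rw [h1, integral_finsetSum _ fun l _ => integrable_finsetSum _ fun i hi =>
      integrable_finsetSum _ fun j hj => hI l i j hi hj]
    refine Finset.sum_congr rfl fun l _ => ?_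
    rw [integral_finsetSum _ fun i hi => integrable_finsetSum _ fun j hj => hI l i j hi hj]
    refine Finset.sum_congr rfl fun i hi => ?_
    rw [integral_finsetSum _ fun j hj => hI l i j hi hj]
    refine Finset.sum_congr rfl fun j _ => ?_
    rw [integral_const_mul]
  rw [Finset.sum_congr rfl fun σ h => by rw [hflat σ h]]
  -- exchange the sums
  have hex : ∑ σ ∈ c.support, (c σ : ℝ) * ∑ l ∈ Finset.range q, ∑ i ∈ Finset.range n,
      ∑ j ∈ Finset.range n, Real.sin ((2 * l + 1) * (ang n j - ang n i)) *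
        ∫ y in Tri, J σ i j y =
      ∑ l ∈ Finset.range q, ∑ i ∈ Finset.range n, ∑ j ∈ Finset.range n,
        Real.sin ((2 * l + 1) * (ang n j - ang n i)) *
          ∑ σ ∈ c.support, (c σ : ℝ) * ∫ y in Tri, J σ i j y := by
    simp_rw [Finset.mul_sum]
    rw [Finset.sum_comm]
    refine Finset.sum_congr rfl fun l _ => ?_
    rw [Finset.sum_comm]
    refine Finset.sum_congr rfl fun i _ => ?_
    rw [Finset.sum_comm]
    refine Finset.sum_congr rfl fun j _ => Finset.sum_congr rfl fun σ _ => ?_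
    ring
  rw [hex]
  have hanti : ∀ i j : ℕ, ∑ σ ∈ c.support, (c σ : ℝ) * ∫ y in Tri, J σ i j y =
      -∑ σ ∈ c.support, (c σ : ℝ) * ∫ y in Tri, J σ j i y := by
    intro i j
    rw [← Finset.sum_neg_distrib]
    refine Finset.sum_congr rfl fun σ h => ?_
    rw [← mul_neg, ← integral_neg]
    congr 1
    refine integral_congr_ae ?_
    filter_upwards [eval_diff (hσ σ h) (pp n i), eval_diff (hσ σ h) (pp n j)] with y h1 h2
    rw [hJ]
    simp only
    rw [jac_bcov h1 h2, jac_bcov h2 h1]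
    exact cr_comm _ _
  have hterm : ∀ l : ℕ, ∀ i ∈ Finset.range n, ∀ j ∈ Finset.range n,
      Real.sin ((2 * l + 1) * (ang n j - ang n i)) *
          ∑ σ ∈ c.support, (c σ : ℝ) * ∫ y in Tri, J σ i j y =
        hh n (2 * l + 1) (if i ≤ j then j - i else i - j) := by
    intro l i hi j hj
    rcases lt_trichotomy i j with h | h | h
    · rw [if_pos h.le, hflux i j h (Finset.mem_range.1 hj), hh, Nat.cast_sub h.le, ang, ang]
      congr 2
      ring
    · rw [if_pos h.le, h, Nat.sub_self, sub_self, mul_zero, Real.sin_zero, zero_mul, hh]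
      simp
    · rw [if_neg (by omega), hanti, hflux j i h (Finset.mem_range.1 hi), hh, Nat.cast_sub h.le,
        ang, ang]
      have e : (2 * (l : ℝ) + 1) * (Real.pi * j / n - Real.pi * i / n) =
          -((2 * (l : ℝ) + 1) * (Real.pi * ((i : ℝ) - j) / n)) := by ring
      rw [e, Real.sin_neg]
      ring
  refine Finset.sum_congr rfl fun l _ => ?_
  have h1 : ∀ i ∈ Finset.range n, ∑ j ∈ Finset.range n,
      Real.sin ((2 * l + 1) * (ang n j - ang n i)) *
          ∑ σ ∈ c.support, (c σ : ℝ) * ∫ y in Tri, J σ i j y =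
      ∑ m ∈ Finset.range n, hh n (2 * l + 1) m := by
    intro i hi
    rw [Finset.sum_congr rfl (hterm l i hi)]
    exact sum_cyc _ (fun m hm => hh_symm hn0 l m hm) (Finset.mem_range.1 hi)
  rw [Finset.sum_congr rfl h1, Finset.sum_const, Finset.card_range, nsmul_eq_mul]

/-- the area of the metrics `(E, F, H)` on the simplices of the chain -/
noncomputable def metricArea (c : ((Fin 3 → ℝ) → EE) →₀ ℤ)
    (E F H : ((Fin 3 → ℝ) → EE) → ℝ × ℝ → ℝ) : ℝ≥0∞ :=
  ∑ σ ∈ c.support, ((c σ).natAbs : ℝ≥0∞) *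
    ∫⁻ y in Tri, ENNReal.ofReal √(E σ y * H σ y - F σ y ^ 2)

theorem riem_N {f : AddCircle (2 * Real.pi) → EE}
    (hf : ∀ (m x : AddCircle (2 * Real.pi)), (f m) x = dist m x) {N' q : ℕ} (hq : 0 < q)
    (hNq : 3 * N' = 2 * q)
    (c : ((Fin 3 → ℝ) → EE) →₀ ℤ)
    (hσ : ∀ σ ∈ c.support, ∃ K, LipschitzOnWith K σ (stdSimplex ℝ (Fin 3)))
    (hc : bd c = fc f) (E F H : ((Fin 3 → ℝ) → EE) → ℝ × ℝ → ℝ)
    (hg : ∀ σ ∈ c.support, ∀ s : ℝ, ∀ᵐ y ∂((volume : Measure (ℝ × ℝ)).restrict Tri),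
      ∀ v : ℝ × ℝ, (fderiv ℝ (fun y : ℝ × ℝ => σ (tri y) (s : AddCircle (2 * Real.pi))) y v) ^ 2 ≤
        E σ y * v.1 ^ 2 + 2 * F σ y * (v.1 * v.2) + H σ y * v.2 ^ 2)
    {L : ℕ} (hL : L ≤ q) :
    ENNReal.ofReal (16 / Real.pi * ∑ l ∈ Finset.range L,
      Real.cos ((2 * l + 1) * Real.pi / (2 * ((3 * N' : ℕ) : ℝ))) / (2 * l + 1) ^ 3) ≤
      metricArea c E F H := by
  have hN : 0 < N' := by omega
  have hn0 : 0 < 3 * N' := by omega
  have hfl := riem_flux (q := q) hf hN c hσ hc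
  set n := 3 * N' with hn
  have hn' : (0 : ℝ) < n := by exact_mod_cast hn0
  have hπ := Real.pi_pos
  have hpt : ∀ σ ∈ c.support, ∀ᵐ y ∂((volume : Measure (ℝ × ℝ)).restrict Tri),
      |flat n q (bcov n σ y)| ≤ (n : ℝ) ^ 2 / 2 * √(E σ y * H σ y - F σ y ^ 2) := by
    intro σ h
    have h1 : ∀ᵐ y ∂((volume : Measure (ℝ × ℝ)).restrict Tri), ∀ i : ℕ, ∀ v : ℝ × ℝ,
        (fderiv ℝ (fun y : ℝ × ℝ => σ (tri y) (pp n i)) y v) ^ 2 ≤
        E σ y * v.1 ^ 2 + 2 * F σ y * (v.1 * v.2) + H σ y * v.2 ^ 2 := by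
      rw [ae_all_iff]
      exact fun i => hg σ h _
    filter_upwards [h1] with y hy
    refine flat_pointwise hNq hq fun i _ v => ?_
    have h2 := hy i v
    have e : (bcov n σ y i).1 * v.1 + (bcov n σ y i).2 * v.2 =
        fderiv ℝ (fun y : ℝ × ℝ => σ (tri y) (pp n i)) y v := by
      have ev : v = v.1 • ((1, 0) : ℝ × ℝ) + v.2 • ((0, 1) : ℝ × ℝ) := by
        ext <;> simp
      conv_rhs => rw [ev, map_add, map_smul, map_smul]
      simp only [bcov, smul_eq_mul]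
      ring
    rw [e]
    exact h2
  have hS : ENNReal.ofReal (∑ σ ∈ c.support, (c σ : ℝ) * ∫ y in Tri, flat n q (bcov n σ y)) ≤
      ENNReal.ofReal ((n : ℝ) ^ 2 / 2) * metricArea c E F H := by
    calc ENNReal.ofReal (∑ σ ∈ c.support, (c σ : ℝ) * ∫ y in Tri, flat n q (bcov n σ y))
        ≤ ‖∑ σ ∈ c.support, (c σ : ℝ) * ∫ y in Tri, flat n q (bcov n σ y)‖ₑ :=
          Real.ofReal_le_enorm _
      _ ≤ ∑ σ ∈ c.support, ‖(c σ : ℝ) * ∫ y in Tri, flat n q (bcov n σ y)‖ₑ := enorm_sum_le _ _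
      _ ≤ ∑ σ ∈ c.support, ENNReal.ofReal ((n : ℝ) ^ 2 / 2) * (((c σ).natAbs : ℝ≥0∞) *
            ∫⁻ y in Tri, ENNReal.ofReal √(E σ y * H σ y - F σ y ^ 2)) := by
          refine Finset.sum_le_sum fun σ h => ?_
          rw [enorm_mul]
          have e1 : ‖(c σ : ℝ)‖ₑ = ((c σ).natAbs : ℝ≥0∞) := by
            rw [Real.enorm_eq_ofReal_abs, ← Int.cast_abs, Int.abs_eq_natAbs, Int.cast_natCast,
              ENNReal.ofReal_natCast]
          rw [e1]
          have h2 : ‖∫ y in Tri, flat n q (bcov n σ y)‖ₑ ≤ ENNReal.ofReal ((n : ℝ) ^ 2 / 2) *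
              ∫⁻ y in Tri, ENNReal.ofReal √(E σ y * H σ y - F σ y ^ 2) := by
            refine (enorm_integral_le_lintegral_enorm _).trans ?_
            rw [← lintegral_const_mul' _ _ ENNReal.ofReal_ne_top]
            refine lintegral_mono_ae ?_
            filter_upwards [hpt σ h] with y hy
            rw [Real.enorm_eq_ofReal_abs, ← ENNReal.ofReal_mul (by positivity)]
            exact ENNReal.ofReal_le_ofReal hy
          calc ((c σ).natAbs : ℝ≥0∞) * ‖∫ y in Tri, flat n q (bcov n σ y)‖ₑ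
              ≤ ((c σ).natAbs : ℝ≥0∞) * (ENNReal.ofReal ((n : ℝ) ^ 2 / 2) *
                ∫⁻ y in Tri, ENNReal.ofReal √(E σ y * H σ y - F σ y ^ 2)) := by gcongr
            _ = _ := by ring
      _ = _ := by rw [metricArea, Finset.mul_sum]
  rw [hfl] at hS
  have hlow : (n : ℝ) ^ 2 / 2 * (16 / Real.pi * ∑ l ∈ Finset.range L,
      Real.cos ((2 * l + 1) * Real.pi / (2 * (n : ℝ))) / (2 * l + 1) ^ 3) ≤
      ∑ l ∈ Finset.range q, (n : ℝ) * ∑ m ∈ Finset.range n, hh n (2 * l + 1) m := by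
    have h1 : ∑ l ∈ Finset.range L, (n : ℝ) * ∑ m ∈ Finset.range n, hh n (2 * l + 1) m ≤
        ∑ l ∈ Finset.range q, (n : ℝ) * ∑ m ∈ Finset.range n, hh n (2 * l + 1) m := by
      refine Finset.sum_le_sum_of_subset_of_nonneg (Finset.range_mono hL) fun l hl _ => ?_
      have := sum_hh_nonneg hn0 l (by have := Finset.mem_range.1 hl; omega)
      positivity
    refine le_trans ?_ h1
    rw [Finset.mul_sum, Finset.mul_sum]
    refine Finset.sum_le_sum fun l hl => ?_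
    have hl' := Finset.mem_range.1 hl
    have h2 := sum_hh_ge hn0 l (by omega)
    calc (n : ℝ) ^ 2 / 2 * (16 / Real.pi *
          (Real.cos ((2 * l + 1) * Real.pi / (2 * (n : ℝ))) / (2 * l + 1) ^ 3))
        = (n : ℝ) * (8 * (n : ℝ) / Real.pi *
          (Real.cos ((2 * l + 1) * Real.pi / (2 * n)) / (2 * l + 1) ^ 3)) := by ring
      _ ≤ _ := by gcongr
  have h3 := (ENNReal.ofReal_le_ofReal hlow).trans hS
  rw [ENNReal.ofReal_mul (by positivity)] at h3
  have h4 : ENNReal.ofReal ((n : ℝ) ^ 2 / 2) ≠ 0 := by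
    rw [ne_eq, ENNReal.ofReal_eq_zero, not_le]
    positivity
  exact (ENNReal.mul_le_mul_iff_right h4 ENNReal.ofReal_ne_top).1 h3

theorem summable_odd : Summable fun l : ℕ => 1 / (2 * (l : ℝ) + 1) ^ 3 := by
  have h : Summable fun l : ℕ => 1 / ((l : ℝ) + 1) ^ 3 := by
    have := (summable_nat_add_iff 1).2 (Real.summable_one_div_nat_pow.2 (by norm_num : 1 < 3))
    simpa using this
  refine Summable.of_nonneg_of_le (fun l => by positivity) (fun l => ?_) h
  apply one_div_le_one_div_of_le (by positivity)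
  apply pow_le_pow_left₀ (by positivity)
  have : (0 : ℝ) ≤ l := Nat.cast_nonneg _
  linarith

/-- **Lower bound for metrics on the simplices.** -/
theorem riem_bound {f : AddCircle (2 * Real.pi) → EE}
    (hf : ∀ (m x : AddCircle (2 * Real.pi)), (f m) x = dist m x)
    (c : ((Fin 3 → ℝ) → EE) →₀ ℤ)
    (hσ : ∀ σ ∈ c.support, ∃ K, LipschitzOnWith K σ (stdSimplex ℝ (Fin 3)))
    (hc : bd c = fc f) (E F H : ((Fin 3 → ℝ) → EE) → ℝ × ℝ → ℝ)
    (hg : ∀ σ ∈ c.support, ∀ s : ℝ, ∀ᵐ y ∂((volume : Measure (ℝ × ℝ)).restrict Tri),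
      ∀ v : ℝ × ℝ, (fderiv ℝ (fun y : ℝ × ℝ => σ (tri y) (s : AddCircle (2 * Real.pi))) y v) ^ 2 ≤
        E σ y * v.1 ^ 2 + 2 * F σ y * (v.1 * v.2) + H σ y * v.2 ^ 2) :
    ENNReal.ofReal (16 / Real.pi * ∑' l : ℕ, 1 / (2 * (l : ℝ) + 1) ^ 3) ≤
      metricArea c E F H := by
  have hL : ∀ L : ℕ, ENNReal.ofReal (16 / Real.pi * ∑ l ∈ Finset.range L,
      1 / (2 * (l : ℝ) + 1) ^ 3) ≤ metricArea c E F H := by
    intro L
    have h1 : Tendsto (fun m : ℕ => 16 / Real.pi * ∑ l ∈ Finset.range L,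
        Real.cos ((2 * l + 1) * Real.pi / (2 * ((3 * (2 * (m + L + 1)) : ℕ) : ℝ))) /
          (2 * l + 1) ^ 3) atTop
        (𝓝 (16 / Real.pi * ∑ l ∈ Finset.range L, 1 / (2 * (l : ℝ) + 1) ^ 3)) := by
      refine Tendsto.const_mul _ (tendsto_finsetSum _ fun l _ => Tendsto.div_const ?_ _)
      have h2 : Tendsto (fun m : ℕ => (2 * (l : ℝ) + 1) * Real.pi /
          (2 * ((3 * (2 * (m + L + 1)) : ℕ) : ℝ))) atTop (𝓝 0) := by
        refine Tendsto.div_atTop tendsto_const_nhds ?_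
        refine Tendsto.const_mul_atTop (by norm_num) ?_
        refine tendsto_natCast_atTop_atTop.comp ?_
        refine tendsto_atTop_mono (fun m => ?_) tendsto_id
        show m ≤ 3 * (2 * (m + L + 1))
        omega
      have h3 := (Real.continuous_cos.tendsto 0).comp h2
      rwa [Real.cos_zero] at h3
    refine le_of_tendsto' (ENNReal.tendsto_ofReal h1) fun m => ?_
    exact riem_N hf (N' := 2 * (m + L + 1)) (q := 3 * (m + L + 1)) (by omega) (by ring) c hσ hc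
      E F H hg (by omega)
  have h1 := (summable_odd.hasSum.tendsto_sum_nat.const_mul (16 / Real.pi))
  exact le_of_tendsto' (ENNReal.tendsto_ofReal h1) hL

end Pool.Agent.FillVol
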