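import Pool.Agent.Work.MP_e09eef_gt.Zono

/-!
# A discrete Wirtinger inequality along an ordered symmetric polygon
-/

set_option autoImplicit false

namespace Pool.Agent.FillVol

/-- reciprocal of the consecutive determinant -/
noncomputable def wt (X : ℕ → ℝ × ℝ) (i : ℕ) : ℝ := 1 / cr (X i) (X (i + 1))

/-- the second difference operator at the index `i + 1` -/
noncomputable def LL (X : ℕ → ℝ × ℝ) (y : ℕ → ℝ) (i : ℕ) : ℝ :=
  wt X i * y i + wt X (i + 1) * y (i + 2) -
    cr (X i) (X (i + 2)) * wt X i * wt X (i + 1) * y (i + 1)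

theorem cr_neg_neg (a b : ℝ × ℝ) : cr (-a) (-b) = cr a b := by
  simp [cr]

theorem cr_neg_left (a b : ℝ × ℝ) : cr (-a) b = -cr a b := by
  simp [cr]; ring

theorem cr_neg_right (a b : ℝ × ℝ) : cr a (-b) = -cr a b := by
  simp [cr]; ring

theorem cr_self (a : ℝ × ℝ) : cr a a = 0 := by
  simp [cr]; ring

theorem cr_comm (a b : ℝ × ℝ) : cr a b = -cr b a := by
  simp [cr]; ring

theorem three_cr {X : ℕ → ℝ × ℝ} {i : ℕ} (h1 : cr (X i) (X (i + 1)) ≠ 0)
    (h2 : cr (X (i + 1)) (X (i + 2)) ≠ 0) (v : ℝ × ℝ) :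
    LL X (fun k => cr (X k) v) i = 0 := by
  have h2' : cr (X (i + 1)) (X (i + 1 + 1)) ≠ 0 := h2
  simp only [LL, wt]
  field_simp
  simp only [cr]
  ring

theorem LL_symm {X : ℕ → ℝ × ℝ} {N : ℕ} (hX : ∀ i, X (i + N) = -X i) {a b : ℕ → ℝ}
    (ha : ∀ i, a (i + N) = -a i) (hb : ∀ i, b (i + N) = -b i) :
    ∑ i ∈ Finset.range N, a (i + 1) * LL X b i = ∑ i ∈ Finset.range N, b (i + 1) * LL X a i := by
  have h : ∀ n, ∑ i ∈ Finset.range n, (a (i + 1) * LL X b i - b (i + 1) * LL X a i) =
      wt X n * (a n * b (n + 1) - b n * a (n + 1)) -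
        wt X 0 * (a 0 * b 1 - b 0 * a 1) := by
    intro n
    induction n with
    | zero => simp
    | succ n ih =>
      rw [Finset.sum_range_succ, ih, LL, LL]
      ring
  have hw : wt X N = wt X 0 := by
    have e1 := hX 0
    have e2 := hX 1
    rw [zero_add] at e1
    rw [add_comm 1 N] at e2
    rw [wt, wt, e1, e2, cr_neg_neg]
  have e1 := ha 0
  have e2 := ha 1
  have e3 := hb 0
  have e4 := hb 1
  rw [zero_add] at e1 e3
  rw [add_comm 1 N] at e2 e4
  have hN := h N
  rw [hw, e1, e2, e3, e4, Finset.sum_sub_distrib] at hN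
  linarith

/-- the quadratic form is nonpositive on sequences vanishing at `0` -/
theorem LL_vanish {X : ℕ → ℝ × ℝ} {N : ℕ} (hN : 2 ≤ N) (hX : ∀ i, X (i + N) = -X i)
    (hpos : ∀ i j, i < j → j < i + N → 0 < cr (X i) (X j)) {z : ℕ → ℝ}
    (hz : ∀ i, z (i + N) = -z i) (hz0 : z 0 = 0) :
    ∑ i ∈ Finset.range N, z (i + 1) * LL X z i ≤ 0 := by
  have hd : ∀ i, 0 < cr (X i) (X (i + 1)) := fun i => hpos i (i + 1) (by omega) (by omega)
  have hd2 : ∀ i, 0 < cr (X (i + 1)) (X (i + 2)) := fun i => hpos (i + 1) (i + 2) (by omega)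
    (by omega)
  have hw : ∀ i, 0 < wt X i := fun i => by rw [wt]; exact one_div_pos.2 (hd i)
  have hs : ∀ i, 0 < i → i < N → 0 < cr (X i) (-X 0) := by
    intro i hi hiN
    rw [cr_neg_right, ← cr_comm]
    exact hpos 0 i hi (by omega)
  set s : ℕ → ℝ := fun i => cr (X i) (-X 0) with hsdef
  have hs0 : s 0 = 0 := by rw [hsdef]; simp only; rw [cr_neg_right, cr_self, neg_zero]
  have hLs : ∀ i, LL X s i = 0 := fun i => three_cr (hd i).ne' (hd2 i).ne' _
  -- partial sums
  have hind : ∀ n, n + 1 < N → ∑ i ∈ Finset.range (n + 1), z (i + 1) * LL X z i ≤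
      wt X (n + 1) * z (n + 1) * (z (n + 2) - z (n + 1) * (s (n + 2) / s (n + 1))) := by
    intro n
    induction n with
    | zero =>
      intro h
      have h1 := hs 1 one_pos h
      have h2 := hLs 0
      rw [LL, hs0] at h2
      have h3 : cr (X 0) (X (0 + 2)) * wt X 0 * wt X (0 + 1) = wt X 1 * s 2 / s 1 := by
        rw [eq_div_iff h1.ne']
        simp only [zero_add] at h2 ⊢
        linarith
      rw [Finset.sum_range_one, LL, h3, hz0]
      apply le_of_eq
      ring
    | succ n ih =>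
      intro h
      have h0 := ih (by omega)
      have h1 : 0 < s (n + 1) := hs (n + 1) (by omega) (by omega)
      have h2 : 0 < s (n + 2) := hs (n + 2) (by omega) (by omega)
      have h3 := hLs (n + 1)
      rw [LL] at h3
      have h4 : cr (X (n + 1)) (X (n + 1 + 2)) * wt X (n + 1) * wt X (n + 1 + 1) =
          (wt X (n + 1) * s (n + 1) + wt X (n + 1 + 1) * s (n + 3)) / s (n + 2) := by
        rw [eq_div_iff h2.ne']
        have e1 : s (n + 1 + 1) = s (n + 2) := rfl
        have e2 : s (n + 1 + 2) = s (n + 3) := rfl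
        rw [e1, e2] at h3
        linarith
      rw [Finset.sum_range_succ, LL, h4]
      have hsq : 0 ≤ wt X (n + 1) / (s (n + 1) * s (n + 2)) *
          (z (n + 1) * s (n + 2) - z (n + 2) * s (n + 1)) ^ 2 := by
        have := hw (n + 1)
        positivity
      have e : wt X (n + 1) * z (n + 1) * (z (n + 2) - z (n + 1) * (s (n + 2) / s (n + 1))) +
          z (n + 1 + 1) * (wt X (n + 1) * z (n + 1) + wt X (n + 1 + 1) * z (n + 1 + 2) -
            (wt X (n + 1) * s (n + 1) + wt X (n + 1 + 1) * s (n + 3)) / s (n + 2) *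
              z (n + 1 + 1)) =
          wt X (n + 1 + 1) * z (n + 1 + 1) * (z (n + 1 + 2) -
            z (n + 1 + 1) * (s (n + 1 + 2) / s (n + 1 + 1))) -
          wt X (n + 1) / (s (n + 1) * s (n + 2)) *
            (z (n + 1) * s (n + 2) - z (n + 2) * s (n + 1)) ^ 2 := by
        have e1 : s (n + 1 + 1) = s (n + 2) := rfl
        have e2 : s (n + 1 + 2) = s (n + 3) := rfl
        have e3 : z (n + 1 + 1) = z (n + 2) := rfl
        have e4 : z (n + 1 + 2) = z (n + 3) := rfl
        rw [e1, e2, e3, e4]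
        field_simp
        ring
      linarith
  obtain ⟨m, rfl⟩ : ∃ m, N = m + 2 := ⟨N - 2, by omega⟩
  have h1 := hind m (by omega)
  have hzN : z (m + 2) = 0 := by
    have := hz 0
    rw [zero_add, hz0, neg_zero] at this
    exact this
  have hsN : s (m + 2) = 0 := by
    have := hX 0
    rw [zero_add] at this
    rw [hsdef]
    simp only
    rw [this, cr_neg_neg, cr_self]
  rw [hzN, hsN] at h1
  rw [Finset.sum_range_succ, hzN, zero_mul, add_zero]
  simpa using h1

/-- **Discrete Wirtinger inequality**: the quadratic form is nonpositive on all antiperiodic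
sequences. -/
theorem LL_nonpos {X : ℕ → ℝ × ℝ} {N : ℕ} (hN : 2 ≤ N) (hX : ∀ i, X (i + N) = -X i)
    (hpos : ∀ i j, i < j → j < i + N → 0 < cr (X i) (X j)) {y : ℕ → ℝ}
    (hy : ∀ i, y (i + N) = -y i) :
    ∑ i ∈ Finset.range N, y (i + 1) * LL X y i ≤ 0 := by
  have hd : ∀ i, 0 < cr (X i) (X (i + 1)) := fun i => hpos i (i + 1) (by omega) (by omega)
  have hd2 : ∀ i, 0 < cr (X (i + 1)) (X (i + 2)) := fun i => hpos (i + 1) (i + 2) (by omega)
    (by omega)
  set p : ℕ → ℝ := fun i => cr (X i) (((cr (X 0) (X 1))⁻¹ * y 0) • X 1) with hp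
  have hp0 : p 0 = y 0 := by
    rw [hp]
    simp only
    rw [cr_smul]
    have := (hd 0).ne'
    rw [zero_add] at this
    field_simp
  have hpN : ∀ i, p (i + N) = -p i := by
    intro i
    rw [hp]
    simp only
    rw [hX, cr_neg_left]
  have hLp : ∀ i, LL X p i = 0 := fun i => three_cr (hd i).ne' (hd2 i).ne' _
  set z : ℕ → ℝ := fun i => y i - p i with hzdef
  have hz0 : z 0 = 0 := by rw [hzdef]; simp only; rw [hp0, sub_self]
  have hzN : ∀ i, z (i + N) = -z i := by
    intro i
    rw [hzdef]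
    simp only
    rw [hy, hpN]
    ring
  have h1 := LL_vanish hN hX hpos hzN hz0
  have h2 := LL_symm hX hpN hzN
  have h3 : ∀ i, LL X y i = LL X z i + LL X p i := by
    intro i
    rw [hzdef]
    simp only [LL]
    ring
  have h4 : ∑ i ∈ Finset.range N, y (i + 1) * LL X y i =
      ∑ i ∈ Finset.range N, z (i + 1) * LL X z i + ∑ i ∈ Finset.range N, p (i + 1) * LL X z i := by
    rw [← Finset.sum_add_distrib]
    refine Finset.sum_congr rfl fun i _ => ?_
    rw [h3, hLp, hzdef]
    simp only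
    ring
  rw [h4, h2]
  have h5 : ∑ i ∈ Finset.range N, z (i + 1) * LL X p i = 0 :=
    Finset.sum_eq_zero fun i _ => by rw [hLp, mul_zero]
  rw [h5, add_zero]
  exact h1

end Pool.Agent.FillVol
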