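import Pool.Agent.Work.MP_e09eef_gt.Sant2

/-!
# The Santaló inequality for strictly ordered vectors
-/

set_option autoImplicit false

open Set Filter Topology

namespace Pool.Agent.FillVol

/-- the antiperiodic extension -/
noncomputable def XX {N : ℕ} (hN : 0 < N) (b : Fin N → ℝ × ℝ) (i : ℕ) : ℝ × ℝ :=
  ((-1 : ℝ) ^ (i / N)) • b ⟨i % N, Nat.mod_lt _ hN⟩

theorem XX_add {N : ℕ} (hN : 0 < N) (b : Fin N → ℝ × ℝ) (i : ℕ) :
    XX hN b (i + N) = -XX hN b i := by
  rw [XX, XX, Nat.add_div_right _ hN, pow_succ]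
  have : (⟨(i + N) % N, Nat.mod_lt _ hN⟩ : Fin N) = ⟨i % N, Nat.mod_lt _ hN⟩ := by
    ext
    simp
  rw [this]
  rw [← neg_smul]
  congr 1
  ring

theorem XX_lt {N : ℕ} (hN : 0 < N) (b : Fin N → ℝ × ℝ) (i : Fin N) :
    XX hN b i = b i := by
  rw [XX, Nat.div_eq_of_lt i.2, pow_zero, one_smul]
  congr 1
  ext
  exact Nat.mod_eq_of_lt i.2

theorem cr_smul_left (a b : ℝ × ℝ) (t : ℝ) : cr (t • a) b = t * cr a b := by
  simp [cr]; ring

theorem XX_pos {N : ℕ} (hN : 0 < N) {b : Fin N → ℝ × ℝ}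
    (hb : ∀ i j : Fin N, i < j → 0 < cr (b i) (b j)) (i j : ℕ) (hij : i < j) (hji : j < i + N) :
    0 < cr (XX hN b i) (XX hN b j) := by
  have hi := Nat.div_add_mod i N
  have hj := Nat.div_add_mod j N
  have h1 : i / N ≤ j / N := Nat.div_le_div_right hij.le
  have h2 : j / N ≤ i / N + 1 := by
    have := Nat.div_le_div_right (c := N) hji.le
    rwa [Nat.add_div_right _ hN] at this
  have hri := Nat.mod_lt i hN
  have hrj := Nat.mod_lt j hN
  rw [XX, XX, cr_smul_left, cr_smul]
  rcases Nat.lt_or_ge (i / N) (j / N) with h | h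
  · have e : j / N = i / N + 1 := by omega
    have e2 : N * (j / N) = N * (i / N) + N := by rw [e]; ring
    have h3 : j % N < i % N := by omega
    have h4 := hb ⟨j % N, hrj⟩ ⟨i % N, hri⟩ h3
    rw [e, pow_succ, cr_comm]
    have h5 : (-1 : ℝ) ^ (i / N) * (-1 : ℝ) ^ (i / N) = 1 := by
      rw [← pow_add, ← two_mul, pow_mul]; norm_num
    have h6 : (-1 : ℝ) ^ (i / N) * ((-1 : ℝ) ^ (i / N) * -1 * -cr (b ⟨j % N, hrj⟩)
        (b ⟨i % N, hri⟩)) = ((-1 : ℝ) ^ (i / N) * (-1 : ℝ) ^ (i / N)) * cr (b ⟨j % N, hrj⟩)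
        (b ⟨i % N, hri⟩) := by ring
    rw [h6, h5, one_mul]
    exact h4
  · have e : j / N = i / N := by omega
    have e2 : N * (j / N) = N * (i / N) := by rw [e]
    have h3 : i % N < j % N := by omega
    have h4 := hb ⟨i % N, hri⟩ ⟨j % N, hrj⟩ h3
    have h5 : (-1 : ℝ) ^ (i / N) * (-1 : ℝ) ^ (i / N) = 1 := by
      rw [← pow_add, ← two_mul, pow_mul]; norm_num
    rw [e, ← mul_assoc, h5, one_mul]
    exact h4

/-- the potential along the polygon: its second difference is `2 c` -/
theorem LL_abs {N : ℕ} (hN : 2 ≤ N) {X : ℕ → ℝ × ℝ} (hX : ∀ i, X (i + N) = -X i)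
    (hpos : ∀ i j, i < j → j < i + N → 0 < cr (X i) (X j)) {i j : ℕ} (hi : i < N) (hj : j < N) :
    LL X (fun k => |cr (X k) (X j)|) i = if (i + 1) % N = j then 2 else 0 := by
  have hd : ∀ i, 0 < cr (X i) (X (i + 1)) := fun i => hpos i (i + 1) (by omega) (by omega)
  have hd2 : ∀ i, 0 < cr (X (i + 1)) (X (i + 2)) := fun i => hpos (i + 1) (i + 2) (by omega)
    (by omega)
  have h3 := three_cr (X := X) (hd i).ne' (hd2 i).ne' (X j)
  split_ifs with h
  · have hab : ∀ k, |cr (X k) (X j)| = |cr (X k) (X (i + 1))| := by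
      intro k
      rcases Nat.lt_or_ge (i + 1) N with h' | h'
      · rw [Nat.mod_eq_of_lt h'] at h
        rw [h]
      · have e : i + 1 = N := by omega
        rw [e, Nat.mod_self] at h
        have := hX 0
        rw [zero_add] at this
        rw [e, this, ← h, cr_neg_right, abs_neg]
    have h2 := hd2 i
    have h1 := hd i
    simp only [LL, hab]
    rw [cr_self, abs_zero, abs_of_pos h1, cr_abs_comm (X (i + 2)), abs_of_pos h2, wt, wt]
    have e : i + 1 + 1 = i + 2 := rfl
    rw [e]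
    field_simp
    ring
  · have hle : ∀ k, k ≤ j → j ≤ k + N → 0 ≤ cr (X k) (X j) := by
      intro k h1 h2
      rcases Nat.lt_or_ge k j with h3 | h3
      · rcases Nat.lt_or_ge j (k + N) with h4 | h4
        · exact (hpos k j h3 h4).le
        · have e : j = k + N := by omega
          rw [e, hX, cr_neg_right, cr_self, neg_zero]
      · have e : k = j := by omega
        rw [e, cr_self]
    have hge : ∀ k, j ≤ k → k ≤ j + N → cr (X k) (X j) ≤ 0 := by
      intro k h1 h2
      rw [cr_comm, neg_nonpos]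
      rcases Nat.lt_or_ge j k with h3 | h3
      · rcases Nat.lt_or_ge k (j + N) with h4 | h4
        · exact (hpos j k h3 h4).le
        · have e : k = j + N := by omega
          rw [e, hX, cr_neg_right, cr_self, neg_zero]
      · have e : k = j := by omega
        rw [e, cr_self]
    rcases Nat.lt_or_ge (i + 1) j with h' | h'
    · simp only [LL] at h3 ⊢
      rw [abs_of_nonneg (hle i (by omega) (by omega)),
        abs_of_nonneg (hle (i + 1) (by omega) (by omega)),
        abs_of_nonneg (hle (i + 2) (by omega) (by omega))]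
      exact h3
    · have hne : i + 1 ≠ j := by
        intro e
        apply h
        rw [e, Nat.mod_eq_of_lt hj]
      have hlast : i + 2 ≤ j + N := by
        rcases Nat.lt_or_ge (i + 1) N with h4 | h4
        · omega
        · have e : i + 1 = N := by omega
          have : j ≠ 0 := by
            intro e0
            apply h
            rw [e, e0, Nat.mod_self]
          omega
      simp only [LL] at h3 ⊢
      rw [abs_of_nonpos (hge i (by omega) (by omega)),
        abs_of_nonpos (hge (i + 1) (by omega) (by omega)),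
        abs_of_nonpos (hge (i + 2) (by omega) (by omega))]
      linarith

/-- area of the symmetric polygon -/
noncomputable def SS {N : ℕ} (hN : 0 < N) (b : Fin N → ℝ × ℝ) : ℝ :=
  ∑ i ∈ Finset.range N, cr (XX hN b i) (XX hN b (i + 1))

theorem sum_shift {N : ℕ} {h : ℕ → ℝ} (hh : h N = h 0) :
    ∑ i ∈ Finset.range N, h (i + 1) = ∑ i ∈ Finset.range N, h i := by
  have h1 := Finset.sum_range_succ h N
  have h2 := Finset.sum_range_succ' h N
  linarith

theorem GG_neg {N : ℕ} (b : Fin N → ℝ × ℝ) (c : Fin N → ℝ) (v : ℝ × ℝ) :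
    GG b c (-v) = GG b c v := by
  rw [GG, GG]
  refine Finset.sum_congr rfl fun j _ => ?_
  rw [cr_neg_left, abs_neg]

theorem GG_nonneg {N : ℕ} (b : Fin N → ℝ × ℝ) {c : Fin N → ℝ} (hc : c ∈ stdSimplex ℝ (Fin N))
    (v : ℝ × ℝ) : 0 ≤ GG b c v :=
  Finset.sum_nonneg fun j _ => mul_nonneg (hc.1 j) (abs_nonneg _)

theorem GG_XX {N : ℕ} (hN : 0 < N) (b : Fin N → ℝ × ℝ) (c : Fin N → ℝ) (k : ℕ) :
    GG b c (XX hN b k) = GG b c (b ⟨k % N, Nat.mod_lt _ hN⟩) := by
  rw [XX]
  rcases neg_one_pow_eq_or ℝ (k / N) with h | h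
  · rw [h, one_smul]
  · rw [h, neg_smul, one_smul, GG_neg]

/-- **Santaló inequality** for a strictly ordered symmetric polygon. -/
theorem santalo_strict {N : ℕ} (hN : 2 ≤ N) {b : Fin N → ℝ × ℝ}
    (hb : ∀ i j : Fin N, i < j → 0 < cr (b i) (b j)) :
    SS (by omega : 0 < N) b ≤ Real.pi ^ 2 * MM b := by
  have hN0 : 0 < N := by omega
  obtain ⟨c, hc, hcM, hmax'⟩ := MM_exists hN0 b
  have hmax : ∀ c' ∈ stdSimplex ℝ (Fin N), FF b c' ≤ FF b c := by
    rw [hcM]; exact hmax'
  set M := MM b with hM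
  have hGle : ∀ i, GG b c (b i) ≤ 2 * M := fun i => by rw [← hcM]; exact GG_le b hc hmax i
  have hGeq : ∀ i, c i * GG b c (b i) = c i * (2 * M) := fun i => by
    rw [← hcM]; exact GG_eq b hc hmax i
  have hM0 : 0 ≤ M := MM_nonneg b
  have hMpos : 0 < M := by
    rcases hM0.lt_or_eq with h | h
    · exact h
    exfalso
    obtain ⟨i, hi⟩ : ∃ i, 0 < c i := by
      by_contra hcon
      push Not at hcon
      have : ∑ i, c i = 0 := Finset.sum_eq_zero fun i _ => le_antisymm (hcon i) (hc.1 i)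
      rw [hc.2] at this
      exact one_ne_zero this
    obtain ⟨j, hj⟩ : ∃ j : Fin N, j ≠ i := by
      by_cases h0 : i = ⟨0, hN0⟩
      · exact ⟨⟨1, by omega⟩, by rw [h0]; intro h; simp at h⟩
      · exact ⟨⟨0, hN0⟩, fun h => h0 h.symm⟩
    have h1 := hGle j
    rw [← h, mul_zero] at h1
    have h2 : c i * |cr (b j) (b i)| ≤ GG b c (b j) :=
      Finset.single_le_sum (f := fun k => c k * |cr (b j) (b k)|)
        (fun k _ => mul_nonneg (hc.1 k) (abs_nonneg _)) (Finset.mem_univ i)
    have h3 : 0 < |cr (b j) (b i)| := by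
      rcases lt_or_gt_of_ne hj with h4 | h4
      · exact abs_pos.2 (hb j i h4).ne'
      · rw [cr_abs_comm]
        exact abs_pos.2 (hb i j h4).ne'
    have := mul_pos hi h3
    linarith
  set X := XX hN0 b with hXdef
  have hX : ∀ i, X (i + N) = -X i := XX_add hN0 b
  have hpos : ∀ i j, i < j → j < i + N → 0 < cr (X i) (X j) := XX_pos hN0 hb
  set g : ℕ → ℝ := fun k => GG b c (X k) with hg
  have hgN : ∀ k, g (k + N) = g k := by
    intro k
    rw [hg]
    simp only
    rw [hX, GG_neg]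
  have hgle : ∀ k, g k ≤ 2 * M := by
    intro k
    rw [hg]
    simp only
    rw [hXdef, GG_XX]
    exact hGle _
  have hg0 : ∀ k, 0 ≤ g k := fun k => GG_nonneg b hc _
  have hd : ∀ i, 0 < cr (X i) (X (i + 1)) := fun i => hpos i (i + 1) (by omega) (by omega)
  set d : ℕ → ℝ := fun i => cr (X i) (X (i + 1)) with hddef
  have hdN : ∀ i, d (i + N) = d i := by
    intro i
    rw [hddef]
    simp only
    have e : i + N + 1 = i + 1 + N := by omega
    rw [e, hX, hX, cr_neg_neg]
  have hwd : ∀ i, wt X i = 1 / d i := fun i => rfl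
  have hw : ∀ i, 0 < wt X i := fun i => by rw [wt]; exact one_div_pos.2 (hd i)
  -- the total of `g · LL g`
  have hLg : ∀ i, i < N → LL X g i = 2 * c ⟨(i + 1) % N, Nat.mod_lt _ hN0⟩ := by
    intro i hi
    have h1 : LL X g i = ∑ j : Fin N, c j * LL X (fun k => |cr (X k) (X (j : ℕ))|) i := by
      simp only [LL, hg, GG, Finset.mul_sum]
      rw [← Finset.sum_add_distrib, ← Finset.sum_sub_distrib]
      refine Finset.sum_congr rfl fun j _ => ?_
      rw [hXdef, XX_lt hN0 b j]
      ring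
    rw [h1]
    have h2 : ∀ j : Fin N, c j * LL X (fun k => |cr (X k) (X (j : ℕ))|) i =
        if j = ⟨(i + 1) % N, Nat.mod_lt _ hN0⟩ then 2 * c j else 0 := by
      intro j
      rw [LL_abs hN hX hpos hi j.2]
      by_cases h : (i + 1) % N = j
      · rw [if_pos h, if_pos (Fin.ext h.symm)]
        ring
      · rw [if_neg h, if_neg (fun h' => h (by rw [h']))]
        ring
    rw [Finset.sum_congr rfl fun j _ => h2 j, Finset.sum_ite_eq' Finset.univ,
      if_pos (Finset.mem_univ _)]
  have htot : ∑ i ∈ Finset.range N, g (i + 1) * LL X g i = 4 * M := by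
    set h : ℕ → ℝ := fun k => g k * (2 * c ⟨k % N, Nat.mod_lt _ hN0⟩) with hh
    have h1 : ∑ i ∈ Finset.range N, g (i + 1) * LL X g i = ∑ i ∈ Finset.range N, h (i + 1) := by
      refine Finset.sum_congr rfl fun i hi => ?_
      rw [hLg i (Finset.mem_range.1 hi)]
    rw [h1, sum_shift, Finset.sum_range]
    · have h2 : ∀ i : Fin N, h i = 2 * (c i * GG b c (b i)) := by
        intro i
        have e : (⟨(i : ℕ) % N, Nat.mod_lt _ hN0⟩ : Fin N) = i := Fin.ext (Nat.mod_eq_of_lt i.2)
        simp only [hh, hg]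
        rw [e, hXdef, XX_lt hN0 b i]
        ring
      rw [Finset.sum_congr rfl fun i _ => h2 i, ← Finset.mul_sum, ← FF_GG, hcM]
      ring
    · rw [hh]
      simp only
      have e := hgN 0
      rw [zero_add] at e
      rw [e]
      congr 3
      ext
      simp
  -- angles
  set S := SS hN0 b with hS
  have hSd : S = ∑ i ∈ Finset.range N, d i := rfl
  have hSpos : 0 < S := by
    rw [hSd]
    exact Finset.sum_pos (fun i _ => hd i) ⟨0, Finset.mem_range.2 hN0⟩
  set D : ℕ → ℝ := fun k => ∑ l ∈ Finset.range k, d l with hD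
  have hD1 : ∀ k, D (k + 1) = D k + d k := fun k => Finset.sum_range_succ _ _
  have hDN : ∀ k, D (k + N) = D k + S := by
    intro k
    induction k with
    | zero => rw [zero_add, hSd, hD]; simp
    | succ k ih =>
      have e : k + 1 + N = k + N + 1 := by omega
      rw [e, hD1, ih, hD1, hdN]
      ring
  set α : ℕ → ℝ := fun k => Real.pi * D k / S with hα
  have hαN : ∀ k, α (k + N) = α k + Real.pi := by
    intro k
    rw [hα]
    simp only
    rw [hDN]
    field_simp
  have hα1 : ∀ k, α (k + 1) - α k = Real.pi * d k / S := by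
    intro k
    rw [hα]
    simp only
    rw [hD1]
    ring
  have hc1 := LL_nonpos hN hX hpos (y := fun k => g k * Real.cos (α k)) (by
    intro k
    rw [hgN, hαN, Real.cos_add_pi]
    ring)
  have hs1 := LL_nonpos hN hX hpos (y := fun k => g k * Real.sin (α k)) (by
    intro k
    rw [hgN, hαN, Real.sin_add_pi]
    ring)
  -- one edge
  have hedge : ∀ k, g (k + 1) * wt X k * g k * (1 - Real.cos (α (k + 1) - α k)) ≤
      2 * M ^ 2 * Real.pi ^ 2 / S ^ 2 * d k := by
    intro k
    have h1 : 1 - Real.cos (α (k + 1) - α k) ≤ (Real.pi * d k / S) ^ 2 / 2 := by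
      have := Real.one_sub_sq_div_two_le_cos (x := α (k + 1) - α k)
      rw [hα1] at this ⊢
      linarith
    have h2 : 0 ≤ 1 - Real.cos (α (k + 1) - α k) := by
      linarith [Real.cos_le_one (α (k + 1) - α k)]
    have h3 : g (k + 1) * g k ≤ (2 * M) * (2 * M) :=
      mul_le_mul (hgle _) (hgle _) (hg0 _) (by linarith)
    have h4 : 0 ≤ g (k + 1) * g k := mul_nonneg (hg0 _) (hg0 _)
    have hdk : d k ≠ 0 := (hd k).ne'
    have hdk' : 0 < d k := hd k
    calc g (k + 1) * wt X k * g k * (1 - Real.cos (α (k + 1) - α k))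
        = (g (k + 1) * g k) * (wt X k * (1 - Real.cos (α (k + 1) - α k))) := by ring
      _ ≤ (2 * M) * (2 * M) * (wt X k * ((Real.pi * d k / S) ^ 2 / 2)) := by
          apply mul_le_mul h3 _ (mul_nonneg (hw k).le h2) (by positivity)
          exact mul_le_mul_of_nonneg_left h1 (hw k).le
      _ = 2 * M ^ 2 * Real.pi ^ 2 / S ^ 2 * d k := by
          rw [hwd]
          field_simp
  have hterm : ∀ i, g (i + 1) * LL X g i =
      (g (i + 1) * Real.cos (α (i + 1))) * LL X (fun k => g k * Real.cos (α k)) i +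
      (g (i + 1) * Real.sin (α (i + 1))) * LL X (fun k => g k * Real.sin (α k)) i +
      g (i + 1) * wt X i * g i * (1 - Real.cos (α (i + 1) - α i)) +
      g (i + 2) * wt X (i + 1) * g (i + 1) * (1 - Real.cos (α (i + 2) - α (i + 1))) := by
    intro i
    have e := Real.sin_sq_add_cos_sq (α (i + 1))
    rw [Real.cos_sub, Real.cos_sub]
    simp only [LL]
    have e2 : Real.sin (α (i + 1)) ^ 2 = 1 - Real.cos (α (i + 1)) ^ 2 := by linarith
    linear_combination (g (i + 1) * g (i + 1) * (cr (X i) (X (i + 2)) * wt X i * wt X (i + 1))) * e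
  have hfin : 4 * M ≤ ∑ i ∈ Finset.range N, (2 * M ^ 2 * Real.pi ^ 2 / S ^ 2 * d i +
      2 * M ^ 2 * Real.pi ^ 2 / S ^ 2 * d (i + 1)) := by
    rw [← htot, Finset.sum_congr rfl fun i _ => hterm i, Finset.sum_add_distrib,
      Finset.sum_add_distrib, Finset.sum_add_distrib, Finset.sum_add_distrib]
    have h1 := Finset.sum_le_sum fun i (_ : i ∈ Finset.range N) => hedge i
    have h2 := Finset.sum_le_sum fun i (_ : i ∈ Finset.range N) => hedge (i + 1)
    have e : ∀ i, α (i + 1 + 1) = α (i + 2) := fun _ => rfl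
    linarith
  have hsh : ∑ i ∈ Finset.range N, d (i + 1) = ∑ i ∈ Finset.range N, d i := by
    refine sum_shift ?_
    have := hdN 0
    rwa [zero_add] at this
  rw [Finset.sum_add_distrib, ← Finset.mul_sum, ← Finset.mul_sum, hsh, ← hSd] at hfin
  have h5 : 2 * M ^ 2 * Real.pi ^ 2 / S ^ 2 * S + 2 * M ^ 2 * Real.pi ^ 2 / S ^ 2 * S =
      4 * M ^ 2 * Real.pi ^ 2 / S := by
    field_simp
    ring
  rw [h5, le_div_iff₀ hSpos] at hfin
  have h6 : M * S ≤ M * (Real.pi ^ 2 * M) := by nlinarith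
  exact le_of_mul_le_mul_left h6 hMpos

end Pool.Agent.FillVol
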