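import Pool.Agent.Work.MP_e09eef_gt.BM

/-!
# Area of `K + segment`, zonogons, and the local inequality
-/

set_option autoImplicit false

open MeasureTheory Set
open scoped ENNReal

namespace Pool.Agent.FillVol

/-- the determinant of two plane vectors -/
def cr (a b : ℝ × ℝ) : ℝ := a.1 * b.2 - a.2 * b.1

/-- `K + [0,a]` -/
def addSeg (K : Set (ℝ × ℝ)) (a : ℝ × ℝ) : Set (ℝ × ℝ) :=
  (fun p : (ℝ × ℝ) × ℝ => p.1 + p.2 • a) '' (K ×ˢ Icc (0 : ℝ) 1)

theorem addSeg_compact {K : Set (ℝ × ℝ)} (hK : IsCompact K) (a : ℝ × ℝ) :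
    IsCompact (addSeg K a) :=
  (hK.prod isCompact_Icc).image (by fun_prop)

theorem addSeg_nonempty {K : Set (ℝ × ℝ)} (hK : K.Nonempty) (a : ℝ × ℝ) :
    (addSeg K a).Nonempty :=
  (hK.prod ⟨0, by simp⟩).image _

theorem addSeg_convex {K : Set (ℝ × ℝ)} (hK : Convex ℝ K) (a : ℝ × ℝ) :
    Convex ℝ (addSeg K a) := by
  rintro _ ⟨⟨k, t⟩, ⟨hk, ht⟩, rfl⟩ _ ⟨⟨k', t'⟩, ⟨hk', ht'⟩, rfl⟩ r s hr hs hrs
  refine ⟨(r • k + s • k', r * t + s * t'), ⟨hK hk hk' hr hs hrs, ?_⟩, ?_⟩
  · exact (convex_Icc (0 : ℝ) 1) ht ht' hr hs hrs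
  · ext <;> simp <;> ring

theorem mem_addSeg {K : Set (ℝ × ℝ)} {a x : ℝ × ℝ} :
    x ∈ addSeg K a ↔ ∃ k ∈ K, ∃ t ∈ Icc (0 : ℝ) 1, x = k + t • a := by
  constructor
  · rintro ⟨⟨k, t⟩, ⟨hk, ht⟩, rfl⟩
    exact ⟨k, hk, t, ht, rfl⟩
  · rintro ⟨k, hk, t, ht, rfl⟩
    exact ⟨(k, t), ⟨hk, ht⟩, rfl⟩

/-- compact convex nonempty subset of the line -/
theorem cc_line {I : Set ℝ} (hc : IsCompact I) (hv : Convex ℝ I) (hn : I.Nonempty) :
    ∃ p q, p ≤ q ∧ I = Icc p q := by
  have hconn : IsConnected I := ⟨hn, hv.isPreconnected⟩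
  have := eq_Icc_of_connected_compact hconn hc
  refine ⟨sInf I, sSup I, ?_, this⟩
  by_contra hlt
  rw [Icc_eq_empty hlt] at this
  exact hn.ne_empty this

theorem slice_convex {K : Set (ℝ × ℝ)} (hK : Convex ℝ K) (x : ℝ) :
    Convex ℝ (Prod.mk x ⁻¹' K) := by
  intro y hy z hz r s hr hs hrs
  have := hK hy hz hr hs hrs
  have e : r • ((x, y) : ℝ × ℝ) + s • (x, z) = (x, r • y + s • z) := by
    ext
    · show r * x + s * x = x
      rw [← add_mul, hrs, one_mul]
    · rfl
  rwa [e] at this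

/-- vertical segments -/
theorem vol_addSeg_vert {K : Set (ℝ × ℝ)} (hK : IsCompact K) (hv : Convex ℝ K)
    (hn : K.Nonempty) {m M : ℝ} (hm : IsLeast (Prod.fst '' K) m)
    (hM : IsGreatest (Prod.fst '' K) M) :
    volume (addSeg K (0, 1)) = volume K + ENNReal.ofReal (M - m) := by
  have hproj : Prod.fst '' K = Icc m M := by
    obtain ⟨p, q, hpq, he⟩ := cc_line (hK.image continuous_fst)
      (hv.is_linear_image (f := (Prod.fst : ℝ × ℝ → ℝ)) (LinearMap.fst ℝ ℝ ℝ).isLinear)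
      (hn.image _)
    rw [he] at hm hM ⊢
    have h1 : m = p := hm.unique ⟨left_mem_Icc.2 hpq, fun x hx => hx.1⟩
    have h2 : M = q := hM.unique ⟨right_mem_Icc.2 hpq, fun x hx => hx.2⟩
    rw [h1, h2]
  rw [vol_eq_slice (addSeg_compact hK _).measurableSet, vol_eq_slice hK.measurableSet]
  have hs : ∀ x, volume (Prod.mk x ⁻¹' addSeg K (0, 1)) =
      volume (Prod.mk x ⁻¹' K) + (Icc m M).indicator (fun _ => 1) x := by
    intro x
    by_cases hx : x ∈ Icc m M
    · rw [indicator_of_mem hx]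
      have hne : (Prod.mk x ⁻¹' K).Nonempty := by
        rw [← hproj] at hx
        obtain ⟨⟨x', y⟩, hy, rfl⟩ := hx
        exact ⟨y, hy⟩
      obtain ⟨p, q, hpq, he⟩ := cc_line (slice_compact hK x) (slice_convex hv x) hne
      have he2 : Prod.mk x ⁻¹' addSeg K (0, 1) = Icc p (q + 1) := by
        ext y
        rw [mem_preimage, mem_addSeg]
        constructor
        · rintro ⟨⟨k1, k2⟩, hk, t, ht, hxy⟩
          have e1 : x = k1 := by simpa using congrArg Prod.fst hxy
          have e2 : y = k2 + t := by simpa using congrArg Prod.snd hxy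
          subst e1
          have : k2 ∈ Icc p q := by rw [← he]; exact hk
          rw [e2]
          exact ⟨by linarith [this.1, ht.1], by linarith [this.2, ht.2]⟩
        · intro hy
          have hz : max p (y - 1) ∈ Icc p q := ⟨le_max_left _ _, max_le hpq (by linarith [hy.2])⟩
          have hz' : (x, max p (y - 1)) ∈ K := by
            have : max p (y - 1) ∈ Prod.mk x ⁻¹' K := by rw [he]; exact hz
            exact this
          refine ⟨_, hz', y - max p (y - 1), ⟨?_, ?_⟩, ?_⟩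
          · rw [sub_nonneg]
            exact max_le hy.1 (by linarith)
          · have := le_max_right p (y - 1)
            linarith
          · ext <;> simp
      rw [he, he2, Real.volume_Icc, Real.volume_Icc, ← ENNReal.ofReal_one,
        ← ENNReal.ofReal_add (by linarith) (by norm_num)]
      congr 1
      ring
    · rw [indicator_of_notMem hx, add_zero]
      have h1 : Prod.mk x ⁻¹' K = ∅ := by
        rw [eq_empty_iff_forall_notMem]
        intro y hy
        apply hx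
        rw [← hproj]
        exact ⟨(x, y), hy, rfl⟩
      have h2 : Prod.mk x ⁻¹' addSeg K (0, 1) = ∅ := by
        rw [eq_empty_iff_forall_notMem]
        intro y hy
        rw [mem_preimage, mem_addSeg] at hy
        obtain ⟨⟨k1, k2⟩, hk, t, ht, hxy⟩ := hy
        have e1 : x = k1 := by simpa using congrArg Prod.fst hxy
        subst e1
        apply hx
        rw [← hproj]
        exact ⟨(x, k2), hk, rfl⟩
      rw [h1, h2]
  simp_rw [hs]
  rw [lintegral_add_right _ (measurable_const.indicator measurableSet_Icc),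
    lintegral_indicator measurableSet_Icc]
  simp

/-- a shear-rotation with determinant one sending `a` to `(0,1)` -/
noncomputable def rotL (a : ℝ × ℝ) : (ℝ × ℝ) →ₗ[ℝ] (ℝ × ℝ) :=
  Matrix.toLin (Module.Basis.finTwoProd ℝ) (Module.Basis.finTwoProd ℝ)
    !![a.2, -a.1; a.1 / (a.1 ^ 2 + a.2 ^ 2), a.2 / (a.1 ^ 2 + a.2 ^ 2)]

theorem rotL_apply (a x : ℝ × ℝ) : rotL a x =
    (-cr a x, (a.1 * x.1 + a.2 * x.2) / (a.1 ^ 2 + a.2 ^ 2)) := by
  obtain ⟨x1, x2⟩ := x
  rw [rotL, Matrix.toLin_finTwoProd_apply]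
  ext
  · simp [cr]
    ring
  · simp
    ring

theorem rotL_det {a : ℝ × ℝ} (ha : a ≠ 0) : LinearMap.det (rotL a) = 1 := by
  have h0 : a.1 ^ 2 + a.2 ^ 2 ≠ 0 := by
    intro h
    apply ha
    have h1 : a.1 = 0 := by nlinarith [sq_nonneg a.1, sq_nonneg a.2]
    have h2 : a.2 = 0 := by nlinarith [sq_nonneg a.1, sq_nonneg a.2]
    exact Prod.ext h1 h2
  rw [rotL, LinearMap.det_toLin, Matrix.det_fin_two]
  simp
  field_simp
  ring

theorem rotL_self {a : ℝ × ℝ} (ha : a ≠ 0) : rotL a a = (0, 1) := by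
  have h0 : a.1 ^ 2 + a.2 ^ 2 ≠ 0 := by
    intro h
    apply ha
    have h1 : a.1 = 0 := by nlinarith [sq_nonneg a.1, sq_nonneg a.2]
    have h2 : a.2 = 0 := by nlinarith [sq_nonneg a.1, sq_nonneg a.2]
    exact Prod.ext h1 h2
  rw [rotL_apply]
  ext
  · simp [cr]
    ring
  · show (a.1 * a.1 + a.2 * a.2) / (a.1 ^ 2 + a.2 ^ 2) = 1
    rw [div_eq_one_iff_eq h0]
    ring

theorem vol_rotL {a : ℝ × ℝ} (ha : a ≠ 0) (S : Set (ℝ × ℝ)) :
    volume (rotL a '' S) = volume S := by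
  rw [Measure.addHaar_image_linearMap, rotL_det ha]
  simp

theorem rotL_addSeg {a : ℝ × ℝ} (ha : a ≠ 0) (K : Set (ℝ × ℝ)) :
    rotL a '' (addSeg K a) = addSeg (rotL a '' K) (0, 1) := by
  ext x
  rw [mem_addSeg]
  constructor
  · rintro ⟨y, hy, rfl⟩
    obtain ⟨k, hk, t, ht, rfl⟩ := mem_addSeg.1 hy
    exact ⟨_, ⟨k, hk, rfl⟩, t, ht, by rw [map_add, map_smul, rotL_self ha]⟩
  · rintro ⟨_, ⟨k, hk, rfl⟩, t, ht, rfl⟩
    exact ⟨k + t • a, mem_addSeg.2 ⟨k, hk, t, ht, rfl⟩, by rw [map_add, map_smul, rotL_self ha]⟩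

theorem cr_continuous (a : ℝ × ℝ) : Continuous (cr a) := by
  unfold cr; fun_prop

/-- the width of `K` measured by `cr a` -/
noncomputable def wd (K : Set (ℝ × ℝ)) (a : ℝ × ℝ) : ℝ := sSup (cr a '' K) - sInf (cr a '' K)

theorem wd_nonneg {K : Set (ℝ × ℝ)} (hK : IsCompact K) (hn : K.Nonempty) (a : ℝ × ℝ) :
    0 ≤ wd K a := by
  have h1 := (hK.image (cr_continuous a)).isGreatest_sSup (hn.image _)
  have h2 := (hK.image (cr_continuous a)).isLeast_sInf (hn.image _)
  have := h1.2 h2.1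
  rw [wd]
  linarith

theorem vol_addSeg {K : Set (ℝ × ℝ)} (hK : IsCompact K) (hv : Convex ℝ K)
    (hn : K.Nonempty) (a : ℝ × ℝ) :
    volume (addSeg K a) = volume K + ENNReal.ofReal (wd K a) := by
  have h1 := (hK.image (cr_continuous a)).isGreatest_sSup (hn.image _)
  have h2 := (hK.image (cr_continuous a)).isLeast_sInf (hn.image _)
  rcases eq_or_ne a 0 with rfl | ha
  · have e1 : addSeg K 0 = K := by
      ext x
      rw [mem_addSeg]
      constructor
      · rintro ⟨k, hk, t, ht, rfl⟩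
        simpa using hk
      · intro hx
        exact ⟨x, hx, 0, by simp, by simp⟩
    have e2 : cr 0 '' K = {0} := by
      ext y
      constructor
      · rintro ⟨x, hx, rfl⟩
        simp [cr]
      · rintro rfl
        obtain ⟨x, hx⟩ := hn
        exact ⟨x, hx, by simp [cr]⟩
    rw [e1, wd, e2]
    simp
  · rw [← vol_rotL ha (addSeg K a), rotL_addSeg ha, ← vol_rotL ha K]
    have hfst : Prod.fst '' (rotL a '' K) = (fun y => -y) '' (cr a '' K) := by
      rw [image_image, image_image]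
      refine image_congr fun x hx => ?_
      rw [rotL_apply]
    have e : wd K a = -sInf (cr a '' K) - -sSup (cr a '' K) := by rw [wd]; ring
    rw [e]
    refine vol_addSeg_vert (hK.image (rotL a).continuous_of_finiteDimensional)
      (hv.linear_image _) (hn.image _) ?_ ?_
    · rw [hfst]
      refine ⟨⟨_, h1.1, rfl⟩, ?_⟩
      rintro _ ⟨y, hy, rfl⟩
      exact neg_le_neg (h1.2 hy)
    · rw [hfst]
      refine ⟨⟨_, h2.1, rfl⟩, ?_⟩
      rintro _ ⟨y, hy, rfl⟩
      exact neg_le_neg (h2.2 hy)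

theorem cr_add (b x y : ℝ × ℝ) : cr b (x + y) = cr b x + cr b y := by
  simp [cr]; ring

theorem cr_smul (b x : ℝ × ℝ) (t : ℝ) : cr b (t • x) = t * cr b x := by
  simp [cr]; ring

theorem wd_addSeg {K : Set (ℝ × ℝ)} (hK : IsCompact K)
    (hn : K.Nonempty) (a b : ℝ × ℝ) :
    wd (addSeg K a) b = wd K b + |cr b a| := by
  have h1 := (hK.image (cr_continuous b)).isGreatest_sSup (hn.image _)
  have h2 := (hK.image (cr_continuous b)).isLeast_sInf (hn.image _)
  have g1 : IsGreatest (cr b '' addSeg K a) (sSup (cr b '' K) + max 0 (cr b a)) := by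
    constructor
    · obtain ⟨k, hk, hk'⟩ := h1.1
      rcases le_total 0 (cr b a) with h | h
      · refine ⟨k + (1 : ℝ) • a, mem_addSeg.2 ⟨k, hk, 1, by simp, rfl⟩, ?_⟩
        rw [cr_add, cr_smul, hk', max_eq_right h, one_mul]
      · refine ⟨k + (0 : ℝ) • a, mem_addSeg.2 ⟨k, hk, 0, by simp, rfl⟩, ?_⟩
        rw [cr_add, cr_smul, hk', max_eq_left h, zero_mul]
    · rintro _ ⟨x, hx, rfl⟩
      obtain ⟨k, hk, t, ht, rfl⟩ := mem_addSeg.1 hx
      rw [cr_add, cr_smul]
      have := h1.2 ⟨k, hk, rfl⟩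
      have h3 : t * cr b a ≤ max 0 (cr b a) := by
        rcases le_total 0 (cr b a) with h | h
        · rw [max_eq_right h]; nlinarith [ht.2]
        · rw [max_eq_left h]; nlinarith [ht.1]
      linarith
  have g2 : IsLeast (cr b '' addSeg K a) (sInf (cr b '' K) + min 0 (cr b a)) := by
    constructor
    · obtain ⟨k, hk, hk'⟩ := h2.1
      rcases le_total 0 (cr b a) with h | h
      · refine ⟨k + (0 : ℝ) • a, mem_addSeg.2 ⟨k, hk, 0, by simp, rfl⟩, ?_⟩
        rw [cr_add, cr_smul, hk', min_eq_left h, zero_mul]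
      · refine ⟨k + (1 : ℝ) • a, mem_addSeg.2 ⟨k, hk, 1, by simp, rfl⟩, ?_⟩
        rw [cr_add, cr_smul, hk', min_eq_right h, one_mul]
    · rintro _ ⟨x, hx, rfl⟩
      obtain ⟨k, hk, t, ht, rfl⟩ := mem_addSeg.1 hx
      rw [cr_add, cr_smul]
      have := h2.2 ⟨k, hk, rfl⟩
      have h3 : min 0 (cr b a) ≤ t * cr b a := by
        rcases le_total 0 (cr b a) with h | h
        · rw [min_eq_left h]; exact mul_nonneg ht.1 h
        · rw [min_eq_right h]; nlinarith [ht.2]
      linarith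
  rw [wd, g1.csSup_eq, g2.csInf_eq, wd]
  rcases le_total 0 (cr b a) with h | h
  · rw [max_eq_right h, min_eq_left h, abs_of_nonneg h]; ring
  · rw [max_eq_left h, min_eq_right h, abs_of_nonpos h]; ring

/-- `C + ∑_{i ∈ l} [0, a i]` for a list -/
def zs (C : Set (ℝ × ℝ)) : List (ℝ × ℝ) → Set (ℝ × ℝ)
  | [] => C
  | a :: l => addSeg (zs C l) a

/-- sum of `|a ∧ b|` over pairs of a list -/
noncomputable def sp : List (ℝ × ℝ) → ℝ
  | [] => 0
  | a :: l => (l.map fun b => |cr a b|).sum + sp l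

theorem zs_props {C : Set (ℝ × ℝ)} (hC : IsCompact C) (hv : Convex ℝ C) (hn : C.Nonempty)
    (l : List (ℝ × ℝ)) : IsCompact (zs C l) ∧ Convex ℝ (zs C l) ∧ (zs C l).Nonempty ∧
      (∀ b, wd (zs C l) b = wd C b + (l.map fun a => |cr b a|).sum) ∧
      (volume (zs C l)).toReal = (volume C).toReal + (l.map fun a => wd C a).sum + sp l := by
  induction l with
  | nil => simp [zs, sp, hC, hv, hn]
  | cons a l ih =>
    obtain ⟨h1, h2, h3, h4, h5⟩ := ih
    refine ⟨addSeg_compact h1 a, addSeg_convex h2 a, addSeg_nonempty h3 a, ?_, ?_⟩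
    · intro b
      rw [zs, wd_addSeg h1 h3, h4, List.map_cons, List.sum_cons]
      ring
    · rw [zs, vol_addSeg h1 h2 h3, ENNReal.toReal_add h1.measure_lt_top.ne ENNReal.ofReal_ne_top,
        ENNReal.toReal_ofReal (wd_nonneg h1 h3 a), h5, h4, List.map_cons, List.sum_cons, sp]
      ring

theorem zs_add {C : Set (ℝ × ℝ)} (l : List (ℝ × ℝ)) {c z : ℝ × ℝ} (hc : c ∈ C)
    (hz : z ∈ zs {0} l) : c + z ∈ zs C l := by
  induction l generalizing z with
  | nil =>
    have : z = 0 := hz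
    rw [this, add_zero]
    exact hc
  | cons a l ih =>
    obtain ⟨k, hk, t, ht, rfl⟩ := mem_addSeg.1 hz
    rw [zs, mem_addSeg]
    exact ⟨c + k, ih hk, t, ht, by rw [add_assoc]⟩

theorem sp_nonneg (l : List (ℝ × ℝ)) : 0 ≤ sp l := by
  induction l with
  | nil => simp [sp]
  | cons a l ih =>
    rw [sp]
    have : 0 ≤ (l.map fun b => |cr a b|).sum := by
      apply List.sum_nonneg
      intro x hx
      obtain ⟨b, _, rfl⟩ := List.mem_map.1 hx
      exact abs_nonneg _
    linarith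

/-- Minkowski's inequality for a convex body and a zonogon -/
theorem mink {C : Set (ℝ × ℝ)} (hC : IsCompact C) (hv : Convex ℝ C) (hn : C.Nonempty)
    (l : List (ℝ × ℝ)) {w : ℝ} (hw : ∀ a ∈ l, wd C a ≤ w) :
    4 * ((volume C).toReal * sp l) ≤ (l.length * w) ^ 2 := by
  obtain ⟨h1, h2, h3, h4, h5⟩ := zs_props hC hv hn l
  obtain ⟨k1, k2, k3, k4, k5⟩ := zs_props (C := {0}) isCompact_singleton (convex_singleton 0)
    (singleton_nonempty 0) l
  have hbm := bm_plane hC k1 h1 hn k3 fun a ha b hb => zs_add l ha hb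
  have z0 : (volume ({0} : Set (ℝ × ℝ))).toReal = 0 := by
    rw [measure_singleton]; rfl
  have w0 : ∀ a, wd ({0} : Set (ℝ × ℝ)) a = 0 := by
    intro a
    simp [wd]
  rw [z0] at k5
  simp only [w0, List.map_const', List.sum_replicate, smul_zero, add_zero, zero_add] at k5
  have hsum : (l.map fun a => wd C a).sum ≤ l.length * w := by
    have := List.sum_le_card_nsmul (l.map fun a => wd C a) w (by
      intro x hx
      obtain ⟨b, hb, rfl⟩ := List.mem_map.1 hx
      exact hw b hb)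
    simpa using this
  have hsum0 : 0 ≤ (l.map fun a => wd C a).sum := by
    apply List.sum_nonneg
    intro x hx
    obtain ⟨b, _, rfl⟩ := List.mem_map.1 hx
    exact wd_nonneg hC hn _
  rw [k5] at hbm
  set V := (volume C).toReal
  set P := sp l
  have V0 : 0 ≤ V := ENNReal.toReal_nonneg
  have P0 : 0 ≤ P := sp_nonneg l
  have hsq : (√V + √P) ^ 2 ≤ (volume (zs C l)).toReal := by
    have h0 : (0 : ℝ) ≤ (volume (zs C l)).toReal := ENNReal.toReal_nonneg
    have := pow_le_pow_left₀ (add_nonneg (Real.sqrt_nonneg V) (Real.sqrt_nonneg P)) hbm 2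
    rwa [Real.sq_sqrt h0] at this
  rw [h5] at hsq
  have e1 := Real.sq_sqrt V0
  have e2 := Real.sq_sqrt P0
  have h6 : 2 * (√V * √P) ≤ l.length * w := by nlinarith
  have h7 : 0 ≤ 2 * (√V * √P) := by positivity
  calc 4 * (V * P) = (2 * (√V * √P)) ^ 2 := by
        rw [mul_pow, mul_pow, e1, e2]; ring
    _ ≤ _ := pow_le_pow_left₀ h7 h6 2

end Pool.Agent.FillVol
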